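import Pool.Agent.H11.EC.Stm
import Pool.Agent.H11.EM.Desc2

/-! Project EC: approximation of a point of a covering over `ℚ_l`. -/

set_option autoImplicit false

namespace Pool.Agent.H11.EC

open Polynomial NumberField IsDedekindDomain Pool.Agent.Q239.EL
open Pool.Agent.Q51.EL (Abv Par N1 pr Setup hom)
open Pool.Agent.H11.EM (PL In Ty1 Ty2 box cls dg NN tau Good Sys S_SIEVE S_CNT val_theta')

section hom

variable {R S : Type} [CommRing R] [CommRing S]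

theorem hom_map (φ : R →+* S) (f : ℤ[X]) (x w : R) : φ (hom f x w) = hom f (φ x) (φ w) := by
  simp [hom, map_sum]

theorem hom_smul (f : ℤ[X]) (c x w : R) : hom f (c * x) (c * w) = c ^ f.natDegree * hom f x w := by
  unfold hom
  rw [Finset.mul_sum]
  refine Finset.sum_congr rfl fun i hi => ?_
  have hi' : i ≤ f.natDegree := by have := Finset.mem_range.1 hi; omega
  rw [mul_pow, mul_pow]
  have : c ^ f.natDegree = c ^ i * c ^ (f.natDegree - i) := by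
    rw [← pow_add]; congr 1; omega
  rw [this]; ring

theorem hom_one (f : ℤ[X]) (x : R) : hom f x 1 = f.eval₂ (Int.castRingHom R) x := by
  unfold hom
  rw [eval₂_eq_sum_range]
  refine Finset.sum_congr rfl fun i _ => ?_
  simp

end hom

/-- the values of the `h i` at the approximation are squares modulo `l` -/
lemma sq_approx {l : ℕ} [hl : Fact l.Prime] {x0 w0 : ℤ_[l]} {x w : ℚ_[l]} {k : ℤ}
    (hx0 : x = (l : ℚ_[l]) ^ k * x0) (hw0 : w = (l : ℚ_[l]) ^ k * w0) {x1 w1 : ℤ}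
    (hx1 : ‖((x0 : ℚ_[l]) - (x1 : ℚ_[l]))‖ < 1) (hw1 : ‖((w0 : ℚ_[l]) - (w1 : ℚ_[l]))‖ < 1)
    (h : ℤ[X]) (he : Even h.natDegree) (z : ℚ_[l]) (hz : z ^ 2 = hom h x w) :
    ∃ s : ℤ, (l : ℤ) ∣ s ^ 2 - hom h x1 w1 := by
  have hl0 : (l : ℚ_[l]) ≠ 0 := by exact_mod_cast hl.out.ne_zero
  obtain ⟨m, hm⟩ := he
  set c : ℚ_[l] := (l : ℚ_[l]) ^ k with hc
  have hc0 : c ≠ 0 := zpow_ne_zero _ hl0
  set s0 : ℚ_[l] := z / c ^ m with hs0
  have h1 : s0 ^ 2 = ((hom h x0 w0 : ℤ_[l]) : ℚ_[l]) := by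
    have h2 : ((hom h x0 w0 : ℤ_[l]) : ℚ_[l]) = hom h (x0 : ℚ_[l]) (w0 : ℚ_[l]) :=
      hom_map (PadicInt.Coe.ringHom (p := l)) h x0 w0
    have h3 : hom h x w = c ^ h.natDegree * hom h (x0 : ℚ_[l]) (w0 : ℚ_[l]) := by
      rw [hx0, hw0, hom_smul]
    rw [h2, hs0, div_pow, hz, h3, hm, ← pow_mul, mul_two]
    field_simp
  have h4 : ‖s0‖ ≤ 1 := by
    have h5 : ‖s0‖ ^ 2 ≤ 1 := by
      rw [← norm_pow, h1]
      exact PadicInt.norm_le_one _
    exact (pow_le_one_iff_of_nonneg (norm_nonneg _) (by norm_num)).1 h5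
  let t : ℤ_[l] := ⟨s0, h4⟩
  have h6 : t ^ 2 = hom h x0 w0 := by
    apply Subtype.ext
    rw [← h1]
    rfl
  have hto : ∀ {a : ℤ_[l]} {b : ℤ}, ‖((a : ℚ_[l]) - (b : ℚ_[l]))‖ < 1 →
      PadicInt.toZMod a = (b : ZMod l) := by
    intro a b hab
    have h7 : PadicInt.toZMod (a - (b : ℤ_[l])) = 0 := by
      rw [← RingHom.mem_ker, PadicInt.ker_toZMod, IsLocalRing.mem_maximalIdeal, PadicInt.mem_nonunits]
      rw [PadicInt.norm_def]
      push_cast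
      exact hab
    rw [map_sub, map_intCast, sub_eq_zero] at h7
    exact h7
  refine ⟨((PadicInt.toZMod t).val : ℤ), ?_⟩
  rw [← ZMod.intCast_zmod_eq_zero_iff_dvd]
  push_cast
  rw [ZMod.natCast_zmod_val]
  have h8 : ((hom h x1 w1 : ℤ) : ZMod l) = hom h (x1 : ZMod l) (w1 : ZMod l) :=
    hom_map (Int.castRingHom (ZMod l)) h x1 w1
  rw [h8, ← hto hx1, ← hto hw1, ← hom_map, ← h6, map_pow, sub_self]

theorem apm2 {I : Type} (f : ℤ[X]) (h : I → ℤ[X]) (hev : ∀ i, Even (h i).natDegree) (l : ℕ)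
    [hl : Fact l.Prime] (ha : ¬ (l : ℤ) ∣ f.leadingCoeff) (d : ℚ[X])
    (hcov : CovPt f h d ℚ_[l]) (n : ℕ) : ∃ (x w : ℤ) (e : ℕ) (G : ℚ[X]), e < 2 ∧
      (¬ (l : ℤ) ∣ x ∨ ¬ (l : ℤ) ∣ w) ∧ (∀ i, ∃ s : ℤ, (l : ℤ) ∣ s ^ 2 - hom (h i) x w) ∧
      ∀ (L : Type) [Field L] [NumberField L] (θ : L), aeval θ f = 0 →
      ∀ v : HeightOneSpectrum (𝓞 L), Abv v l →
      v.valuation L ((l : L) ^ e * ((x : L) - w * θ) - aeval θ d * aeval θ G ^ 2) ≤
        WithZero.exp (-(n : ℤ)) := by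
  obtain ⟨x, w, g, zz, hxw, hdvd, hzz⟩ := hcov
  obtain ⟨q, hh⟩ := hdvd
  obtain ⟨k, x0, w0, hx0, hw0, hunit⟩ := normalize hxw
  have hl0 : (l : ℚ_[l]) ≠ 0 := by exact_mod_cast hl.out.ne_zero
  have hlR : (0 : ℝ) < l := by exact_mod_cast hl.out.pos
  -- parity
  obtain ⟨e, k', he, hk⟩ : ∃ (e : ℕ) (k' : ℤ), e < 2 ∧ k = e + 2 * k' := by
    refine ⟨(k % 2).toNat, k / 2, ?_, ?_⟩
    · omega
    · omega
  set u : ℚ_[l] := (l : ℚ_[l]) ^ (-k') with hu
  set fl := f.map (Int.castRingHom ℚ_[l]) with hfl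
  set dl := d.map (Rat.castHom ℚ_[l]) with hdl
  have hlk : (l : ℚ_[l]) ^ k * u ^ 2 = (l : ℚ_[l]) ^ e := by
    rw [hu, hk, ← zpow_natCast ((l : ℚ_[l]) ^ (-k')) 2, ← zpow_mul, ← zpow_add₀ hl0,
      ← zpow_natCast (l : ℚ_[l]) e]
    congr 1
    push_cast
    ring
  have h1 : C ((l : ℚ_[l]) ^ e) * (C (x0 : ℚ_[l]) - C (w0 : ℚ_[l]) * X) - dl * (C u * g) ^ 2 =
      fl * (C (u ^ 2) * q) := by
    calc C ((l : ℚ_[l]) ^ e) * (C (x0 : ℚ_[l]) - C (w0 : ℚ_[l]) * X) - dl * (C u * g) ^ 2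
        = C (u ^ 2) * (C x - C w * X - dl * g ^ 2) := by
          rw [← hlk, hx0, hw0]
          simp only [map_mul, map_pow]
          ring
      _ = _ := by rw [hh]; ring
  set g' := C u * g with hg'
  set h' := C (u ^ 2) * q with hh'
  obtain ⟨rd, hrd1, hrd⟩ := sm_exists dl
  obtain ⟨rg, hrg1, hrg⟩ := sm_exists g'
  have hlK : (0 : ℝ) < ((l : ℝ) ^ n)⁻¹ := inv_pos.mpr (pow_pos hlR n)
  set ε : ℝ := min 1 (((l : ℝ) ^ n)⁻¹ / (rd * rg)) with hε
  have hrr : 0 < rd * rg := by positivity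
  have hε0 : 0 < ε := lt_min one_pos (div_pos hlK hrr)
  have hε1 : ε ≤ 1 := min_le_left _ _
  have hε2 : rd * (ε * rg) ≤ ((l : ℝ) ^ n)⁻¹ := by
    have h2 : ε ≤ ((l : ℝ) ^ n)⁻¹ / (rd * rg) := min_le_right _ _
    rw [le_div_iff₀ hrr] at h2
    linarith
  obtain ⟨G, hG⟩ := sm_approx g' hε0
  obtain ⟨H, hH⟩ := sm_approx h' hlK
  obtain ⟨x1, hx1, hx1'⟩ := int_approx x0 (n + 1)
  obtain ⟨w1, hw1, hw1'⟩ := int_approx w0 (n + 1)
  have hlt : ((l : ℝ) ^ (n + 1))⁻¹ < 1 := by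
    apply inv_lt_one_of_one_lt₀
    exact one_lt_pow₀ (by exact_mod_cast hl.out.one_lt) (Nat.succ_ne_zero n)
  refine ⟨x1, w1, e, G, he, ?_, fun i => ?_, fun L _ _ θ hroot v hv => ?_⟩
  · rcases hunit with h2 | h2
    · exact Or.inl (hx1' h2 (Nat.succ_pos n))
    · exact Or.inr (hw1' h2 (Nat.succ_pos n))
  · exact sq_approx hx0 hw0 (lt_of_le_of_lt hx1 hlt) (lt_of_le_of_lt hw1 hlt) (h i) (hev i) (zz i)
      (hzz i)
  · have hKK : ((l : ℝ) ^ (n + 1))⁻¹ ≤ ((l : ℝ) ^ n)⁻¹ := by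
      apply inv_anti₀ (pow_pos hlR n)
      exact pow_le_pow_right₀ (by exact_mod_cast hl.out.one_lt.le) (Nat.le_succ n)
    set E : ℚ[X] := C ((l : ℚ) ^ e) * (C (x1 : ℚ) - C (w1 : ℚ) * X) - d * G ^ 2 -
      f.map (Int.castRingHom ℚ) * H with hE
    have hEθ : aeval θ E = (l : L) ^ e * ((x1 : L) - w1 * θ) - aeval θ d * aeval θ G ^ 2 := by
      have h3 : aeval θ (f.map (Int.castRingHom ℚ)) = 0 := by
        rw [← hroot]
        exact aeval_map_algebraMap ℚ θ f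
      rw [hE]
      simp only [map_sub, map_mul, map_pow, aeval_C, aeval_X, h3, zero_mul, sub_zero, map_natCast,
        map_intCast]
    rw [← hEθ]
    apply val_aeval (val_theta' hroot hv ha) hv
    have hmap : E.map (Rat.castHom ℚ_[l]) =
        C ((l : ℚ_[l]) ^ e) * (C ((x1 : ℚ_[l]) - x0) - C ((w1 : ℚ_[l]) - w0) * X) +
        (dl * ((g' - G.map (Rat.castHom ℚ_[l])) * (g' + G.map (Rat.castHom ℚ_[l]))) +
        fl * (h' - H.map (Rat.castHom ℚ_[l]))) := by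
      have h4 : (f.map (Int.castRingHom ℚ)).map (Rat.castHom ℚ_[l]) = fl := by
        rw [Polynomial.map_map, hfl]
        congr 1
      rw [hE]
      simp only [Polynomial.map_sub, Polynomial.map_mul, Polynomial.map_pow, map_C, map_X, h4,
        map_pow, map_natCast, map_intCast, map_sub, Polynomial.map_natCast,
        Polynomial.map_intCast]
      have h5 : (dl * g' ^ 2 + fl * h' : ℚ_[l][X]) =
          C ((l : ℚ_[l]) ^ e) * (C (x0 : ℚ_[l]) - C (w0 : ℚ_[l]) * X) := by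
        rw [← h1]; ring
      simp only [map_pow, map_natCast] at h5
      linear_combination -h5
    rw [hmap]
    have hX : ∀ {a b : ℚ_[l]} {r : ℝ}, ‖a‖ ≤ r → ‖b‖ ≤ r → 0 ≤ r → Sm r (C a - C b * X) := by
      intro a b r h2 h3 h4
      refine (Sm.C h2).sub ?_
      have := Sm.mul h4 zero_le_one (Sm.C h3) Sm.X
      rwa [mul_one] at this
    have hle1 : ‖(l : ℚ_[l]) ^ e‖ ≤ 1 := by
      rw [norm_pow]
      exact pow_le_one₀ (norm_nonneg _) (Padic.norm_p_lt_one).le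
    refine Sm.add ?_ (Sm.add ?_ ?_)
    · have h2 := Sm.mul zero_le_one hlK.le (Sm.C hle1) (hX
        (a := (x1 : ℚ_[l]) - x0) (b := (w1 : ℚ_[l]) - w0)
        (by rw [norm_sub_rev]; exact hx1.trans hKK) (by rw [norm_sub_rev]; exact hw1.trans hKK)
        hlK.le)
      rwa [one_mul] at h2
    · have h2 : Sm rg (g' + G.map (Rat.castHom ℚ_[l])) := by
        have h3 : g' + G.map (Rat.castHom ℚ_[l]) =
            (g' + g') - (g' - G.map (Rat.castHom ℚ_[l])) := by ring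
        rw [h3]
        exact (hrg.add hrg).sub (hG.mono (hε1.trans hrg1))
      exact (Sm.mul (by linarith) (by positivity) hrd
        (Sm.mul hε0.le (by linarith) hG h2)).mono hε2
    · have h2 : Sm 1 fl := by
        intro i
        rw [hfl, coeff_map]
        exact Padic.norm_int_le_one _
      have h3 := Sm.mul zero_le_one hlK.le h2 hH
      rwa [one_mul] at h3

end Pool.Agent.H11.EC
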