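import Pool.Agent.H11.EC.StmM

/-! # EC-CNTM: from squarefree integers to all integers (helper95) -/

set_option autoImplicit false

namespace Pool.Agent.H11.EC.CNTM

open Finset Filter Topology

open scoped Classical in
/-- the members of `E` of absolute value at most `Y`, without zero -/
noncomputable def F (E : Set ℤ) (Y : ℕ) : Finset ℤ := ((Icc (-(Y : ℤ)) Y).filter (fun D => D ≠ 0 ∧ D ∈ E))

theorem F_coe (E : Set ℤ) (Y : ℕ) : (F E Y : Set ℤ) = {D : ℤ | D.natAbs ≤ Y ∧ D ≠ 0 ∧ D ∈ E} := by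
  ext D
  simp only [F, coe_filter, mem_Icc, Set.mem_ofPred_eq]
  constructor
  · rintro ⟨⟨h1, h2⟩, h3⟩
    exact ⟨by omega, h3⟩
  · rintro ⟨h1, h3⟩
    exact ⟨⟨by omega, by omega⟩, h3⟩

theorem F_card_le (E : Set ℤ) (Y : ℕ) : (F E Y).card ≤ 2 * Y := by
  classical
  have h1 : F E Y ⊆ (Icc (-(Y : ℤ)) Y).erase 0 := by
    intro D hD
    rw [F, mem_filter] at hD
    exact mem_erase.2 ⟨hD.2.1, hD.1⟩
  refine (card_le_card h1).trans ?_
  rw [card_erase_of_mem (by rw [mem_Icc]; constructor <;> omega), Int.card_Icc]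
  omega

theorem sub_union (E : Set ℤ) (X : ℕ) :
    ({D : ℤ | D.natAbs ≤ X ∧ D ≠ 0 ∧ ∃ (D' k : ℤ), D' ∈ E ∧ D = D' * k ^ 2}.ncard : ℝ) ≤
      ∑ k ∈ Ioo 0 (X + 1), ((F E (X / k ^ 2)).card : ℝ) := by
  classical
  have hsub : {D : ℤ | D.natAbs ≤ X ∧ D ≠ 0 ∧ ∃ (D' k : ℤ), D' ∈ E ∧ D = D' * k ^ 2} ⊆
      (((Ioo 0 (X + 1)).biUnion (fun k : ℕ => (F E (X / k ^ 2)).image (fun D' : ℤ => D' * (k : ℤ) ^ 2)) :
        Finset ℤ) : Set ℤ) := by
    rintro D ⟨h1, h2, D', k, h3, h4⟩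
    rw [mem_coe, mem_biUnion]
    have hk : k ≠ 0 := by
      rintro rfl
      apply h2
      rw [h4]; ring
    have hD' : D' ≠ 0 := by
      rintro rfl
      apply h2
      rw [h4]; ring
    have hk1 : 1 ≤ k.natAbs := by omega
    have hD1 : 1 ≤ D'.natAbs := by omega
    have hab : D.natAbs = D'.natAbs * k.natAbs ^ 2 := by
      rw [h4, Int.natAbs_mul, Int.natAbs_pow]
    have hle : D'.natAbs * k.natAbs ^ 2 ≤ X := by rw [← hab]; exact h1
    refine ⟨k.natAbs, ?_, ?_⟩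
    · rw [mem_Ioo]
      constructor
      · omega
      · nlinarith
    · rw [mem_image]
      refine ⟨D', ?_, ?_⟩
      · have : D' ∈ (F E (X / k.natAbs ^ 2) : Set ℤ) := by
          rw [F_coe]
          refine ⟨?_, hD', h3⟩
          rw [Nat.le_div_iff_mul_le (by positivity)]
          exact hle
        exact this
      · rw [h4, Int.natCast_natAbs, sq_abs]
  have h1 := Set.ncard_le_ncard hsub (Finset.finite_toSet _)
  rw [Set.ncard_coe_finset] at h1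
  have h2 : (((Ioo 0 (X + 1)).biUnion
      (fun k : ℕ => (F E (X / k ^ 2)).image (fun D' : ℤ => D' * (k : ℤ) ^ 2)) : Finset ℤ)).card ≤
      ∑ k ∈ Ioo 0 (X + 1), (F E (X / k ^ 2)).card := by
    refine card_biUnion_le.trans ?_
    exact sum_le_sum fun k _ => card_image_le
  exact_mod_cast h1.trans h2

theorem main : S_CNTM := by
  intro E γ C hγ hE
  set C₁ : ℝ := max C 0 with hC₁
  have hC₁0 : 0 ≤ C₁ := le_max_right _ _
  refine ⟨2 * C₁ * 4 ^ γ + 4, ?_⟩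
  obtain ⟨Y₀, hY₀⟩ := eventually_atTop.1 hE
  have hlog : ∀ᶠ x : ℝ in atTop, Real.log x ^ γ ≤ x ^ (1 / 4 : ℝ) := by
    have h := (isLittleO_log_rpow_rpow_atTop γ (by norm_num : (0:ℝ) < 1 / 4)).bound one_pos
    filter_upwards [h, eventually_ge_atTop 1] with x hx hx1
    rw [one_mul] at hx
    have h2 : 0 ≤ Real.log x ^ γ := Real.rpow_nonneg (Real.log_nonneg hx1) _
    rw [Real.norm_of_nonneg h2, Real.norm_of_nonneg (by positivity)] at hx
    exact hx
  have hlogN := tendsto_natCast_atTop_atTop.eventually hlog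
  filter_upwards [hlogN, eventually_ge_atTop 16, eventually_ge_atTop ((Y₀ + 2) ^ 2)] with X hX1 hX2 hX3
  refine (sub_union E X).trans ?_
  set s := Nat.sqrt X with hs
  set K := Nat.sqrt s with hK
  have hs2 : s ^ 2 ≤ X := by rw [sq]; exact Nat.sqrt_le X
  have hs3 : X < (s + 1) ^ 2 := by rw [sq]; exact Nat.lt_succ_sqrt X
  have hK2 : K ^ 2 ≤ s := by rw [sq]; exact Nat.sqrt_le s
  have hK3 : s < (K + 1) ^ 2 := by rw [sq]; exact Nat.lt_succ_sqrt s
  have hsY : Y₀ + 1 ≤ s := by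
    by_contra hn
    push Not at hn
    have : (s + 1) ^ 2 ≤ (Y₀ + 2) ^ 2 := Nat.pow_le_pow_left (by omega) 2
    omega
  have hs4 : 2 ≤ s := by
    by_contra hn
    push Not at hn
    have : (s + 1) ^ 2 ≤ 2 ^ 2 := Nat.pow_le_pow_left (by omega) 2
    omega
  have hXs : X ≤ s ^ 4 := by
    have h1 : (s + 1) ^ 2 ≤ s ^ 4 := by
      have : s + 1 ≤ s ^ 2 := by nlinarith
      calc (s + 1) ^ 2 ≤ (s ^ 2) ^ 2 := Nat.pow_le_pow_left this 2
        _ = s ^ 4 := by ring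
    omega
  have hXK : (X : ℝ) ≤ ((K : ℝ) + 1) ^ 4 := by
    have h1 : (s + 1) ^ 2 ≤ ((K + 1) ^ 2) ^ 2 := Nat.pow_le_pow_left (by omega) 2
    have h2 : X ≤ (K + 1) ^ 4 := by
      have : ((K + 1) ^ 2) ^ 2 = (K + 1) ^ 4 := by ring
      omega
    exact_mod_cast h2
  have hXpos : (0 : ℝ) < X := by
    have : 0 < X := by omega
    exact_mod_cast this
  have hlogX : 0 < Real.log X := Real.log_pos (by
    have : 1 < X := by omega
    exact_mod_cast this)
  have hKX : K < X + 1 := by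
    have h1 : K ≤ s := Nat.sqrt_le_self s
    have h2 : s ≤ X := Nat.sqrt_le_self X
    omega
  -- split the sum
  have hsplit : ∑ k ∈ Ioo 0 (X + 1), ((F E (X / k ^ 2)).card : ℝ) =
      ∑ k ∈ Ioo 0 (K + 1), ((F E (X / k ^ 2)).card : ℝ) + ∑ k ∈ Ioo K (X + 1), ((F E (X / k ^ 2)).card : ℝ) := by
    have : Ioo 0 (X + 1) = Ioo 0 (K + 1) ∪ Ioo K (X + 1) := by
      ext k
      simp only [mem_Ioo, mem_union]
      omega
    rw [this, sum_union]
    rw [disjoint_left]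
    intro k hk hk'
    rw [mem_Ioo] at hk hk'
    omega
  rw [hsplit]
  -- first part
  have h1 : ∑ k ∈ Ioo 0 (K + 1), ((F E (X / k ^ 2)).card : ℝ) ≤
      (C₁ * 4 ^ γ * X * Real.log X ^ (-γ)) * 2 := by
    have ht : ∀ k ∈ Ioo 0 (K + 1), ((F E (X / k ^ 2)).card : ℝ) ≤
        (C₁ * 4 ^ γ * X * Real.log X ^ (-γ)) * ((k : ℝ) ^ 2)⁻¹ := by
      intro k hk
      rw [mem_Ioo] at hk
      have hk2 : k ^ 2 ≤ s := (Nat.pow_le_pow_left (by omega) 2).trans hK2
      have hYs : s ≤ X / k ^ 2 := by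
        rw [Nat.le_div_iff_mul_le (pow_pos hk.1 2)]
        calc s * k ^ 2 ≤ s * s := Nat.mul_le_mul_left _ hk2
          _ = s ^ 2 := by ring
          _ ≤ X := hs2
      have h := hY₀ (X / k ^ 2) (by omega)
      rw [← F_coe, Set.ncard_coe_finset] at h
      have hYpos : (0 : ℝ) < ((X / k ^ 2 : ℕ) : ℝ) := by
        have : 0 < X / k ^ 2 := by omega
        exact_mod_cast this
      have hlY : Real.log X / 4 ≤ Real.log ((X / k ^ 2 : ℕ) : ℝ) := by
        have h2 : Real.log X ≤ Real.log (((X / k ^ 2 : ℕ) : ℝ) ^ 4) := by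
          apply Real.log_le_log hXpos
          have h3 : X ≤ (X / k ^ 2) ^ 4 := hXs.trans (Nat.pow_le_pow_left hYs 4)
          exact_mod_cast h3
        rw [Real.log_pow] at h2
        push_cast at h2 ⊢
        linarith
      have hr : Real.log ((X / k ^ 2 : ℕ) : ℝ) ^ (-γ) ≤ 4 ^ γ * Real.log X ^ (-γ) := by
        have h3 := Real.rpow_le_rpow_of_nonpos (by positivity : 0 < Real.log X / 4) hlY (by linarith : -γ ≤ 0)
        refine h3.trans (le_of_eq ?_)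
        rw [Real.div_rpow hlogX.le (by norm_num), Real.rpow_neg (by norm_num : (0:ℝ) ≤ 4)]
        field_simp
      have hrn : 0 ≤ Real.log ((X / k ^ 2 : ℕ) : ℝ) ^ (-γ) :=
        Real.rpow_nonneg (le_trans (by positivity) hlY) _
      have hdiv : ((X / k ^ 2 : ℕ) : ℝ) ≤ X * ((k : ℝ) ^ 2)⁻¹ := by
        have := @Nat.cast_div_le ℝ _ _ _ X (k ^ 2)
        push_cast at this ⊢
        rw [div_eq_mul_inv] at this
        exact this
      calc ((F E (X / k ^ 2)).card : ℝ) ≤ C * ((X / k ^ 2 : ℕ) : ℝ) * Real.log ((X / k ^ 2 : ℕ) : ℝ) ^ (-γ) := h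
        _ ≤ C₁ * ((X / k ^ 2 : ℕ) : ℝ) * Real.log ((X / k ^ 2 : ℕ) : ℝ) ^ (-γ) := by
            gcongr
            exact le_max_left _ _
        _ ≤ C₁ * (X * ((k : ℝ) ^ 2)⁻¹) * (4 ^ γ * Real.log X ^ (-γ)) := by
            gcongr
        _ = _ := by ring
    refine (sum_le_sum ht).trans ?_
    rw [← mul_sum]
    have hb := sum_Ioo_inv_sq_le (α := ℝ) 0 (K + 1)
    have hcoef : 0 ≤ C₁ * 4 ^ γ * X * Real.log X ^ (-γ) := by positivity
    refine mul_le_mul_of_nonneg_left (hb.trans ?_) hcoef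
    norm_num
  have h2 : ∑ k ∈ Ioo K (X + 1), ((F E (X / k ^ 2)).card : ℝ) ≤ 4 * X * Real.log X ^ (-γ) := by
    have ht : ∀ k ∈ Ioo K (X + 1), ((F E (X / k ^ 2)).card : ℝ) ≤ (2 * X) * ((k : ℝ) ^ 2)⁻¹ := by
      intro k hk
      have h3 : ((F E (X / k ^ 2)).card : ℝ) ≤ 2 * ((X / k ^ 2 : ℕ) : ℝ) := by
        exact_mod_cast F_card_le E (X / k ^ 2)
      have hdiv : ((X / k ^ 2 : ℕ) : ℝ) ≤ X * ((k : ℝ) ^ 2)⁻¹ := by
        have := @Nat.cast_div_le ℝ _ _ _ X (k ^ 2)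
        push_cast at this ⊢
        rw [div_eq_mul_inv] at this
        exact this
      calc _ ≤ _ := h3
        _ ≤ 2 * (X * ((k : ℝ) ^ 2)⁻¹) := by gcongr
        _ = _ := by ring
    refine (sum_le_sum ht).trans ?_
    rw [← mul_sum]
    have hb := sum_Ioo_inv_sq_le (α := ℝ) K (X + 1)
    have hK4 : Real.log X ^ γ ≤ (K : ℝ) + 1 := by
      refine hX1.trans ?_
      have h5 : (X : ℝ) ^ (1 / 4 : ℝ) ≤ (((K : ℝ) + 1) ^ 4) ^ (1 / 4 : ℝ) :=
        Real.rpow_le_rpow hXpos.le hXK (by norm_num)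
      have h6 : ((((K : ℝ) + 1) ^ 4) ^ (1 / 4 : ℝ) : ℝ) = (K : ℝ) + 1 := by
        rw [← Real.rpow_natCast, ← Real.rpow_mul (by positivity)]
        norm_num
      rw [h6] at h5
      exact h5
    have hlp : 0 < Real.log X ^ γ := Real.rpow_pos_of_pos hlogX _
    have h7 : 2 / ((K : ℝ) + 1) ≤ 2 * Real.log X ^ (-γ) := by
      rw [Real.rpow_neg hlogX.le, div_eq_mul_inv]
      gcongr
    calc 2 * (X : ℝ) * ∑ i ∈ Ioo K (X + 1), ((i : ℝ) ^ 2)⁻¹ ≤ 2 * X * (2 * Real.log X ^ (-γ)) := by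
          gcongr
          exact hb.trans h7
      _ = _ := by ring
  calc _ ≤ _ := add_le_add h1 h2
    _ = _ := by ring

end Pool.Agent.H11.EC.CNTM

theorem Pool.Agent.H11.EC.cntm : Pool.Agent.H11.EC.S_CNTM := Pool.Agent.H11.EC.CNTM.main
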