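import Mathlib
import Pool.Agent.H11.EM.Stm
import Pool.Agent.H11.V.R_pool_sql_team_seeded_9f66d723_W5h36_EL_Concl

/-!
# Project EC (helper11): twists of double coverings `X → Z`

`g = ∏ k, f k` (`f k` irreducible over `ℚ`, pairwise non-associated, `deg g` even, at least 6), `h i`,
`i ∈ I`, polynomials of even degrees, `g * ∏ i, h i` separable. The curve

  `X_D : D y² = G(x, w)`, `z i ² = H i (x, w)` (all `i`)

is the quadratic twist by `D` of the double covering `X_1 → Z`, `Z : z i ² = H i (x, w)`. Its coverings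
`x - θ w = d(θ) η²` (with the same `z i`) are étale.

GOAL. For 100 percent of the `D` for which `X_D` is everywhere locally soluble no covering is.

PROOF. As in project EM (`Pool/Agent/H11/EM`); at a prime `p ∣ D` a point of `X_D` over `ℚ_p` reduces to a
zero `r` of some `f k` for which all `h i (r)` are squares modulo `p`. Let `SR f h p` be the set of these
`k`. In the upper bound the primes with `SR f h l = ∅` do not divide the norms of the `α k` (`S_CORE`).
The lower bound for the number of the everywhere locally soluble `X_D` is `S_LOW`.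
-/

set_option autoImplicit false

namespace Pool.Agent.H11.EC

open Polynomial NumberField IsDedekindDomain Finset Filter Topology
open Pool.Agent.Q51.EL (Abv Par N1 pr Setup hom)
open Pool.Agent.H11.EM (PL In Ty1 Ty2 box cls dg NN tau Good Sys S_SIEVE S_CNT)
open Pool.Agent.W401.Cheb (M)

/-- the curve `X_D` has a point over `F` -/
def CurvePt {I : Type} (g : ℤ[X]) (h : I → ℤ[X]) (D : ℤ) (F : Type) [Field F] : Prop :=
  ∃ (x w y : F) (z : I → F), (x ≠ 0 ∨ w ≠ 0) ∧ (D : F) * y ^ 2 = hom g x w ∧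
    ∀ i, z i ^ 2 = hom (h i) x w

/-- the curve `X_D` is everywhere locally soluble -/
def ELS {I : Type} (g : ℤ[X]) (h : I → ℤ[X]) (D : ℤ) : Prop :=
  CurvePt g h D ℝ ∧ ∀ (p : ℕ) [Fact p.Prime], CurvePt g h D ℚ_[p]

/-- the covering `x - θ w = d(θ) η²` has a point over `F` -/
def CovPt {I : Type} (g : ℤ[X]) (h : I → ℤ[X]) (d : ℚ[X]) (F : Type) [Field F] [CharZero F] : Prop :=
  ∃ (x w : F) (G : F[X]) (z : I → F), (x ≠ 0 ∨ w ≠ 0) ∧
    g.map (Int.castRingHom F) ∣ C x - C w * X - d.map (Rat.castHom F) * G ^ 2 ∧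
    ∀ i, z i ^ 2 = hom (h i) x w

/-- some covering of `X_D` has points over all completions of `ℚ` -/
def Sel {I : Type} (g : ℤ[X]) (h : I → ℤ[X]) (D : ℤ) : Prop :=
  ∃ d : ℚ[X], IsCoprime (g.map (Int.castRingHom ℚ)) d ∧
    IsSquare (((D * g.leadingCoeff : ℤ) : ℚ) *
      Algebra.norm ℚ (AdjoinRoot.mk (g.map (Int.castRingHom ℚ)) d)) ∧
    CovPt g h d ℝ ∧ ∀ (p : ℕ) [Fact p.Prime], CovPt g h d ℚ_[p]

/-- the conditions on the polynomials -/
structure Hyp {K I : Type} [Fintype K] [Fintype I] (f : K → ℤ[X]) (h : I → ℤ[X]) : Prop where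
  irr : ∀ k, Irreducible ((f k).map (Int.castRingHom ℚ))
  na : ∀ k l, k ≠ l →
    ¬ Associated ((f k).map (Int.castRingHom ℚ)) ((f l).map (Int.castRingHom ℚ))
  ev : Even (∏ k, f k).natDegree
  evh : ∀ i, Even (h i).natDegree
  pos : ∀ i, 1 ≤ (h i).natDegree
  sep : (((∏ k, f k) * ∏ i, h i).map (Int.castRingHom ℚ)).Separable

section sets

variable {K I : Type} [Fintype K]

open scoped Classical in
/-- the set of the `k` such that `f k` has a zero `r` modulo `p` for which all `h i (r)` are squares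
modulo `p` -/
noncomputable def SR (f : K → ℤ[X]) (h : I → ℤ[X]) (p : ℕ) : Finset K :=
  univ.filter (fun k => ∃ r : ℤ, (p : ℤ) ∣ (f k).eval r ∧
    ∀ i, ∃ s : ℤ, (p : ℤ) ∣ s ^ 2 - (h i).eval r)

open scoped Classical in
/-- the set of the `k` such that `σ` fixes a zero `θ` of `f k` and square roots of all `h i (θ)` -/
noncomputable def SQ (f : K → ℤ[X]) (h : I → ℤ[X])
    (σ : AlgebraicClosure ℚ ≃ₐ[ℚ] AlgebraicClosure ℚ) : Finset K :=
  univ.filter (fun k => ∃ θ : AlgebraicClosure ℚ, aeval θ (f k) = 0 ∧ σ θ = θ ∧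
    ∀ i, ∃ s : AlgebraicClosure ℚ, s ^ 2 = aeval θ (h i) ∧ σ s = s)

end sets

/-- JOB EC-WEIL. Points modulo large primes.
Proof. Suppose there is no such `x`. `∑ x, (1 + χ(u g(x))) ∏ i, (1 + χ(h i (x)))`, `χ` the quadratic
character, is at most `2 ^ (r + 1) * n`, `r = #I`, `n = deg (g ∏ h i)` (only the `x` where one of the
polynomials vanishes contribute). Expanding the product, the main term is `p`, and the others are
`± ∑ x, χ(P(x))`, `P` one of the `2 ^ (r + 1) - 1` nonconstant products of some of the polynomials, squarefree;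
`|∑ x, χ(P(x))| ≤ 5 (deg P) √p` by `Pool.Agent.H341R2.weil_bound` (see its use in `weil_pt` in
`Pool/Agent/H11/V/R_pool_sql_team_seeded_9f66d723_W5h36_EL_Loc.lean`). -/
def S_WEIL : Prop := ∀ (p : ℕ) [Fact p.Prime] (I : Type) [Fintype I] (g : (ZMod p)[X])
  (h : I → (ZMod p)[X]) (u : ZMod p), p ≠ 2 → u ≠ 0 → Squarefree (g * ∏ i, h i) →
  1 ≤ g.natDegree → (∀ i, 1 ≤ (h i).natDegree) →
  (2 ^ (Fintype.card I + 4) * (g * ∏ i, h i).natDegree) ^ 2 < p →
  ∃ (x y : ZMod p) (z : I → ZMod p), y ≠ 0 ∧ (∀ i, z i ≠ 0) ∧ u * g.eval x = y ^ 2 ∧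
    ∀ i, (h i).eval x = z i ^ 2

/-- JOB EC-SOLV. Twists with points everywhere locally.
Proof (with `S_WEIL`), as `Pool.Agent.W5h36.EL.els` in
`Pool/Agent/H11/V/R_pool_sql_team_seeded_9f66d723_W5h36_EL_Loc.lean`: `z0` is at least `|D0|`, 2, the
absolute values of the leading coefficients, of a nonzero integer `R` of the form `A G + B G'`,
`G = g ∏ h i` (`sep_bez`), and the bound in `S_WEIL`. `ℝ`: `m > 0`. `p ≤ z`: `m` is a square in `ℤ_p`
(`sq_of_mod`), so `X_{D0 m}` is isomorphic to `X_{D0}`. `p > z`, `p ∣ m`: a zero `r` of `f k` modulo `p` for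
which `h i (r)` are squares modulo `p`, not zero modulo `p` since `p ∤ R`; `r` lifts to a zero `ρ ∈ ℤ_p` of `g`
(`lift_zero`; one has to add `ρ ≡ r mod p` there), and `h i (ρ)` is a square (Hensel, `padic_sq`): the point
`(ρ, 1, 0, z)`. Other `p`: `S_WEIL` and Hensel. -/
def S_SOLV : Prop := ∀ (K I : Type) [Fintype K] [Nonempty K] [Fintype I] (f : K → ℤ[X])
  (h : I → ℤ[X]), Hyp f h → ∀ D0 : ℤ, D0 ≠ 0 → ELS (∏ k, f k) h D0 →
  ∃ z0 : ℕ, D0.natAbs ≤ z0 ∧ ∀ z : ℕ, z0 ≤ z → ∀ m : ℕ, m ≠ 0 →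
    (∀ p : ℕ, p.Prime → p ∣ m → (SR f h p).Nonempty ∧ z < p) →
    ∀ r : ℤ, (∀ p : ℕ, p.Prime → p ≤ z → ¬ (p : ℤ) ∣ r) → ((8 * z.factorial : ℕ) : ℤ) ∣ m - r ^ 2 →
      ELS (∏ k, f k) h (D0 * m)

open scoped Classical in
/-- JOB EC-LOW. Lower bound for the number of the twists with points everywhere locally.
Proof (from `S_SOLV`): the same as `els_lower` in
`Pool/Agent/H11/V/R_pool_sql_team_seeded_9f66d723_W5h36_EL_Low.lean`, with `D0` in place of `s` and
`P = {p prime | SR f h p is not empty}`. -/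
def S_LOW : Prop := ∀ (K I : Type) [Fintype K] [Nonempty K] [Fintype I] (f : K → ℤ[X])
  (h : I → ℤ[X]), Hyp f h → ∀ D0 : ℤ, Squarefree D0 → ELS (∏ k, f k) h D0 →
  ∀ β C : ℝ, 0 < β → β ≤ 1 →
  (∀ N : ℕ, β * (Nat.primeCounting N : ℝ) - C ≤
    (((range (N + 1)).filter (fun p => p.Prime ∧ (SR f h p).Nonempty)).card : ℝ)) →
  ∃ c : ℝ, 0 < c ∧ ∀ᶠ X : ℕ in atTop, c * X * (Real.log X) ^ (β - 1) ≤
    ({d : ℤ | d.natAbs ≤ X ∧ Squarefree d ∧ ELS (∏ k, f k) h d}.ncard : ℝ)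

open scoped Classical in
/-- JOB EC-MEAN. The distribution of the sets `SR f h p`.
Proof: the same as `sets_mean` in
`Pool/Agent/H11/V/R_pool_sql_team_seeded_9f66d723_W5h36_EL_Sets.lean`, with a stronger version of
`root_frob` (`.._EL_Frob.lean`): let `L` be Galois and contain all zeros `θ` of the `f k` and all square
roots of the `h i (θ)`, `g` the Frobenius element of `φ : 𝓞 L → k'`, `p` large. A zero `r` modulo `p` with
`h i (r) ≡ s i ²` gives (as in `root_frob`) a zero `θ` of `f k` fixed by `g` with `φ(c θ) = c r`. If `h i (θ) = 0`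
take the square root `0`. Otherwise, let `v² = h i (θ)`; `g v = ± v`; `φ` of (a multiple in `𝓞 L` of) `v` has the
square of an element of `F_p`, so it is in `F_p` and is not zero (`p` large): `g v = - v` would give
`φ(v) = φ(v)^p = - φ(v)`. Conversely, `g θ = θ`, `g v = v` give `r` with `φ(c θ) = c r` and `φ(v) ∈ F_p`. -/
def S_MEAN : Prop := ∀ (K I : Type) [Fintype K] [DecidableEq K] [Fintype I] (f : K → ℤ[X])
  (h : I → ℤ[X]), (∀ k, f k ≠ 0) →
  ∃ ν : Finset K → ℝ, (∀ T, 0 ≤ ν T) ∧ (∑ T, ν T = 1) ∧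
    (∀ F : Finset K → ℝ, Tendsto (M fun p => F (SR f h p)) atTop (𝓝 (∑ T, F T * ν T))) ∧
    ∀ σ, 0 < ν (SQ f h σ)

open scoped Classical in
/-- JOB EC-SPLIT. Many primes split completely in all the `L k` and have `SR f h l ≠ ∅`.
Proof: apply `S_M2` of project EM (proved: `Pool.Agent.H29.EM.m2_of .. : S_M2`, see `t_core` in
`Pool/Agent/H11/EM/Data.lean`) to the fields `L k`, `k ∈ K`, together with one number field `M` that contains
some `θ k₀` and square roots of all `h i (θ k₀)` (e.g. `exL2_aux`, or a finite extension of `L k₀`):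
index type `Option K`. If `l` is large and `N1 M l ≥ 1`, a prime `v` of `M` of norm `l` gives `r ∈ ℤ` with
`c θ ≡ c r mod v`, so `l ∣ f k₀ (r)`, and the square roots are congruent to integers modulo `v`, so
`h i (r)` are squares modulo `l`. -/
def S_SPLIT : Prop := ∀ (K I : Type) [Fintype K] [Nonempty K] [Fintype I] (f : K → ℤ[X])
  (h : I → ℤ[X]) (L : K → Type) [∀ k, Field (L k)] [∀ k, NumberField (L k)] (θ : ∀ k, L k),
  Sys f L θ → ∃ c C : ℝ, 0 < c ∧ ∀ Y : ℝ, 3 ≤ Y →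
  c * Real.log (Real.log Y) - C ≤
    ∑ l ∈ (pr Y).filter (fun l => NN L l = dg L ∧ (SR f h l).Nonempty), (1 : ℝ) / l

open scoped Classical in
/-- JOB EC-CORE. The main upper bound.
Proof: as `Pool.Agent.H29.EM.core` (`Pool/Agent/H11/V/H29_EM_Core.lean`), where `A` is the set of all primes.
For `l ∉ A` all the elements of `T` are units at `l`, so `(cls l T).ncard ≤ l ^ n (1 - NN / l + n² / l²)`
(elements of the first kind in `Pool/Agent/H11/EM/CNT.lean`). So with `tau' l = tau l` for `l ∈ A`, `0` otherwise,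
`(cls l T).ncard ≤ l ^ n (1 - (NN - tau') / l + n² / l²)`; sieve with the `l` with `NN l - tau' l > 0`
(`NN ≥ 2`, or `NN ≥ 1` and `l ∉ A`), where it is at least 1. -/
def S_CORE : Prop := ∀ (K : Type) [Fintype K] [Nonempty K] (L : K → Type) [∀ k, Field (L k)]
  [∀ k, NumberField (L k)], 5 ≤ dg L → ∀ B : ℕ, B ≠ 0 → ∀ A : Set ℕ,
  (∃ c C : ℝ, 0 < c ∧ ∀ Y : ℝ, 3 ≤ Y → c * Real.log (Real.log Y) - C ≤
    ∑ l ∈ (pr Y).filter (fun l => NN L l = dg L ∧ l ∈ A), (1 : ℝ) / l) →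
  ∃ c C : ℝ, 0 < c ∧ 0 < C ∧ ∀ T : Set (∀ k, 𝓞 (L k)),
    (∀ l : ℕ, l.Prime → ¬ l ∣ B → Ty1 l T ∧ Ty2 l T ∧
      (l ∉ A → ∀ β ∈ T, ∀ u : PL L l, ¬ In β u)) →
  ∀ (Z : ℝ) (Y : K → ℝ), 3 ≤ Z → (∀ k, Z ≤ Y k) → (box Y T).Finite ∧
    (((box Y T).ncard : ℕ) : ℝ) ≤ C * (∏ k, Y k ^ Module.finrank ℚ (L k)) *
      Real.exp (∑ q ∈ (pr Z).filter (fun q => q ∈ A), (1 : ℝ) / q) *
      Real.log Z ^ (-((Fintype.card K : ℝ) + c))

end Pool.Agent.H11.EC
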