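import Pool.Agent.H11.EC.DESC
import Pool.Agent.H11.EM.Fin

/-! Project EC: the data of the descent. -/

set_option autoImplicit false
set_option linter.unusedSectionVars false

namespace Pool.Agent.H11.EC

open Polynomial NumberField IsDedekindDomain Finset
open Pool.Agent.Q51.EL (Abv Par N1 pr Setup hom)
open Pool.Agent.H11.EM (PL In Ty1 Ty2 box cls dg NN tau Good Sys S_SIEVE S_CNT ty nrm)

variable {K I : Type} [Fintype K] [DecidableEq K] [Fintype I] {f : K → ℤ[X]} {h : I → ℤ[X]}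
  {L : K → Type} [∀ k, Field (L k)] [∀ k, NumberField (L k)] {θ : ∀ k, L k}

open Classical in
/-- the sum of `1 / q` over the primes `q ≤ Y` with `SR f h q ≠ ∅` -/
noncomputable def GS {K I : Type} [Fintype K] (f : K → ℤ[X]) (h : I → ℤ[X]) (Y : ℝ) : ℝ :=
  ∑ q ∈ (pr Y).filter (fun q => q ∈ {q : ℕ | (SR f h q).Nonempty}), (1 : ℝ) / q

open Classical in
/-- the data of the descent -/
theorem data [Nonempty K] (hSPLIT : S_SPLIT) (hCORE : S_CORE) (hs : Sys f L θ)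
    (hevh : ∀ i, Even (h i).natDegree) (hev : Even (∏ k, f k).natDegree)
    (h6 : 6 ≤ (∏ k, f k).natDegree) :
    ∃ (B : ℕ) (C1 C2 c : ℝ) (T : Set (∀ k, 𝓞 (L k))) (A : ℤ → ∀ k, 𝓞 (L k)) (P : ℤ → K → ℕ),
      B ≠ 0 ∧ 0 < C1 ∧ 0 < C2 ∧ 0 < c ∧
      Set.InjOn A {D : ℤ | Squarefree D ∧ Sel (∏ k, f k) h D} ∧
      (∀ D : ℤ, Squarefree D → Sel (∏ k, f k) h D →
        (∀ k, P D k ≠ 0) ∧ ∏ k, P D k ≤ D.natAbs ∧ A D ∈ T ∧
        (∀ k, ∀ σ : L k →+* ℂ, ‖σ (A D k : L k)‖ ≤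
          C1 * (P D k : ℝ) ^ ((1 : ℝ) / Module.finrank ℚ (L k))) ∧
        ∀ k, ∀ q : ℕ, q.Prime → q ∣ D.natAbs → ¬ q ∣ B →
          (SR f h q).Nonempty ∧ (SR f h q = {k} → q ∣ P D k)) ∧
      (∀ (Z : ℝ) (Y : K → ℝ), 3 ≤ Z → (∀ k, Z ≤ Y k) → (box Y T).Finite ∧
        (((box Y T).ncard : ℕ) : ℝ) ≤ C2 * (∏ k, Y k ^ Module.finrank ℚ (L k)) *
          Real.exp (GS f h Z) * Real.log Z ^ (-((Fintype.card K : ℝ) + c))) := by
  set g : ℤ[X] := ∏ k, f k with hg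
  have hint : ∀ k, IsIntegral ℤ ((g.leadingCoeff : L k) * θ k) := by
    intro k
    have h1 : IsIntegral ℤ (g.leadingCoeff • θ k) := isIntegral_leadingCoeff_smul g (θ k) (hs.root k)
    rwa [zsmul_eq_mul] at h1
  let t : ∀ k, 𝓞 (L k) := fun k => ⟨(g.leadingCoeff : L k) * θ k, hint k⟩
  obtain ⟨B, C1, hB, hC1, hD⟩ := desc' K I f h L θ hs hevh hev (by rw [← hg]; omega) t (fun k => rfl)
  set Sq : Set ℕ := {q : ℕ | (SR f h q).Nonempty} with hSq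
  obtain ⟨c, C2, hc, hC2, hcore⟩ := hCORE K L (by rw [hs.deg, ← hg]; omega) B hB Sq (by
    obtain ⟨c, C, hc, h1⟩ := hSPLIT K I f h L θ hs
    refine ⟨c, C, hc, fun Y hY => (h1 Y hY).trans (le_of_eq ?_)⟩
    congr!)
  have hα : ∀ D : ℤ, Squarefree D → Sel g h D → ∃ (α : ∀ k, 𝓞 (L k)) (S : K → Finset ℕ),
      (∀ k, α k ≠ 0) ∧ Good B t α ∧
      (∀ l : ℕ, l.Prime → ¬ l ∣ B → (∃ u : PL L l, In α u) → (SR f h l).Nonempty) ∧
      IsSquare (((D * g.leadingCoeff : ℤ) : ℚ) * ∏ k, Algebra.norm ℚ (α k : L k)) ∧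
      (∀ k, ∀ q ∈ S k, q.Prime ∧ k ∈ SR f h q) ∧ (∏ k, ∏ q ∈ S k, q) ∣ D.natAbs ∧
      (∀ q : ℕ, q.Prime → ¬ q ∣ B → q ∣ D.natAbs → ∃ k, q ∈ S k) ∧
      ∀ k, ∀ σ : L k →+* ℂ, ‖σ (α k : L k)‖ ≤
        C1 * ((∏ q ∈ S k, q : ℕ) : ℝ) ^ ((1 : ℝ) / Module.finrank ℚ (L k)) := by
    rintro D hDs ⟨d, hcop, hsq, -, hp⟩
    refine hD D hDs ⟨d, (hs.cop_iff).1 hcop, ?_, hp⟩
    rw [nrm K f L θ hs d] at hsq
    exact hsq
  choose! A S hA0 hAG hAR hAsq hS1 hS2 hS3 hAσ using hα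
  refine ⟨B, C1, C2, c, {α | Good B t α ∧ ∀ l : ℕ, l.Prime → ¬ l ∣ B → (∃ u : PL L l, In α u) →
    (SR f h l).Nonempty}, A, fun D k => ∏ q ∈ S D k, q, hB, hC1, hC2, hc, ?_, ?_, ?_⟩
  · rintro D ⟨hDs, hDS⟩ D' ⟨hDs', hDS'⟩ hAA
    have h1 := hAsq D hDs hDS
    have h2 := hAsq D' hDs' hDS'
    have hAA' : A D = A D' := hAA
    rw [← hAA'] at h2
    have hN0 : ∏ k, Algebra.norm ℚ (A D k : L k) ≠ 0 := by
      refine Finset.prod_ne_zero_iff.2 fun k _ => ?_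
      rw [Algebra.norm_ne_zero_iff]
      exact_mod_cast (hA0 D hDs hDS k)
    have hg0 : ((g.leadingCoeff : ℤ) : ℚ) ≠ 0 := by
      exact_mod_cast leadingCoeff_ne_zero.2 hs.prod_ne
    apply Pool.Agent.Q51.EL.sqf_eq hDs hDs'
    obtain ⟨u, hu⟩ := h1
    obtain ⟨w, hw⟩ := h2
    set N := ∏ k, Algebra.norm ℚ (A D k : L k) with hN
    refine ⟨u * w / ((g.leadingCoeff : ℤ) * N), ?_⟩
    field_simp
    have h3 : ((D * D' : ℤ) : ℚ) * (((g.leadingCoeff : ℤ) : ℚ) ^ 2 * N ^ 2) =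
        (u * u) * (w * w) := by
      rw [← hu, ← hw]; push_cast; ring
    linear_combination h3
  · intro D hDs hDS
    have hD0 : D.natAbs ≠ 0 := Int.natAbs_ne_zero.2 hDs.ne_zero
    refine ⟨fun k => ?_, ?_, ⟨hAG D hDs hDS, hAR D hDs hDS⟩, hAσ D hDs hDS, ?_⟩
    · exact Finset.prod_ne_zero_iff.2 fun q hq => (hS1 D hDs hDS k q hq).1.ne_zero
    · exact Nat.le_of_dvd (Nat.pos_of_ne_zero hD0) (hS2 D hDs hDS)
    · intro k q hq hqD hqB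
      obtain ⟨k', hk'⟩ := hS3 D hDs hDS q hq hqB hqD
      have h4 : k' ∈ SR f h q := (hS1 D hDs hDS k' q hk').2
      refine ⟨⟨k', h4⟩, fun h5 => ?_⟩
      rw [h5, mem_singleton] at h4
      subst h4
      exact Finset.dvd_prod_of_mem _ hk'
  · intro Z Y hZ hY
    obtain ⟨h1, h2⟩ := hcore {α | Good B t α ∧ ∀ l : ℕ, l.Prime → ¬ l ∣ B →
      (∃ u : PL L l, In α u) → (SR f h l).Nonempty} (fun l hl hlB => by
        obtain ⟨h3, h4⟩ := ty K L B t l hl hlB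
        refine ⟨fun β hβ => h3 β hβ.1, fun β hβ β' hβ' => h4 β hβ.1 β' hβ'.1, ?_⟩
        intro hA β hβ u hu
        exact hA (hβ.2 l hl hlB ⟨u, hu⟩)) Z Y hZ hY
    refine ⟨h1, h2.trans (le_of_eq ?_)⟩
    unfold GS
    congr!

end Pool.Agent.H11.EC
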