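import Pool.Agent.H11.EC.Data

/-! Project EC: the upper bound. -/

set_option autoImplicit false
set_option linter.unusedSectionVars false

namespace Pool.Agent.H11.EC

open Polynomial NumberField IsDedekindDomain Finset Filter Topology
open Pool.Agent.Q51.EL (Abv Par N1 pr Setup hom)
open Pool.Agent.H11.EM (PL In Ty1 Ty2 box cls dg NN tau Good Sys S_SIEVE S_CNT fin_nat cover ncard_cover
  good_exp bad_exp pr_eq)
open Pool.Agent.W401.Cheb (M)
open Pool.Agent.W262.RK (PS)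

variable {K I : Type} [Fintype K] [DecidableEq K] [Fintype I] {f : K → ℤ[X]} {h : I → ℤ[X]}
  {L : K → Type} [∀ k, Field (L k)] [∀ k, NumberField (L k)] {θ : ∀ k, L k}

theorem good_count [Nonempty K] (T : Set (∀ k, 𝓞 (L k))) (A : ℤ → ∀ k, 𝓞 (L k)) (P : ℤ → K → ℕ)
    (E : Set ℤ) (GG : ℝ → ℝ) (C1 C2 c : ℝ) (hC2 : 0 < C2) (hA : Set.InjOn A E)
    (hE : ∀ D ∈ E, (∀ k, P D k ≠ 0) ∧ ∏ k, P D k ≤ D.natAbs ∧ A D ∈ T ∧
        ∀ k, ∀ σ : L k →+* ℂ, ‖σ (A D k : L k)‖ ≤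
          C1 * (P D k : ℝ) ^ ((1 : ℝ) / Module.finrank ℚ (L k)))
    (hbox : ∀ (Z : ℝ) (Y : K → ℝ), 3 ≤ Z → (∀ k, Z ≤ Y k) → (box Y T).Finite ∧
        (((box Y T).ncard : ℕ) : ℝ) ≤ C2 * (∏ k, Y k ^ Module.finrank ℚ (L k)) *
          Real.exp (GG Z) * Real.log Z ^ (-((Fintype.card K : ℝ) + c))) :
    ∃ C : ℝ, 0 < C ∧ ∀ (Z : ℝ) (X : ℕ), 3 ≤ Z → 1 ≤ X →
      ({D : ℤ | D.natAbs ≤ X ∧ D ∈ E ∧ ∀ k, Z ^ dg L ≤ P D k}.ncard : ℝ) ≤
        C * X * ((Nat.log 2 X : ℝ) + 1) ^ (Fintype.card K - 1) *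
          (Real.exp (GG Z) * Real.log Z ^ (-((Fintype.card K : ℝ) + c))) := by
  set C1' : ℝ := max C1 1 with hC1'
  have hC1'1 : 1 ≤ C1' := le_max_right _ _
  refine ⟨C2 * C1' ^ dg L * 2 ^ Fintype.card K * 2, by positivity, fun Z X hZ hX => ?_⟩
  set G : ℝ := Real.exp (GG Z) * Real.log Z ^ (-((Fintype.card K : ℝ) + c)) with hG
  have hlZ : 0 < Real.log Z := Real.log_pos (by linarith)
  have hG0 : 0 ≤ G := mul_nonneg (Real.exp_pos _).le (Real.rpow_nonneg hlZ.le _)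
  have hn0 : ∀ k, 0 < Module.finrank ℚ (L k) := fun k => Module.finrank_pos
  let Y : (K → ℕ) → K → ℝ := fun j k => C1' * ((2 : ℝ) ^ (j k + 1)) ^
    ((1 : ℝ) / Module.finrank ℚ (L k))
  have hYprod : ∀ j : K → ℕ, ∏ k, Y j k ^ Module.finrank ℚ (L k) =
      C1' ^ dg L * 2 ^ Fintype.card K * 2 ^ (∑ k, j k) := by
    intro j
    have h1 : ∀ k, Y j k ^ Module.finrank ℚ (L k) = C1' ^ Module.finrank ℚ (L k) * (2 * 2 ^ j k) := by
      intro k
      simp only [Y]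
      rw [mul_pow, ← Real.rpow_natCast (((2 : ℝ) ^ (j k + 1)) ^ ((1 : ℝ) / Module.finrank ℚ (L k))),
        ← Real.rpow_mul (by positivity), one_div, inv_mul_cancel₀ (by exact_mod_cast (hn0 k).ne'),
        Real.rpow_one, pow_succ, mul_comm ((2 : ℝ) ^ j k)]
    rw [Finset.prod_congr rfl fun k _ => h1 k, Finset.prod_mul_distrib, Finset.prod_mul_distrib,
      Finset.prod_pow_eq_pow_sum, Finset.prod_pow_eq_pow_sum, Finset.prod_const, card_univ]
    unfold dg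
    ring
  have key := cover {D : ℤ | D.natAbs ≤ X ∧ D ∈ E ∧ ∀ k, Z ^ dg L ≤ P D k} (fin_nat X _) A
    (hA.mono fun D hD => hD.2.1) P X (fun D hD => ⟨(hE D hD.2.1).1, (hE D hD.2.1).2.1.trans hD.1⟩)
    (fun j => box (Y j) T) (C2 * (C1' ^ dg L * 2 ^ Fintype.card K) * G) (by positivity) ?_ ?_
  · refine key.trans ?_
    have h1 : (2 : ℝ) ^ (Nat.log 2 X + 1) ≤ 2 * X := by
      rw [pow_succ, mul_comm]
      have : (2 : ℝ) ^ Nat.log 2 X ≤ X := by exact_mod_cast Nat.pow_log_le_self 2 (by omega)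
      linarith
    calc C2 * (C1' ^ dg L * 2 ^ Fintype.card K) * G * (2 ^ (Nat.log 2 X + 1) *
          ((Nat.log 2 X : ℝ) + 1) ^ (Fintype.card K - 1))
        ≤ C2 * (C1' ^ dg L * 2 ^ Fintype.card K) * G * ((2 * X) *
          ((Nat.log 2 X : ℝ) + 1) ^ (Fintype.card K - 1)) := by
          refine mul_le_mul_of_nonneg_left (mul_le_mul_of_nonneg_right h1 (by positivity))
            (by positivity)
      _ = _ := by ring
  · rintro D ⟨hDX, hDE, hDZ⟩
    obtain ⟨h1, h2, h3, h4⟩ := hE D hDE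
    refine ⟨h3, fun k σ => (h4 k σ).trans ?_⟩
    simp only [Y]
    refine mul_le_mul (le_max_left _ _) ?_ (by positivity) (by positivity)
    refine Real.rpow_le_rpow (by positivity) ?_ (by positivity)
    have h5 : P D k < 2 ^ (Nat.log 2 (P D k) + 1) := Nat.lt_pow_succ_log_self (by norm_num) _
    exact_mod_cast h5.le
  · rintro D ⟨hDX, hDE, hDZ⟩
    obtain ⟨h1, h2, h3, h4⟩ := hE D hDE
    have h5 := hbox Z (Y fun k => Nat.log 2 (P D k)) hZ ?_
    · refine ⟨h5.1, h5.2.trans (le_of_eq ?_)⟩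
      rw [hYprod, hG]
      ring
    · intro k
      simp only [Y]
      have h6 : P D k < 2 ^ (Nat.log 2 (P D k) + 1) := Nat.lt_pow_succ_log_self (by norm_num) _
      have h7 : (P D k : ℝ) ≤ 2 ^ (Nat.log 2 (P D k) + 1) := by exact_mod_cast h6.le
      have h8 : Z ^ Module.finrank ℚ (L k) ≤ 2 ^ (Nat.log 2 (P D k) + 1) := by
        refine le_trans ?_ ((hDZ k).trans h7)
        refine pow_le_pow_right₀ (by linarith) ?_
        unfold dg
        exact Finset.single_le_sum (f := fun k => Module.finrank ℚ (L k)) (fun _ _ => Nat.zero_le _)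
          (mem_univ k)
      have h9 := Real.rpow_le_rpow (by positivity) h8
        (by positivity : (0 : ℝ) ≤ (1 : ℝ) / Module.finrank ℚ (L k))
      rw [← Real.rpow_natCast, ← Real.rpow_mul (by linarith), one_div,
        mul_inv_cancel₀ (by exact_mod_cast (hn0 k).ne'), Real.rpow_one, ← one_div] at h9
      calc Z = 1 * Z := (one_mul Z).symm
        _ ≤ C1' * ((2 : ℝ) ^ (Nat.log 2 (P D k) + 1)) ^ ((1 : ℝ) / Module.finrank ℚ (L k)) :=
          mul_le_mul hC1'1 h9 (by linarith) (by linarith)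

open Classical in
theorem bad_count (R : ℕ → Finset K) (P : ℤ → K → ℕ) (E : Set ℤ) (B : ℕ) (hB : B ≠ 0)
    (hE : ∀ D ∈ E, D ≠ 0 ∧ (∀ k, P D k ≠ 0) ∧ ∀ k, ∀ q : ℕ, q.Prime → q ∣ D.natAbs → ¬ q ∣ B →
          (R q).Nonempty ∧ (R q = {k} → q ∣ P D k)) :
    ∃ C : ℝ, 0 < C ∧ ∀ (k : K) (X : ℕ) (W : ℝ), 3 ≤ X →
      ({D : ℤ | D.natAbs ≤ X ∧ D ∈ E ∧ (P D k : ℝ) < W}.ncard : ℝ) ≤
        C * X / Real.log X * Real.exp (∑ q ∈ (pr X).filter
          (fun q => (R q).Nonempty ∧ (R q = {k} → (q : ℝ) < W)), (1 : ℝ) / q) := by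
  obtain ⟨C, hC, hub⟩ := Pool.Agent.H29.EM.ub B hB
  refine ⟨2 * C, by positivity, fun k X W hX => ?_⟩
  have h1 := hub {q | (R q).Nonempty ∧ (R q = {k} → (q : ℝ) < W)} X (by exact_mod_cast hX)
  set F : Set ℕ := {m : ℕ | 1 ≤ m ∧ (m : ℝ) ≤ X ∧ ∀ q : ℕ, q.Prime → q ∣ m → q ∣ B ∨
    q ∈ {q | (R q).Nonempty ∧ (R q = {k} → (q : ℝ) < W)}} with hF
  have hFfin : F.Finite := by
    refine (Set.finite_Iic X).subset ?_
    rintro m ⟨-, hm, -⟩
    exact_mod_cast hm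
  have h2 : {D : ℤ | D.natAbs ≤ X ∧ D ∈ E ∧ (P D k : ℝ) < W} ⊆
      (fun m : ℕ => (m : ℤ)) '' F ∪ (fun m : ℕ => -(m : ℤ)) '' F := by
    rintro D ⟨hDX, hDE, hDW⟩
    obtain ⟨hD0, hP0, h3⟩ := hE D hDE
    have h4 : D.natAbs ∈ F := by
      refine ⟨Nat.one_le_iff_ne_zero.2 (Int.natAbs_ne_zero.2 hD0), by exact_mod_cast hDX,
        fun q hq hqD => ?_⟩
      by_cases hqB : q ∣ B
      · exact Or.inl hqB
      · obtain ⟨h5, h6⟩ := h3 k q hq hqD hqB
        refine Or.inr ⟨h5, fun h => ?_⟩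
        have h7 := Nat.le_of_dvd (Nat.pos_of_ne_zero (hP0 k)) (h6 h)
        have h8 : (q : ℝ) ≤ P D k := by exact_mod_cast h7
        linarith
    rcases Int.natAbs_eq D with h | h
    · exact Or.inl ⟨D.natAbs, h4, h.symm⟩
    · exact Or.inr ⟨D.natAbs, h4, h.symm⟩
  have h3 : {D : ℤ | D.natAbs ≤ X ∧ D ∈ E ∧ (P D k : ℝ) < W}.ncard ≤ F.ncard + F.ncard := by
    refine (Set.ncard_le_ncard h2 ((hFfin.image _).union (hFfin.image _))).trans ?_
    refine (Set.ncard_union_le _ _).trans ?_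
    exact Nat.add_le_add (Set.ncard_image_le hFfin) (Set.ncard_image_le hFfin)
  have h4 : ({D : ℤ | D.natAbs ≤ X ∧ D ∈ E ∧ (P D k : ℝ) < W}.ncard : ℝ) ≤ F.ncard + F.ncard := by
    exact_mod_cast h3
  have h5 : (F.ncard : ℝ) ≤ C * X / Real.log X * Real.exp (∑ q ∈ (pr X).filter
          (fun q => (R q).Nonempty ∧ (R q = {k} → (q : ℝ) < W)), (1 : ℝ) / q) := by
    refine h1.trans (le_of_eq ?_)
    congr!
  calc _ ≤ (F.ncard : ℝ) + F.ncard := h4
    _ ≤ _ := by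
      rw [mul_assoc 2 C, mul_div_assoc, mul_assoc 2]
      linarith

theorem upper [Nonempty K] (hSPLIT : S_SPLIT) (hCORE : S_CORE) (hevh : ∀ i, Even (h i).natDegree)
    (hs : Sys f L θ) (hev : Even (∏ k, f k).natDegree)
    (h6 : 6 ≤ (∏ k, f k).natDegree) (ν : Finset K → ℝ) (h0 : ∀ T, 0 ≤ ν T)
    (hk : ∀ k, 0 < ν {k})
    (hsum : ∀ (T : Finset (Finset K)) (η : ℝ), 0 < η → ∃ C : ℝ, ∀ Y : ℝ, 3 ≤ Y →
        ∑ q ∈ (pr Y).filter (fun q => SR f h q ∈ T), (1 : ℝ) / q ≤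
          (∑ t ∈ T, ν t + η) * Real.log (Real.log Y) + C) :
    ∃ δ C : ℝ, 0 < δ ∧ ∀ᶠ X : ℕ in atTop,
      ({D : ℤ | D.natAbs ≤ X ∧ Squarefree D ∧ Sel (∏ k, f k) h D}.ncard : ℝ) ≤
        C * X * Real.log X ^ (∑ T ∈ univ.filter (fun T : Finset K => T.Nonempty), ν T - 1 - δ) := by
  classical
  obtain ⟨B, C1, C2, c, T, A, P, hB, hC1, hC2, hc, hA, hE, hbox⟩ := data hSPLIT hCORE hs hevh hev h6
  set g : ℤ[X] := ∏ k, f k with hg
  set n : ℕ := dg L with hn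
  have hn1 : (1 : ℝ) ≤ n := by
    have : 1 ≤ n := by rw [hn, hs.deg, ← hg]; omega
    exact_mod_cast this
  set E : Set ℤ := {D : ℤ | Squarefree D ∧ Sel g h D} with hEdef
  obtain ⟨C4, hC4, hgood⟩ := good_count T A P E (GS f h) C1 C2 c hC2 hA
    (fun D hD => ⟨(hE D hD.1 hD.2).1, (hE D hD.1 hD.2).2.1, (hE D hD.1 hD.2).2.2.1,
      (hE D hD.1 hD.2).2.2.2.1⟩) hbox
  obtain ⟨C5, hC5, hbad⟩ := bad_count (SR f h) P E B hB
    (fun D hD => ⟨hD.1.ne_zero, (hE D hD.1 hD.2).1, (hE D hD.1 hD.2).2.2.2.2⟩)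
  set ρ : ℝ := ∑ T ∈ univ.filter (fun T : Finset K => T.Nonempty), ν T with hρ
  have hρ0 : 0 ≤ ρ := sum_nonneg fun T _ => h0 T
  -- parameters
  obtain ⟨κ, hκ0, hκ⟩ : ∃ κ : ℝ, 0 < κ ∧ ∀ k, κ ≤ ν {k} := by
    obtain ⟨k0, -, hk0⟩ := Finset.exists_min_image univ (fun k => ν {k}) univ_nonempty
    exact ⟨ν {k0}, hk k0, fun k => hk0 k (mem_univ k)⟩
  set r : ℝ := (Fintype.card K : ℝ) with hr
  have hr1 : 1 ≤ r := by
    have h1 : 1 ≤ Fintype.card K := Fintype.card_pos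
    rw [hr]
    exact_mod_cast h1
  set ε : ℝ := min (1 / 2) (c / (2 * (r + c))) with hε
  have hε0 : 0 < ε := lt_min (by norm_num) (by positivity)
  have hε1 : ε ≤ 1 / 2 := min_le_left _ _
  have hε2 : ε * (r + c) ≤ c / 2 := by
    have h1 : ε ≤ c / (2 * (r + c)) := min_le_right _ _
    rw [le_div_iff₀ (by positivity)] at h1
    linarith
  set η : ℝ := min (c / 8) (ε * κ / 8) with hη
  have hη0 : 0 < η := lt_min (by positivity) (by positivity)
  have hη1 : η ≤ c / 8 := min_le_left _ _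
  have hη2 : η ≤ ε * κ / 8 := min_le_right _ _
  -- the sums over primes
  obtain ⟨C6, hC6⟩ := hsum (univ.filter (fun T : Finset K => T.Nonempty)) η hη0
  have h1 := fun k : K => hsum (univ.filter (fun T : Finset K => T.Nonempty ∧ T ≠ {k})) η hη0
  choose C7 hC7 using h1
  have h2 := fun k : K => hsum {{k}} η hη0
  choose C8 hC8 using h2
  have hT1 : ∀ k : K, ∑ T ∈ univ.filter (fun T : Finset K => T.Nonempty ∧ T ≠ {k}), ν T =
      ρ - ν {k} := by
    intro k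
    have e1 : univ.filter (fun T : Finset K => T.Nonempty ∧ T ≠ {k}) =
        (univ.filter (fun T : Finset K => T.Nonempty)).erase {k} := by
      ext T
      simp only [mem_filter, mem_univ, true_and, mem_erase]
      tauto
    rw [e1, Finset.sum_erase_eq_sub (mem_filter.2 ⟨mem_univ _, singleton_nonempty k⟩)]
  have hr' : ((Fintype.card K - 1 : ℕ) : ℝ) = r - 1 := by
    rw [Nat.cast_sub Fintype.card_pos, Nat.cast_one]
  set δ : ℝ := min (3 * c / 8) (3 * ε * κ / 4) with hδ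
  have hδ0 : 0 < δ := lt_min (by positivity) (by positivity)
  refine ⟨δ, C4 * 3 ^ (Fintype.card K - 1) * Real.exp C6 +
    ∑ k, C5 * Real.exp ((ν {k} + η) * Real.log n + (C7 k + C8 k)), hδ0, ?_⟩
  have hlim : ∀ᶠ X : ℕ in atTop, (2 : ℝ) ≤ Real.log X ^ (1 - ε) :=
    ((tendsto_rpow_atTop (by linarith : (0 : ℝ) < 1 - ε)).comp (Real.tendsto_log_atTop.comp
      tendsto_natCast_atTop_atTop)).eventually_ge_atTop 2
  filter_upwards [hlim, eventually_ge_atTop 3] with X hX2 hX3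
  have hX3' : (3 : ℝ) ≤ X := by exact_mod_cast hX3
  have hl1 : (1 : ℝ) < Real.log X := Pool.Agent.W262.TW.one_lt_log hX3
  have hl0 : (0 : ℝ) < Real.log X := by linarith
  have hX0 : (0 : ℝ) < X := by linarith
  set Z : ℝ := Real.exp (Real.log X ^ (1 - ε)) with hZ
  have hlZ : Real.log Z = Real.log X ^ (1 - ε) := Real.log_exp _
  have hZ3 : 3 ≤ Z := by
    have h3 : Real.exp 2 ≤ Z := Real.exp_le_exp.2 hX2
    have h4 : (2.7182818283 : ℝ) < Real.exp 1 := Real.exp_one_gt_d9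
    have h5 : Real.exp 2 = Real.exp 1 * Real.exp 1 := by rw [← Real.exp_add]; norm_num
    nlinarith
  set W : ℝ := Z ^ n with hW
  have hW3 : 3 ≤ W := by
    have h3 : 1 ≤ n := by exact_mod_cast hn1
    calc (3 : ℝ) ≤ Z := hZ3
      _ = Z ^ 1 := (pow_one Z).symm
      _ ≤ Z ^ n := pow_le_pow_right₀ (by linarith) h3
  have hlW : Real.log W = n * Real.log X ^ (1 - ε) := by
    rw [hW, Real.log_pow, hlZ]
  -- the decomposition
  have hcov := ncard_cover {D : ℤ | D.natAbs ≤ X ∧ Squarefree D ∧ Sel g h D}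
    {D : ℤ | D.natAbs ≤ X ∧ D ∈ E ∧ ∀ k, Z ^ n ≤ P D k}
    (fun k => {D : ℤ | D.natAbs ≤ X ∧ D ∈ E ∧ (P D k : ℝ) < W}) (fin_nat X _)
    (fun k => fin_nat X _) (by
      rintro D ⟨hDX, hDE⟩
      by_cases h : ∀ k, Z ^ n ≤ P D k
      · exact Or.inl ⟨hDX, hDE, h⟩
      · right
        push Not at h
        obtain ⟨k, hk⟩ := h
        exact Set.mem_iUnion.2 ⟨k, hDX, hDE, hk⟩)
  refine hcov.trans ?_
  have hg1 : ({D : ℤ | D.natAbs ≤ X ∧ D ∈ E ∧ ∀ k, Z ^ n ≤ P D k}.ncard : ℝ) ≤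
      C4 * 3 ^ (Fintype.card K - 1) * Real.exp C6 * X *
        Real.log X ^ (ρ - 1 - 3 * c / 8) := by
    refine (hgood Z X hZ3 (by omega)).trans ?_
    refine good_exp C4 C6 ρ η r c ε _ hr' hC4 (by linarith) hη1 hε0 hε1 hε2 X hX3 _ Z hlZ ?_
    have h4 := hC6 Z hZ3
    have h5 : GS f h Z =
        ∑ q ∈ (pr Z).filter (fun q => SR f h q ∈ univ.filter (fun T : Finset K => T.Nonempty)),
          (1 : ℝ) / q := by
      unfold GS
      refine sum_congr (filter_congr fun q _ => ?_) fun _ _ => rfl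
      simp
    rw [h5]
    exact h4
  have hb1 : ∀ k, ({D : ℤ | D.natAbs ≤ X ∧ D ∈ E ∧ (P D k : ℝ) < W}.ncard : ℝ) ≤
      C5 * Real.exp ((ν {k} + η) * Real.log n + (C7 k + C8 k)) * X *
        Real.log X ^ (ρ - 1 - 3 * ε * κ / 4) := by
    intro k
    refine (hbad k X W hX3).trans ?_
    refine bad_exp C5 (C7 k + C8 k) ρ (ν {k}) η κ ε n hn1 hC5 (hκ k) hη0 hη2 hε0 X hX3 _ W hlW ?_
    have h3 := hC7 k X hX3'
    have h4 := hC8 k W hW3
    rw [hT1] at h3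
    rw [sum_singleton] at h4
    have h5 : (pr X).filter (fun q => (SR f h q).Nonempty ∧ (SR f h q = {k} → (q : ℝ) < W)) ⊆
        (pr X).filter (fun q => SR f h q ∈
          univ.filter (fun T : Finset K => T.Nonempty ∧ T ≠ {k})) ∪
        (pr W).filter (fun q => SR f h q ∈ ({{k}} : Finset (Finset K))) := by
      intro q hq
      obtain ⟨hq1, hq2, hq3⟩ := mem_filter.1 hq
      by_cases h : SR f h q = {k}
      · refine mem_union_right _ (mem_filter.2 ⟨?_, mem_singleton.2 h⟩)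
        have h6 := hq3 h
        obtain ⟨h7, h8⟩ := mem_filter.1 hq1
        exact mem_filter.2 ⟨mem_Icc.2 ⟨(mem_Icc.1 h7).1, Nat.le_floor h6.le⟩, h8⟩
      · exact mem_union_left _ (mem_filter.2 ⟨hq1, mem_filter.2 ⟨mem_univ _, hq2, h⟩⟩)
    have h6 := Finset.sum_le_sum_of_subset_of_nonneg (f := fun q : ℕ => (1 : ℝ) / q) h5
      (fun _ _ _ => by positivity)
    have h7 := Finset.sum_union_inter (s₁ := (pr X).filter (fun q => SR f h q ∈
          univ.filter (fun T : Finset K => T.Nonempty ∧ T ≠ {k})))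
      (s₂ := (pr W).filter (fun q => SR f h q ∈ ({{k}} : Finset (Finset K))))
      (f := fun q : ℕ => (1 : ℝ) / q)
    have h8 : 0 ≤ ∑ q ∈ (pr X).filter (fun q => SR f h q ∈
          univ.filter (fun T : Finset K => T.Nonempty ∧ T ≠ {k})) ∩
        (pr W).filter (fun q => SR f h q ∈ ({{k}} : Finset (Finset K))), (1 : ℝ) / q :=
      Finset.sum_nonneg fun _ _ => by positivity
    linarith
  have hexp1 : Real.log X ^ (ρ - 1 - 3 * c / 8) ≤ Real.log X ^ (ρ - 1 - δ) :=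
    Real.rpow_le_rpow_of_exponent_le hl1.le (by linarith [min_le_left (3 * c / 8) (3 * ε * κ / 4)])
  have hexp2 : Real.log X ^ (ρ - 1 - 3 * ε * κ / 4) ≤ Real.log X ^ (ρ - 1 - δ) :=
    Real.rpow_le_rpow_of_exponent_le hl1.le (by linarith [min_le_right (3 * c / 8) (3 * ε * κ / 4)])
  rw [add_mul, add_mul, sum_mul, sum_mul]
  refine add_le_add (hg1.trans ?_) (sum_le_sum fun k _ => (hb1 k).trans ?_)
  · exact mul_le_mul_of_nonneg_left hexp1 (by positivity)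
  · exact mul_le_mul_of_nonneg_left hexp2 (by positivity)

/-- the densities and upper bounds for the sums over primes -/
theorem sums [Nonempty K] (hMEAN : S_MEAN) (hLOW : S_LOW) (f : K → ℤ[X]) (h : I → ℤ[X])
    (hyp : Hyp f h) :
    ∃ ν : Finset K → ℝ, (∀ T, 0 ≤ ν T) ∧ (∑ T, ν T = 1) ∧ (∀ σ, 0 < ν (SQ f h σ)) ∧
      (∀ D0 : ℤ, Squarefree D0 → ELS (∏ k, f k) h D0 → ∀ β : ℝ, 0 < β → β < 1 - ν ∅ →
        ∃ c : ℝ, 0 < c ∧ ∀ᶠ X : ℕ in atTop, c * X * (Real.log X) ^ (β - 1) ≤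
          ({d : ℤ | d.natAbs ≤ X ∧ Squarefree d ∧ ELS (∏ k, f k) h d}.ncard : ℝ)) ∧
      ∀ (T : Finset (Finset K)) (η : ℝ), 0 < η → ∃ C : ℝ, ∀ Y : ℝ, 3 ≤ Y →
        ∑ q ∈ (Pool.Agent.Q51.EL.pr Y).filter (fun q => SR f h q ∈ T), (1 : ℝ) / q ≤
          (∑ t ∈ T, ν t + η) * Real.log (Real.log Y) + C := by
  classical
  have hf : ∀ k, f k ≠ 0 := by
    intro k h
    exact (hyp.irr k).ne_zero (by rw [h, Polynomial.map_zero])
  obtain ⟨ν, h0, h1, h2, h3⟩ := hMEAN K I f h hf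
  refine ⟨ν, h0, h1, h3, fun D0 hD0 hels β hβ hβ' => ?_, fun T η hη => ?_⟩
  · have h4 : Tendsto (M fun p => if p ∈ {p : ℕ | p.Prime ∧ (SR f h p).Nonempty} then (1 : ℝ) else 0)
        atTop (𝓝 (1 - ν ∅)) := by
      have h3 := h2 (fun T => if T.Nonempty then 1 else 0)
      have e1 : ∑ T, (if T.Nonempty then (1 : ℝ) else 0) * ν T = 1 - ν ∅ := by
        have e2 := Finset.sum_erase_eq_sub (f := ν) (mem_univ (∅ : Finset K))
        rw [h1] at e2
        rw [← e2, ← Finset.add_sum_erase univ _ (mem_univ (∅ : Finset K))]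
        rw [if_neg (by simp), zero_mul, zero_add]
        refine sum_congr rfl fun T hT => ?_
        rw [if_pos (nonempty_iff_ne_empty.2 (ne_of_mem_erase hT)), one_mul]
      rw [e1] at h3
      refine Pool.Agent.W401.Cheb.M_congr (D := 1) one_pos (fun p hp _ => ?_) h3
      by_cases h5 : (SR f h p).Nonempty
      · have h6 : p ∈ {p : ℕ | p.Prime ∧ (SR f h p).Nonempty} := ⟨hp, h5⟩
        rw [if_pos h6, if_pos h5]
      · have h6 : p ∉ {p : ℕ | p.Prime ∧ (SR f h p).Nonempty} := fun h6 => h5 h6.2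
        rw [if_neg h6, if_neg h5]
    obtain ⟨C, hC⟩ := Pool.Agent.W5h36.EL.dens_low {p : ℕ | p.Prime ∧ (SR f h p).Nonempty}
      (fun p hp => hp.1) β hβ.le ((h4.eventually (lt_mem_nhds hβ')).mono fun N hN =>
        hN.le.trans (le_of_eq (by congr!)))
    refine hLOW K I f h hyp D0 hD0 hels β C hβ (by linarith [h0 ∅]) fun N => (hC N).trans
      (le_of_eq ?_)
    congr!
  · have h4 := h2 (fun t => if t ∈ T then 1 else 0)
    have e1 : ∑ t, (if t ∈ T then (1 : ℝ) else 0) * ν t = ∑ t ∈ T, ν t := by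
      simp only [ite_mul, one_mul, zero_mul]
      rw [← Finset.sum_filter]
      congr 1
      ext t
      simp
    rw [e1] at h4
    have hα : 0 ≤ ∑ t ∈ T, ν t + η := add_nonneg (sum_nonneg fun t _ => h0 t) hη.le
    obtain ⟨C, hC⟩ := Pool.Agent.W5h36.EL.dens_up (fun p => if SR f h p ∈ T then (1 : ℝ) else 0) 1
      (∑ t ∈ T, ν t + η) (fun p => by split_ifs <;> norm_num) (fun p => by split_ifs <;> norm_num)
      ((h4.eventually (gt_mem_nhds (by linarith : ∑ t ∈ T, ν t < ∑ t ∈ T, ν t + η))).mono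
        fun N hN => hN.le)
    refine ⟨C, fun Y hY => ?_⟩
    have hN : 3 ≤ ⌊Y⌋₊ := Nat.le_floor (by exact_mod_cast hY)
    have h5 := hC ⌊Y⌋₊ hN
    have h6 : ∑ q ∈ (Pool.Agent.Q51.EL.pr Y).filter (fun q => SR f h q ∈ T), (1 : ℝ) / q =
        ∑ p ∈ PS 0 ⌊Y⌋₊, (if SR f h p ∈ T then (1 : ℝ) else 0) / p := by
      rw [Finset.sum_filter, pr_eq]
      refine Finset.sum_congr rfl fun p _ => ?_
      split_ifs <;> simp
    rw [h6]
    refine h5.trans ?_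
    have h7 : (1 : ℝ) < Real.log ⌊Y⌋₊ := Pool.Agent.W262.TW.one_lt_log hN
    have h8 : Real.log (Real.log ⌊Y⌋₊) ≤ Real.log (Real.log Y) := by
      apply Real.log_le_log (by linarith)
      apply Real.log_le_log (by positivity)
      exact Nat.floor_le (by linarith)
    have := mul_le_mul_of_nonneg_left h8 hα
    linarith

end Pool.Agent.H11.EC
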