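import Pool.Agent.H11.EC.MeanFrob
import Pool.Agent.H11.EC.Stm

/-! The distribution of the sets `SR f h p` (project EC, job MEAN). -/

set_option autoImplicit false

namespace Pool.Agent.H11.EC.Mean

open Polynomial NumberField Filter Topology Finset
open Pool.Agent.W401.Cheb Pool.Agent.W262.TW Pool.Agent.W262.RK
open Pool.Agent.W5h36.EL (exL2 cheb_mean)

open scoped Classical in
theorem main : S_MEAN := by
  intro K I _ _ _ f h hf
  have hZQ : algebraMap ℤ (AlgebraicClosure ℚ) = Int.castRingHom (AlgebraicClosure ℚ) :=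
    RingHom.ext_int _ _
  -- zeros and square roots
  have hroots : ∀ q : ℤ[X], q ≠ 0 → {θ : AlgebraicClosure ℚ | aeval θ q = 0}.Finite := by
    intro q hq
    have h1 : (q.map (Int.castRingHom (AlgebraicClosure ℚ))) ≠ 0 :=
      (Polynomial.map_ne_zero_iff (Int.castRingHom (AlgebraicClosure ℚ)).injective_int).2 hq
    refine (Polynomial.finite_setOfPred_isRoot h1).subset ?_
    intro β hβ
    have h2 : aeval β q = 0 := hβ
    change (q.map (Int.castRingHom (AlgebraicClosure ℚ))).IsRoot β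
    rw [IsRoot.def, eval_map]
    rw [aeval_def, hZQ] at h2
    exact h2
  have hsqf : ∀ a : AlgebraicClosure ℚ, {s : AlgebraicClosure ℚ | s ^ 2 = a}.Finite := by
    intro a
    have h1 : (X ^ 2 - C a : (AlgebraicClosure ℚ)[X]) ≠ 0 := X_pow_sub_C_ne_zero (by norm_num) a
    refine (Polynomial.finite_setOfPred_isRoot h1).subset ?_
    intro β hβ
    have h2 : β ^ 2 = a := hβ
    change (X ^ 2 - C a : (AlgebraicClosure ℚ)[X]).IsRoot β
    rw [IsRoot.def, eval_sub, eval_pow, eval_X, eval_C, h2, sub_self]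
  set s0 : Set (AlgebraicClosure ℚ) := (⋃ k, {θ | aeval θ (f k) = 0}) ∪
    ⋃ k, ⋃ θ ∈ {θ : AlgebraicClosure ℚ | aeval θ (f k) = 0}, ⋃ i, {s | s ^ 2 = aeval θ (h i)} with hs0
  have hs0f : s0.Finite := by
    refine (Set.finite_iUnion fun k => hroots _ (hf k)).union ?_
    refine Set.finite_iUnion fun k => ?_
    refine Set.Finite.biUnion (hroots _ (hf k)) fun θ _ => ?_
    exact Set.finite_iUnion fun i => hsqf _
  obtain ⟨L, iF, iN, iG, j, hj, hτ⟩ := exL2 s0 hs0f
  have hjs : ∀ k, ∀ θ : AlgebraicClosure ℚ, aeval θ (f k) = 0 → ∃ y, j y = θ := fun k θ hθ =>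
    hj θ (Or.inl (Set.mem_iUnion.2 ⟨k, hθ⟩))
  have hjs2 : ∀ k, ∀ θ : AlgebraicClosure ℚ, aeval θ (f k) = 0 → ∀ i, ∀ s : AlgebraicClosure ℚ,
      s ^ 2 = aeval θ (h i) → ∃ y, j y = s := fun k θ hθ i s hs =>
    hj s (Or.inr (Set.mem_iUnion.2 ⟨k, Set.mem_iUnion₂.2 ⟨θ, hθ, Set.mem_iUnion.2 ⟨i, hs⟩⟩⟩))
  choose D hD hDp using fun k => root_frob2 L j (f k) h (hf k) (hjs k) (hjs2 k)
  have hjev : ∀ (θ : L) (q : ℤ[X]), aeval (j θ) q = j (aeval θ q) := by
    intro θ q
    rw [aeval_def, aeval_def, hZQ, show algebraMap ℤ L = Int.castRingHom L from RingHom.ext_int _ _,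
      Polynomial.hom_eval₂]
    congr 1
    exact RingHom.ext_int _ _
  let SG : Gal(L/ℚ) → Finset K := fun g => univ.filter (fun k => ∃ θ : L, aeval θ (f k) = 0 ∧ g θ = θ ∧
    ∀ i, ∃ s : L, s ^ 2 = aeval θ (h i) ∧ g s = s)
  have hG : (0 : ℝ) < Nat.card Gal(L/ℚ) := by exact_mod_cast Nat.card_pos
  let ν : Finset K → ℝ := fun T => ((univ.filter (fun g => SG g = T)).card : ℝ) / Nat.card Gal(L/ℚ)
  have hsum : ∀ F : Finset K → ℝ, ∑ T, F T * ν T = (∑ g : Gal(L/ℚ), F (SG g)) / Nat.card Gal(L/ℚ) := by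
    intro F
    rw [← Finset.sum_fiberwise univ SG (fun g => F (SG g)), sum_div]
    refine sum_congr rfl fun T _ => ?_
    have h1 : ∑ g ∈ univ.filter (fun g => SG g = T), F (SG g) =
        ∑ g ∈ univ.filter (fun g => SG g = T), F T :=
      sum_congr rfl fun g hg => by rw [(mem_filter.1 hg).2]
    rw [h1, sum_const, nsmul_eq_mul]
    simp only [ν]
    ring
  refine ⟨ν, fun T => by positivity, ?_, fun F => ?_, fun σ => ?_⟩
  · have h1 := hsum (fun _ => 1)
    simp only [one_mul] at h1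
    rw [h1, sum_const, card_univ, nsmul_eq_mul, mul_one, ← Nat.card_eq_fintype_card, div_self hG.ne']
  · rw [hsum F]
    refine cheb_mean L (fun g => F (SG g)) _ (∏ k, D k) (prod_pos fun k _ => hD k) ?_
    intro p _ hp φ g hφ
    congr 1
    unfold SR
    refine filter_congr fun k _ => ?_
    exact hDp k p (fun h => hp (h.trans (dvd_prod_of_mem D (mem_univ k)))) φ g hφ
  · obtain ⟨τ, hτ⟩ := hτ σ
    have h1 : SG τ = SQ f h σ := by
      unfold SQ
      simp only [SG]
      refine filter_congr fun k _ => ?_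
      constructor
      · rintro ⟨θ, h2, h3, h4⟩
        refine ⟨j θ, by rw [hjev, h2, map_zero], by rw [← hτ, h3], fun i => ?_⟩
        obtain ⟨s, hs, hs'⟩ := h4 i
        exact ⟨j s, by rw [← map_pow, hs, hjev], by rw [← hτ, hs']⟩
      · rintro ⟨θ, h2, h3, h4⟩
        obtain ⟨y, rfl⟩ := hjs k θ h2
        refine ⟨y, ?_, ?_, fun i => ?_⟩
        · apply j.injective
          rw [map_zero, ← hjev, h2]
        · apply j.injective
          rw [hτ, h3]
        · obtain ⟨s, hs, hs'⟩ := h4 i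
          obtain ⟨t, rfl⟩ := hjs2 k _ h2 i s hs
          refine ⟨t, ?_, ?_⟩
          · apply j.injective
            rw [map_pow, hs, hjev]
          · apply j.injective
            rw [hτ, hs']
    have h2 : 0 < (univ.filter (fun g => SG g = SQ f h σ)).card :=
      card_pos.2 ⟨τ, mem_filter.2 ⟨mem_univ _, h1⟩⟩
    have h3 : (0 : ℝ) < ((univ.filter (fun g => SG g = SQ f h σ)).card : ℝ) := by exact_mod_cast h2
    exact div_pos h3 hG

end Pool.Agent.H11.EC.Mean
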