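import Mathlib
import Pool.Agent.H11.EC.Stm
import Pool.Agent.H11.V.R_pool_sql_team_seeded_9f66d723_W5h36_EL_Loc

/-! JOB EC-SOLV (helper58): twists with points everywhere locally. -/

set_option autoImplicit false

namespace Pool.Agent.H11.EC

open Polynomial Finset
open Pool.Agent.Q51.EL (hom)
open Pool.Agent.W5h36.EL (sep_bez sq_of_mod)
open Pool.Agent.W262.TW (padic_sq)

namespace Solv

lemma hom_one {R : Type*} [CommRing R] (f : ℤ[X]) (x : R) :
    hom f x 1 = f.eval₂ (Int.castRingHom R) x := by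
  unfold Pool.Agent.Q51.EL.hom
  rw [eval₂_eq_sum_range]
  refine sum_congr rfl fun i _ => ?_
  simp

/-- a zero modulo `p` lifts to a congruent zero in `ℤ_p` -/
lemma lift_zero (g : ℤ[X]) (p : ℕ) [hp : Fact p.Prime] (θ : ℤ) (hθ : (p : ℤ) ∣ g.eval θ)
    (hd : ¬ (p : ℤ) ∣ (derivative g).eval θ) :
    ∃ z : ℤ_[p], g.eval₂ (Int.castRingHom ℤ_[p]) z = 0 ∧ ‖z - (θ : ℤ_[p])‖ < 1 := by
  have e : ∀ g : ℤ[X], aeval (θ : ℤ_[p]) g = ((g.eval θ : ℤ) : ℤ_[p]) := by
    intro g
    have := aeval_algebraMap_apply_eq_algebraMap_eval (A := ℤ_[p]) θ g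
    rw [eq_intCast, eq_intCast] at this
    exact this
  have h4 : ‖(((derivative g).eval θ : ℤ) : ℤ_[p])‖ = 1 := by
    have h5 : ¬ ‖(((derivative g).eval θ : ℤ) : ℤ_[p])‖ < 1 := by
      rw [PadicInt.norm_intCast_lt_one_iff]
      exact hd
    exact le_antisymm (PadicInt.norm_le_one _) (not_lt.1 h5)
  obtain ⟨z, hz, hz2, -⟩ := hensels_lemma (p := p) (R := ℤ) (F := g) (a := (θ : ℤ_[p])) (by
    rw [e, e]
    have h3 : ‖((g.eval θ : ℤ) : ℤ_[p])‖ < 1 := by
      rw [PadicInt.norm_intCast_lt_one_iff]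
      exact hθ
    rw [h4]
    simpa using h3)
  rw [e, h4] at hz2
  exact ⟨z, hz, hz2⟩

/-- squares in `ℤ_p`, `p` odd -/
lemma sq_pad (p : ℕ) [hp : Fact p.Prime] (hp2 : p ≠ 2) (a : ℤ_[p]) (s : ℤ)
    (hs : ¬ (p : ℤ) ∣ s) (h : ‖(s : ℤ_[p]) ^ 2 - a‖ < 1) : ∃ z : ℤ_[p], z ^ 2 = a := by
  have hpi : Prime (p : ℤ) := Nat.prime_iff_prime_int.1 hp.out
  have h2 : ¬ (p : ℤ) ∣ 2 * s := by
    intro h2
    rcases hpi.dvd_or_dvd h2 with h3 | h3
    · have h5 : p ∣ 2 := by exact_mod_cast h3
      exact hp2 ((Nat.prime_dvd_prime_iff_eq hp.out Nat.prime_two).1 h5)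
    · exact hs h3
  have e1 : ∀ w : ℤ_[p], (aeval w) (X ^ 2 - C a : ℤ_[p][X]) = w ^ 2 - a := by
    intro w; simp
  have e2 : ∀ w : ℤ_[p], (aeval w) (derivative (X ^ 2 - C a : ℤ_[p][X])) = 2 * w := by
    intro w; simp; norm_num
  obtain ⟨z, hz, -⟩ := hensels_lemma (p := p) (R := ℤ_[p]) (F := X ^ 2 - C a)
    (a := (s : ℤ_[p])) (by
      rw [e1, e2]
      have h4 : ‖((2 * s : ℤ) : ℤ_[p])‖ = 1 := by
        have h5 : ¬ ‖((2 * s : ℤ) : ℤ_[p])‖ < 1 := by
          rw [PadicInt.norm_intCast_lt_one_iff]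
          exact h2
        exact le_antisymm (PadicInt.norm_le_one _) (not_lt.1 h5)
      push_cast at h4
      rw [h4]
      simpa using h)
  rw [e1] at hz
  exact ⟨z, sub_eq_zero.1 hz⟩

/-- continuity of polynomials over `ℤ_p` -/
lemma cong (p : ℕ) [hp : Fact p.Prime] (f : ℤ[X]) (x : ℤ_[p]) (r : ℤ)
    (h : ‖x - (r : ℤ_[p])‖ < 1) :
    ‖((f.eval r : ℤ) : ℤ_[p]) - f.eval₂ (Int.castRingHom ℤ_[p]) x‖ < 1 := by
  have e : ((f.eval r : ℤ) : ℤ_[p]) = f.eval₂ (Int.castRingHom ℤ_[p]) (r : ℤ_[p]) := by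
    have := eval₂_at_apply (p := f) (Int.castRingHom ℤ_[p]) r
    rw [eq_intCast, eq_intCast] at this
    exact this.symm
  rw [e]
  have h1 : (r : ℤ_[p]) - x ∣ f.eval₂ (Int.castRingHom ℤ_[p]) (r : ℤ_[p]) -
      f.eval₂ (Int.castRingHom ℤ_[p]) x := by
    rw [eval₂_eq_eval_map, eval₂_eq_eval_map]
    exact sub_dvd_eval_sub _ _ _
  obtain ⟨c, hc⟩ := h1
  rw [hc, norm_mul]
  have h2 : ‖c‖ ≤ 1 := PadicInt.norm_le_one _
  have h3 : ‖(r : ℤ_[p]) - x‖ < 1 := by rw [norm_sub_rev]; exact h
  calc ‖(r : ℤ_[p]) - x‖ * ‖c‖ ≤ ‖(r : ℤ_[p]) - x‖ * 1 :=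
        mul_le_mul_of_nonneg_left h2 (norm_nonneg _)
    _ < 1 := by rw [mul_one]; exact h3

end Solv

open Solv in
theorem solv (hW : S_WEIL) : S_SOLV := by
  classical
  intro K I _ _ _ f h hyp D0 hD0 hELS
  set g : ℤ[X] := ∏ k, f k with hg
  set H : ℤ[X] := g * ∏ i, h i with hH
  obtain ⟨R, A, B, hR, hb⟩ := sep_bez H hyp.sep
  clear_value H
  clear_value g
  have hfk : ∀ k, 1 ≤ (f k).natDegree := by
    intro k
    have e1 : ((f k).map (Int.castRingHom ℚ)).natDegree = (f k).natDegree :=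
      natDegree_map_eq_of_injective (RingHom.injective_int (Int.castRingHom ℚ)) _
    rw [← e1]
    exact (hyp.irr k).natDegree_pos
  have hfk0 : ∀ k, f k ≠ 0 := by
    intro k h
    have := hfk k
    rw [h, natDegree_zero] at this
    omega
  have hgdeg : 1 ≤ g.natDegree := by
    rw [hg, natDegree_prod _ _ fun k _ => hfk0 k]
    obtain ⟨k⟩ := ‹Nonempty K›
    exact (hfk k).trans (single_le_sum (f := fun k => (f k).natDegree) (fun _ _ => Nat.zero_le _)
      (mem_univ k))
  have hg0 : g ≠ 0 := by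
    intro h
    rw [h, natDegree_zero] at hgdeg
    omega
  have hh0 : ∀ i, h i ≠ 0 := by
    intro i hi
    have := hyp.pos i
    rw [hi, natDegree_zero] at this
    omega
  set Lc : ℕ := ∏ i, (h i).leadingCoeff.natAbs with hLc
  set n0 : ℕ := (2 ^ (Fintype.card I + 4) * H.natDegree) ^ 2 with hn0
  refine ⟨max (max (max R.natAbs g.leadingCoeff.natAbs) (max 2 Lc)) (max D0.natAbs n0),
    le_trans (le_max_left _ _) (le_max_right _ _), ?_⟩
  intro z hz m hm hmp r hr hmr
  have hzD : D0.natAbs ≤ z := le_trans (le_trans (le_max_left _ _) (le_max_right _ _)) hz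
  have hz4 : n0 ≤ z := le_trans (le_trans (le_max_right _ _) (le_max_right _ _)) hz
  have hz1 : R.natAbs ≤ z := le_trans (le_trans (le_trans (le_max_left _ _) (le_max_left _ _))
    (le_max_left _ _)) hz
  have hz2 : g.leadingCoeff.natAbs ≤ z := le_trans (le_trans (le_trans (le_max_right _ _)
    (le_max_left _ _)) (le_max_left _ _)) hz
  have hz3 : 2 ≤ z := le_trans (le_trans (le_trans (le_max_left _ _)
    (le_max_right _ _)) (le_max_left _ _)) hz
  have hz5 : Lc ≤ z := le_trans (le_trans (le_trans (le_max_right _ _)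
    (le_max_right _ _)) (le_max_left _ _)) hz
  have hnd : ∀ (p : ℕ) (a : ℤ), a ≠ 0 → a.natAbs ≤ z → z < p → ¬ (p : ℤ) ∣ a := by
    intro p a ha h1 h2 h3
    have h4 := Nat.le_of_dvd (Int.natAbs_pos.2 ha) (Int.natCast_dvd.1 h3)
    omega
  constructor
  · have hm0 : (0 : ℝ) < m := by exact_mod_cast Nat.pos_of_ne_zero hm
    obtain ⟨x, w, y, ζ, hxw, hy, hζ⟩ := hELS.1
    refine ⟨x, w, y / Real.sqrt m, ζ, hxw, ?_, hζ⟩
    rw [← hy, div_pow, Real.sq_sqrt hm0.le]
    push_cast
    field_simp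
  · intro p hp
    by_cases hpz : p ≤ z
    · have hpm : (p : ℤ) ∣ m - r ^ 2 := by
        refine dvd_trans ?_ hmr
        have h1 : p ∣ z.factorial := Nat.dvd_factorial hp.out.pos hpz
        exact_mod_cast (h1.mul_left 8)
      have h8 : p = 2 → (8 : ℤ) ∣ m - r ^ 2 := by
        intro _
        refine dvd_trans ?_ hmr
        exact_mod_cast Dvd.intro _ rfl
      obtain ⟨ζ, hζ⟩ := sq_of_mod p m r (hr p hp.out hpz) hpm h8
      have hζ' : (ζ : ℚ_[p]) ^ 2 = m := by
        have := congrArg (fun w : ℤ_[p] => (w : ℚ_[p])) hζ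
        simpa using this
      have hm0 : (m : ℚ_[p]) ≠ 0 := by exact_mod_cast hm
      have hζ0 : (ζ : ℚ_[p]) ≠ 0 := by
        intro h0
        rw [h0] at hζ'
        apply hm0
        rw [← hζ']
        simp
      obtain ⟨x, w, y, η, hxw, hy, hη⟩ := hELS.2 p
      refine ⟨x, w, y / ζ, η, hxw, ?_, hη⟩
      rw [← hy, div_pow, hζ']
      push_cast
      field_simp
    · push Not at hpz
      have hpi : Prime (p : ℤ) := Nat.prime_iff_prime_int.1 hp.out
      have hpR := hnd p R hR hz1 hpz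
      have hpg : ¬ (p : ℤ) ∣ g.leadingCoeff := hnd p _ (leadingCoeff_ne_zero.2 hg0) hz2 hpz
      have hp2 : p ≠ 2 := by omega
      have hph : ∀ i, ¬ (p : ℤ) ∣ (h i).leadingCoeff := by
        intro i
        refine hnd p _ (leadingCoeff_ne_zero.2 (hh0 i)) (le_trans ?_ hz5) hpz
        exact Nat.le_of_dvd (Nat.pos_of_ne_zero (prod_ne_zero_iff.2 fun j _ =>
          Int.natAbs_ne_zero.2 (leadingCoeff_ne_zero.2 (hh0 j)))) (dvd_prod_of_mem _ (mem_univ i))
      by_cases hpm : p ∣ m
      · obtain ⟨⟨k, hk⟩, -⟩ := hmp p hp.out hpm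
        unfold SR at hk
        obtain ⟨-, θ, hθ, hsq⟩ := mem_filter.1 hk
        have hgθ : (p : ℤ) ∣ g.eval θ := by
          rw [hg, eval_prod]
          exact hθ.trans (dvd_prod_of_mem _ (mem_univ k))
        -- the bezout identity at θ
        have hbθ := congrArg (eval θ) hb
        rw [eval_add, eval_mul, eval_mul, eval_C] at hbθ
        have hHθ : H.eval θ = g.eval θ * ∏ i, (h i).eval θ := by
          rw [hH, eval_mul, eval_prod]
        have hdH : (derivative H).eval θ = (derivative g).eval θ * ∏ i, (h i).eval θ +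
            g.eval θ * (derivative (∏ i, h i)).eval θ := by
          rw [hH, derivative_mul, eval_add, eval_mul, eval_mul, eval_prod]
        have hn1 : ¬ (p : ℤ) ∣ (derivative g).eval θ * ∏ i, (h i).eval θ := by
          intro hdv
          apply hpR
          rw [← hbθ, hHθ, hdH]
          refine dvd_add (Dvd.dvd.mul_left (Dvd.dvd.mul_right hgθ _) _)
            (Dvd.dvd.mul_left (dvd_add hdv (Dvd.dvd.mul_right hgθ _)) _)
        have hn2 : ¬ (p : ℤ) ∣ (derivative g).eval θ := fun hdv => hn1 (Dvd.dvd.mul_right hdv _)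
        have hn3 : ∀ i, ¬ (p : ℤ) ∣ (h i).eval θ := fun i hdv =>
          hn1 (Dvd.dvd.mul_left (hdv.trans (dvd_prod_of_mem (fun i => (h i).eval θ) (mem_univ i))) _)
        obtain ⟨ρ, hρ, hρθ⟩ := lift_zero g p θ hgθ hn2
        have hsqs : ∀ i, ∃ w : ℤ_[p], w ^ 2 = (h i).eval₂ (Int.castRingHom ℤ_[p]) ρ := by
          intro i
          obtain ⟨s, hs⟩ := hsq i
          refine sq_pad p hp2 _ s ?_ ?_
          · intro hps
            apply hn3 i
            have h1 : (p : ℤ) ∣ s ^ 2 := dvd_pow hps two_ne_zero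
            have := dvd_sub h1 hs
            simpa using this
          · have h1 := cong p (h i) ρ θ hρθ
            have h2 : ‖(((s ^ 2 - (h i).eval θ : ℤ)) : ℤ_[p])‖ < 1 := by
              rw [PadicInt.norm_intCast_lt_one_iff]
              exact hs
            have e : (s : ℤ_[p]) ^ 2 - (h i).eval₂ (Int.castRingHom ℤ_[p]) ρ =
                (((s ^ 2 - (h i).eval θ : ℤ)) : ℤ_[p]) +
                  ((((h i).eval θ : ℤ) : ℤ_[p]) - (h i).eval₂ (Int.castRingHom ℤ_[p]) ρ) := by
              push_cast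
              ring
            rw [e]
            exact lt_of_le_of_lt (PadicInt.nonarchimedean _ _) (max_lt h2 h1)
        choose ω hω using hsqs
        have hcast : ∀ q : ℤ[X], hom q ((ρ : ℤ_[p]) : ℚ_[p]) 1 =
            ((q.eval₂ (Int.castRingHom ℤ_[p]) ρ : ℤ_[p]) : ℚ_[p]) := by
          intro q
          rw [hom_one]
          have h2 := hom_eval₂ q (Int.castRingHom ℤ_[p]) (PadicInt.Coe.ringHom (p := p)) ρ
          have h3 : (PadicInt.Coe.ringHom (p := p)).comp (Int.castRingHom ℤ_[p]) =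
              Int.castRingHom ℚ_[p] := RingHom.ext_int _ _
          rw [h3] at h2
          exact h2.symm
        refine ⟨(ρ : ℚ_[p]), 1, 0, fun i => ((ω i : ℤ_[p]) : ℚ_[p]), Or.inr one_ne_zero, ?_, ?_⟩
        · rw [hcast, hρ]
          simp
        · intro i
          rw [hcast, ← hω i]
          simp
      · have hpd0 : ¬ (p : ℤ) ∣ D0 * m := by
          intro h
          rcases hpi.dvd_or_dvd h with h | h
          · exact hnd p D0 hD0 hzD hpz h
          · exact hpm (by exact_mod_cast h)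
        have hu : ((D0 * m : ℤ) : ZMod p) ≠ 0 :=
          fun h => hpd0 ((ZMod.intCast_zmod_eq_zero_iff_dvd _ p).1 h)
        have hlc : ∀ q : ℤ[X], ¬ (p : ℤ) ∣ q.leadingCoeff →
            (q.map (Int.castRingHom (ZMod p))).natDegree = q.natDegree := by
          intro q hq
          refine natDegree_map_of_leadingCoeff_ne_zero _ ?_
          rw [eq_intCast]
          exact fun h => hq ((ZMod.intCast_zmod_eq_zero_iff_dvd _ p).1 h)
        have hRp : ((R : ℤ) : ZMod p) ≠ 0 :=
          fun h => hpR ((ZMod.intCast_zmod_eq_zero_iff_dvd _ p).1 h)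
        have hmapH : H.map (Int.castRingHom (ZMod p)) = g.map (Int.castRingHom (ZMod p)) *
            ∏ i, (h i).map (Int.castRingHom (ZMod p)) := by
          rw [hH, Polynomial.map_mul, Polynomial.map_prod]
        have hsqf : Squarefree (g.map (Int.castRingHom (ZMod p)) *
            ∏ i, (h i).map (Int.castRingHom (ZMod p))) := by
          rw [← hmapH]
          have hsep : (H.map (Int.castRingHom (ZMod p))).Separable := by
            have hb' := congrArg (Polynomial.map (Int.castRingHom (ZMod p))) hb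
            have e0 : (derivative H).map (Int.castRingHom (ZMod p)) =
                derivative (H.map (Int.castRingHom (ZMod p))) := (derivative_map _ _).symm
            have e2 : (A * H).map (Int.castRingHom (ZMod p)) = A.map (Int.castRingHom (ZMod p)) *
                H.map (Int.castRingHom (ZMod p)) := Polynomial.map_mul _
            have e3 : (B * derivative H).map (Int.castRingHom (ZMod p)) =
                B.map (Int.castRingHom (ZMod p)) * (derivative H).map (Int.castRingHom (ZMod p)) :=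
              Polynomial.map_mul _
            rw [Polynomial.map_add, e2, e3, e0, Polynomial.map_C, eq_intCast] at hb'
            refine ⟨C (((R : ℤ) : ZMod p)⁻¹) * A.map (Int.castRingHom (ZMod p)),
              C (((R : ℤ) : ZMod p)⁻¹) * B.map (Int.castRingHom (ZMod p)), ?_⟩
            have e1 : C (((R : ℤ) : ZMod p)⁻¹) * C ((R : ℤ) : ZMod p) = 1 := by
              rw [← C_mul, inv_mul_cancel₀ hRp, C_1]
            rw [← e1, ← hb']
            ring
          exact hsep.squarefree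
        have hdeg : (2 ^ (Fintype.card I + 4) * (g.map (Int.castRingHom (ZMod p)) *
            ∏ i, (h i).map (Int.castRingHom (ZMod p))).natDegree) ^ 2 < p := by
          refine lt_of_le_of_lt ?_ (lt_of_le_of_lt hz4 hpz)
          rw [← hmapH, hn0]
          exact Nat.pow_le_pow_left (Nat.mul_le_mul_left _ natDegree_map_le) 2
        obtain ⟨x, y, ζ, hy, hζ, hxy, hxζ⟩ := hW p I (g.map (Int.castRingHom (ZMod p)))
          (fun i => (h i).map (Int.castRingHom (ZMod p))) ((D0 * m : ℤ) : ZMod p) hp2 hu hsqf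
          (by rw [hlc g hpg]; exact hgdeg) (fun i => by rw [hlc (h i) (hph i)]; exact hyp.pos i) hdeg
        obtain ⟨x', rfl⟩ := ZMod.intCast_surjective x
        simp only [eval_intCast_map, eq_intCast, Int.cast_id] at hxy hxζ
        have hN : ¬ (p : ℤ) ∣ D0 * m * g.eval x' := by
          intro h
          have h1 := (ZMod.intCast_zmod_eq_zero_iff_dvd _ p).2 h
          rw [Int.cast_mul, hxy] at h1
          exact (pow_ne_zero 2 hy) h1
        obtain ⟨w, hw⟩ := padic_sq (p := p) hp2 hN ⟨y, by rw [Int.cast_mul, hxy]; ring⟩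
        have hw' : (w : ℚ_[p]) ^ 2 = ((D0 * m * g.eval x' : ℤ) : ℚ_[p]) := by
          have := congrArg (fun w : ℤ_[p] => (w : ℚ_[p])) hw
          simpa using this
        have hN2 : ∀ i, ¬ (p : ℤ) ∣ (h i).eval x' := by
          intro i h
          have h1 := (ZMod.intCast_zmod_eq_zero_iff_dvd _ p).2 h
          rw [hxζ i] at h1
          exact (pow_ne_zero 2 (hζ i)) h1
        have hsqs : ∀ i, ∃ w : ℤ_[p], w ^ 2 = (((h i).eval x' : ℤ) : ℤ_[p]) := by
          intro i
          exact padic_sq (p := p) hp2 (hN2 i) ⟨ζ i, by rw [hxζ i]; ring⟩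
        choose ω hω using hsqs
        have hd0 : ((D0 * m : ℤ) : ℚ_[p]) ≠ 0 := by
          have : D0 * (m : ℤ) ≠ 0 := mul_ne_zero hD0 (by exact_mod_cast hm)
          exact_mod_cast this
        have hev : ∀ q : ℤ[X], hom q ((x' : ℤ) : ℚ_[p]) 1 = ((q.eval x' : ℤ) : ℚ_[p]) := by
          intro q
          rw [hom_one]
          have e' := eval₂_at_apply (p := q) (Int.castRingHom ℚ_[p]) x'
          rw [eq_intCast, eq_intCast] at e'
          exact e'
        refine ⟨x', 1, w / ((D0 * m : ℤ) : ℚ_[p]), fun i => ((ω i : ℤ_[p]) : ℚ_[p]),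
          Or.inr one_ne_zero, ?_, ?_⟩
        · rw [hev, div_pow, hw', Int.cast_mul (D0 * m)]
          field_simp
        · intro i
          rw [hev]
          have := congrArg (fun w : ℤ_[p] => (w : ℚ_[p])) (hω i)
          simpa using this

end Pool.Agent.H11.EC
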