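import Pool.Agent.H11.EC.Data

/-! Project EC: a homomorphism to the prime field gives an element of `SR`. -/

set_option autoImplicit false
set_option linter.unusedSectionVars false

namespace Pool.Agent.H11.EC

open Polynomial NumberField IsDedekindDomain Finset
open Pool.Agent.Q51.EL (Abv Par N1 pr Setup hom S_M1 S_RAM)
open Pool.Agent.H11.EM (PL In Ty1 Ty2 box cls dg NN tau Good Sys S_SIEVE S_CNT)

variable {M : Type} [Field M] [NumberField M]

lemma exists_int_mul (x : M) : ∃ (c : ℤ) (y : 𝓞 M), c ≠ 0 ∧ (y : M) = c * x := by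
  have h1 : IsAlgebraic ℤ x := by
    have h2 : IsAlgebraic ℚ x := Algebra.IsAlgebraic.isAlgebraic x
    exact (IsFractionRing.isAlgebraic_iff ℤ ℚ M).2 h2
  obtain ⟨y, hy0, hy⟩ := h1.exists_integral_multiple
  have hy' : IsIntegral ℤ ((y : M) * x) := by
    rwa [← zsmul_eq_mul]
  exact ⟨y, ⟨(y : M) * x, hy'⟩, hy0, rfl⟩

lemma sr_of_hom {I : Type} [Fintype I] (f : ℤ[X]) (h : I → ℤ[X]) (θ : M) (s : I → M)
    (hf : aeval θ f = 0) (hs : ∀ i, s i ^ 2 = aeval θ (h i)) :
    ∃ D : ℕ, D ≠ 0 ∧ ∀ l : ℕ, l.Prime → ¬ l ∣ D → Nonempty (𝓞 M →+* ZMod l) →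
      ∃ r : ℤ, (l : ℤ) ∣ f.eval r ∧ ∀ i, ∃ s : ℤ, (l : ℤ) ∣ s ^ 2 - (h i).eval r := by
  classical
  obtain ⟨c, t, hc, ht⟩ := exists_int_mul θ
  choose e u he hu using fun i => exists_int_mul (s i)
  refine ⟨(c * ∏ i, e i).natAbs, Int.natAbs_ne_zero.2
    (mul_ne_zero hc (Finset.prod_ne_zero_iff.2 fun i _ => he i)), ?_⟩
  rintro l hl hlD ⟨φ⟩
  haveI : Fact l.Prime := ⟨hl⟩
  rw [← Int.natCast_dvd] at hlD
  have hc' : (c : ZMod l) ≠ 0 := fun h0 => hlD
    (Dvd.dvd.mul_right ((ZMod.intCast_zmod_eq_zero_iff_dvd c l).1 h0) _)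
  have he' : ∀ i, (e i : ZMod l) ≠ 0 := fun i h0 => hlD
    (Dvd.dvd.mul_left (((ZMod.intCast_zmod_eq_zero_iff_dvd _ l).1 h0).trans
      (Finset.dvd_prod_of_mem e (mem_univ i))) _)
  -- the values at `θ`
  have hval : ∀ p : ℤ[X], algebraMap (𝓞 M) M (hom p t (c : 𝓞 M)) =
      (c : M) ^ p.natDegree * aeval θ p := by
    intro p
    have h1 : algebraMap (𝓞 M) M (hom p t (c : 𝓞 M)) = hom p (t : M) (c : M) := by
      have := hom_map (algebraMap (𝓞 M) M) p t (c : 𝓞 M)
      rw [map_intCast] at this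
      exact this
    have h2 := hom_smul p (c : M) θ 1
    rw [mul_one] at h2
    rw [h1, ht, h2, hom_one]
    rfl
  obtain ⟨r, hr⟩ := ZMod.intCast_surjective (φ t * (c : ZMod l)⁻¹)
  have hr' : φ t = c * (r : ZMod l) := by
    rw [hr]
    field_simp
  have hval' : ∀ p : ℤ[X], φ (hom p t (c : 𝓞 M)) =
      (c : ZMod l) ^ p.natDegree * ((p.eval r : ℤ) : ZMod l) := by
    intro p
    rw [hom_map, map_intCast, hr']
    have h5 := hom_smul p (c : ZMod l) (r : ZMod l) 1
    rw [mul_one] at h5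
    rw [h5, hom_one]
    congr 1
    have h6 := Polynomial.hom_eval₂ p (RingHom.id ℤ) (Int.castRingHom (ZMod l)) r
    rw [RingHomCompTriple.comp_eq] at h6
    exact h6.symm
  refine ⟨r, ?_, fun i => ?_⟩
  · have h1 : hom f t (c : 𝓞 M) = 0 := by
      apply RingOfIntegers.coe_injective
      rw [hval, hf, mul_zero, map_zero]
    have h2 := hval' f
    rw [h1, map_zero] at h2
    rw [← ZMod.intCast_zmod_eq_zero_iff_dvd]
    exact (mul_eq_zero.1 h2.symm).resolve_left (pow_ne_zero _ hc')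
  · have h1 : u i ^ 2 * (c : 𝓞 M) ^ (h i).natDegree = (e i : 𝓞 M) ^ 2 * hom (h i) t (c : 𝓞 M) := by
      apply RingOfIntegers.coe_injective
      rw [map_mul, map_mul, map_pow, map_pow, map_pow, map_intCast, map_intCast, hval]
      rw [show algebraMap (𝓞 M) M (u i) = e i * s i from hu i, ← hs i]
      ring
    have h2 := congrArg φ h1
    rw [map_mul, map_mul, map_pow, map_pow, map_pow, map_intCast, map_intCast, hval'] at h2
    have hcn : (c : ZMod l) ^ (h i).natDegree ≠ 0 := pow_ne_zero _ hc'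
    have h3 : φ (u i) ^ 2 = (e i : ZMod l) ^ 2 * (((h i).eval r : ℤ) : ZMod l) := by
      apply mul_right_cancel₀ hcn
      rw [h2]
      ring
    obtain ⟨s', hs'⟩ := ZMod.intCast_surjective (φ (u i) * (e i : ZMod l)⁻¹)
    refine ⟨s', ?_⟩
    rw [← ZMod.intCast_zmod_eq_zero_iff_dvd]
    push_cast
    rw [hs', mul_pow, h3]
    have := he' i
    field_simp
    ring

section option

variable {K : Type}

/-- a family of fields and one more -/
def LO (M : Type) (L : K → Type) : Option K → Type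
  | none => M
  | some k => L k

instance (M : Type) [Field M] (L : K → Type) [∀ k, Field (L k)] : ∀ o, Field (LO M L o)
  | none => inferInstanceAs (Field M)
  | some k => inferInstanceAs (Field (L k))

instance (M : Type) [Field M] [NumberField M] (L : K → Type) [∀ k, Field (L k)]
    [∀ k, NumberField (L k)] : ∀ o, NumberField (LO M L o)
  | none => inferInstanceAs (NumberField M)
  | some k => inferInstanceAs (NumberField (L k))

end option

open Classical in
theorem split_of (h2 : EM.S_M2) (h' : S_RAM) : S_SPLIT := by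
  intro K I _ _ _ f h L _ _ θ hs
  obtain ⟨k0⟩ := ‹Nonempty K›
  obtain ⟨θ0, hθ0⟩ : ∃ θ : AlgebraicClosure ℚ, aeval θ (f k0) = 0 := by
    obtain ⟨x, hx⟩ := IsAlgClosed.exists_aeval_eq_zero (AlgebraicClosure ℚ)
      ((f k0).map (Int.castRingHom ℚ)) (Polynomial.degree_pos_of_irreducible (hs.set k0).irr).ne'
    refine ⟨x, ?_⟩
    rw [← hx]
    exact (aeval_map_algebraMap ℚ x (f k0)).symm
  choose s hs' using fun i => IsAlgClosed.exists_pow_nat_eq (aeval θ0 (h i)) (n := 2) two_pos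
  obtain ⟨M, _, _, _, j, hj, -⟩ := Pool.Agent.W5h36.EL.exL2 ({θ0} ∪ Set.range s)
    ((Set.finite_singleton _).union (Set.finite_range s))
  obtain ⟨θM, hθM⟩ := hj θ0 (Or.inl rfl)
  choose sM hsM using fun i => hj (s i) (Or.inr ⟨i, rfl⟩)
  have hjp : ∀ p : ℤ[X], j (aeval θM p) = aeval θ0 p := by
    intro p
    rw [← hθM, aeval_def, aeval_def, Polynomial.hom_eval₂]
    congr 1
    exact RingHom.ext_int _ _
  obtain ⟨D, hD, hD'⟩ := sr_of_hom (f k0) h θM sM
    (by apply j.injective; rw [hjp, hθ0, map_zero])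
    (fun i => by apply j.injective; rw [hjp, map_pow, hsM, hs'])
  obtain ⟨c, C, hc, hC⟩ := h2 (Option K) (LO M L)
  refine ⟨c, C + D.divisors.card, hc, fun Y hY => ?_⟩
  have h1 : (pr Y).filter (fun l => NN (LO M L) l = dg (LO M L)) ⊆
      (pr Y).filter (fun l => NN L l = dg L ∧ (SR f h l).Nonempty) ∪ D.divisors := by
    intro l hl
    obtain ⟨hl1, hl2⟩ := mem_filter.1 hl
    have hlp : l.Prime := (mem_filter.1 hl1).2
    by_cases hlD : l ∣ D
    · exact mem_union_right _ (Nat.mem_divisors.2 ⟨hlD, hD⟩)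
    · refine mem_union_left _ (mem_filter.2 ⟨hl1, ?_⟩)
      have e1 : NN (LO M L) l = N1 M l + NN L l := by
        unfold NN
        rw [Fintype.sum_option]
        rfl
      have e2 : dg (LO M L) = Module.finrank ℚ M + dg L := by
        unfold dg
        rw [Fintype.sum_option]
        rfl
      rw [e1, e2] at hl2
      have h3 : N1 M l ≤ Module.finrank ℚ M := (h' M).2 l hlp
      have h4 : NN L l ≤ dg L := Finset.sum_le_sum fun k _ => (h' (L k)).2 l hlp
      have h5 : 0 < Module.finrank ℚ M := Module.finrank_pos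
      refine ⟨by omega, ?_⟩
      have h6 : N1 M l ≠ 0 := by omega
      rw [Pool.Agent.Q154.EL.N1_eq hlp] at h6
      obtain ⟨r, hr, hr'⟩ := hD' l hlp hlD (Nat.card_ne_zero.1 h6).1
      exact ⟨k0, mem_filter.2 ⟨mem_univ _, r, hr, hr'⟩⟩
  have h2' := hC Y hY
  have h3 := Finset.sum_le_sum_of_subset_of_nonneg (f := fun q : ℕ => (1 : ℝ) / q) h1
    (fun _ _ _ => by positivity)
  have h4 := Finset.sum_union_inter (s₁ := (pr Y).filter (fun l => NN L l = dg L ∧
    (SR f h l).Nonempty)) (s₂ := D.divisors) (f := fun q : ℕ => (1 : ℝ) / q)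
  have h5 : 0 ≤ ∑ q ∈ (pr Y).filter (fun l => NN L l = dg L ∧ (SR f h l).Nonempty) ∩ D.divisors,
    (1 : ℝ) / q := Finset.sum_nonneg fun _ _ => by positivity
  have h6 : ∑ q ∈ D.divisors, (1 : ℝ) / q ≤ (D.divisors.card : ℝ) := by
    rw [Finset.card_eq_sum_ones]
    push_cast
    refine Finset.sum_le_sum fun q hq => ?_
    have hq1 : (1 : ℝ) ≤ q := by exact_mod_cast Nat.pos_of_mem_divisors hq
    rw [div_le_one (by linarith)]
    exact hq1
  linarith

end Pool.Agent.H11.EC
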