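import Pool.Agent.H11.EC.Stm

/-! # Project EC, stub EC-WEIL (helper82) -/

set_option autoImplicit false

namespace Pool.Agent.H11.EC

open Polynomial Finset

lemma weil_aux (p : ℕ) [Fact p.Prime] (hp2 : p ≠ 2) (J : Type) [Fintype J] (G : J → (ZMod p)[X])
    (hsq : Squarefree (∏ j, G j)) (hdeg : ∀ j, 1 ≤ (G j).natDegree)
    (hbig : (8 * 2 ^ Fintype.card J * (∏ j, G j).natDegree) ^ 2 < p) :
    ∃ x : ZMod p, ∀ j, quadraticChar (ZMod p) ((G j).eval x) = 1 := by
  classical
  by_contra hcon
  push Not at hcon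
  set n : ℕ := (∏ j, G j).natDegree with hn
  set Q : ℝ := 2 ^ Fintype.card J with hQ
  have hF : ringChar (ZMod p) ≠ 2 := by rw [ZMod.ringChar_zmod_n]; exact hp2
  have hprod0 : (∏ j, G j) ≠ 0 := hsq.ne_zero
  let χ : ZMod p → ℝ := fun a => (quadraticChar (ZMod p) a : ℝ)
  have hχ1 : ∀ a, -1 ≤ χ a ∧ χ a ≤ 1 := by
    intro a
    by_cases h : a = 0
    · simp only [χ, h, map_zero]; norm_num
    · rcases quadraticChar_dichotomy h with h1 | h1 <;> simp only [χ, h1] <;> norm_num
  set S : ℝ := ∑ x : ZMod p, ∏ j, (1 + χ ((G j).eval x)) with hS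
  -- upper bound
  have hup : S ≤ Q * n := by
    have h1 : ∀ x : ZMod p, ∏ j, (1 + χ ((G j).eval x)) ≤
        if (∏ j, G j).eval x = 0 then Q else 0 := by
      intro x
      split_ifs with h0
      · calc ∏ j, (1 + χ ((G j).eval x)) ≤ ∏ _j : J, (2 : ℝ) :=
              Finset.prod_le_prod (fun j _ => by linarith [(hχ1 ((G j).eval x)).1])
                (fun j _ => by linarith [(hχ1 ((G j).eval x)).2])
          _ = Q := by rw [Finset.prod_const, Finset.card_univ]
      · obtain ⟨j, hj⟩ := hcon x
        have hj0 : (G j).eval x ≠ 0 := by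
          intro h
          apply h0
          rw [Polynomial.eval_prod]
          exact Finset.prod_eq_zero (Finset.mem_univ j) h
        have hj1 : χ ((G j).eval x) = -1 := by
          rcases quadraticChar_dichotomy hj0 with h1 | h1
          · exact absurd h1 hj
          · simp only [χ, h1]; norm_num
        rw [Finset.prod_eq_zero (Finset.mem_univ j) (by rw [hj1]; ring)]
    have h2 : (univ.filter (fun x : ZMod p => (∏ j, G j).eval x = 0)).card ≤ n := by
      calc _ ≤ (∏ j, G j).roots.toFinset.card := by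
            apply Finset.card_le_card
            intro x hx
            rw [Finset.mem_filter] at hx
            rw [Multiset.mem_toFinset, Polynomial.mem_roots hprod0]
            exact hx.2
        _ ≤ Multiset.card (∏ j, G j).roots := Multiset.toFinset_card_le _
        _ ≤ n := Polynomial.card_roots' _
    calc S ≤ ∑ x : ZMod p, if (∏ j, G j).eval x = 0 then Q else 0 :=
          Finset.sum_le_sum fun x _ => h1 x
      _ = ((univ.filter (fun x : ZMod p => (∏ j, G j).eval x = 0)).card : ℝ) * Q := by
          rw [← Finset.sum_filter, Finset.sum_const, nsmul_eq_mul]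
      _ ≤ n * Q := by
          refine mul_le_mul_of_nonneg_right (by exact_mod_cast h2) (by positivity)
      _ = Q * n := mul_comm _ _
  -- lower bound
  set s : ℝ := Real.sqrt (Fintype.card (ZMod p)) with hs
  have hs0 : 0 ≤ s := Real.sqrt_nonneg _
  have hexp : S = ∑ A ∈ (univ : Finset J).powerset, ∑ x : ZMod p, χ ((∏ j ∈ A, G j).eval x) := by
    rw [hS, Finset.sum_comm]
    apply Finset.sum_congr rfl
    intro x _
    rw [Finset.prod_one_add]
    apply Finset.sum_congr rfl
    intro A _
    rw [Polynomial.eval_prod]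
    simp only [χ]
    rw [map_prod]
    push_cast
    rfl
  have hterm : ∀ A : Finset J, A ≠ ∅ → -(5 * n * s) ≤ ∑ x : ZMod p, χ ((∏ j ∈ A, G j).eval x) := by
    intro A hA
    have hdvd : (∏ j ∈ A, G j) ∣ ∏ j, G j := Finset.prod_dvd_prod_of_subset _ _ _ (Finset.subset_univ A)
    have hsqA : Squarefree (∏ j ∈ A, G j) := hsq.squarefree_of_dvd hdvd
    have hA0 : (∏ j ∈ A, G j) ≠ 0 := hsqA.ne_zero
    have hdA : 1 ≤ (∏ j ∈ A, G j).natDegree := by
      obtain ⟨j, hj⟩ := Finset.nonempty_iff_ne_empty.2 hA
      exact (hdeg j).trans (Polynomial.natDegree_le_of_dvd (Finset.dvd_prod_of_mem _ hj) hA0)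
    have hdn : (∏ j ∈ A, G j).natDegree ≤ n := Polynomial.natDegree_le_of_dvd hdvd hprod0
    have hns : ∀ (c : ZMod p) (h : (ZMod p)[X]), (∏ j ∈ A, G j) ≠ C c * h ^ 2 := by
      intro c h heq
      have hu : IsUnit h := by
        apply hsqA h
        rw [heq, sq]
        exact Dvd.intro_left _ rfl
      have h0 : h.natDegree = 0 := natDegree_eq_zero_of_isUnit hu
      have h1 : (∏ j ∈ A, G j).natDegree ≤ 0 := by
        rw [heq]
        refine natDegree_mul_le.trans ?_
        rw [natDegree_C, natDegree_pow, h0]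
      omega
    have hw := Pool.Agent.H341R2.weil_bound hF (∏ j ∈ A, G j) hdA hns
    have hw1 := (abs_le.1 hw).1
    have h2 : 5 * ((∏ j ∈ A, G j).natDegree : ℝ) * s ≤ 5 * n * s := by
      have : ((∏ j ∈ A, G j).natDegree : ℝ) ≤ n := by exact_mod_cast hdn
      nlinarith
    calc -(5 * n * s) ≤ -(5 * ((∏ j ∈ A, G j).natDegree : ℝ) * s) := by linarith
      _ ≤ _ := hw1
  have hlow : (p : ℝ) - Q * (5 * n * s) ≤ S := by
    rw [hexp, ← Finset.add_sum_erase _ _ (Finset.empty_mem_powerset (univ : Finset J))]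
    have h0 : ∑ x : ZMod p, χ ((∏ j ∈ (∅ : Finset J), G j).eval x) = p := by
      simp [χ, ZMod.card]
    rw [h0]
    have h1 : -(Q * (5 * n * s)) ≤ ∑ A ∈ ((univ : Finset J).powerset.erase ∅),
        ∑ x : ZMod p, χ ((∏ j ∈ A, G j).eval x) := by
      calc -(Q * (5 * n * s)) ≤ ∑ _A ∈ ((univ : Finset J).powerset.erase ∅), -(5 * n * s) := by
            rw [Finset.sum_const, nsmul_eq_mul]
            have h2 : ((((univ : Finset J).powerset.erase ∅).card : ℕ) : ℝ) ≤ Q := by
              have h3 : ((univ : Finset J).powerset.erase ∅).card ≤ 2 ^ Fintype.card J := by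
                calc _ ≤ ((univ : Finset J).powerset).card := Finset.card_erase_le
                  _ = _ := by rw [Finset.card_powerset, Finset.card_univ]
              rw [hQ]
              exact_mod_cast h3
            have h4 : 0 ≤ 5 * (n : ℝ) * s := by positivity
            nlinarith
        _ ≤ _ := by
            apply Finset.sum_le_sum
            intro A hA
            exact hterm A (Finset.mem_erase.1 hA).1
    linarith
  -- conclusion
  have hcard : (Fintype.card (ZMod p) : ℝ) = p := by rw [ZMod.card]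
  have hss : s * s = p := by
    rw [hs, Real.mul_self_sqrt (Nat.cast_nonneg _), hcard]
  have hp1 : (1 : ℝ) ≤ p := by exact_mod_cast (Fact.out : p.Prime).one_lt.le
  have hs1 : 1 ≤ s := by
    by_contra h
    push Not at h
    nlinarith
  have hbig' : (8 * Q * n) ^ 2 < (p : ℝ) := by
    rw [hQ]
    exact_mod_cast hbig
  have hQn : 0 ≤ Q * n := by positivity
  have hs8 : 8 * (Q * n) < s := by
    by_contra h
    push Not at h
    have h1 : s * s ≤ (8 * (Q * n)) * (8 * (Q * n)) := mul_le_mul h h hs0 (by positivity)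
    rw [hss] at h1
    nlinarith
  have hQnpos : 0 ≤ Q * n * (s - 1) := mul_nonneg hQn (by linarith)
  have h9 : 8 * (Q * n) * s < s * s := mul_lt_mul_of_pos_right hs8 (by linarith)
  nlinarith

theorem weil : S_WEIL := by
  intro p hp I _ g h u hp2 hu hsq hg hh hbig
  classical
  have hprod : (∏ j : Option I, (j.elim (C u * g) h)) = C u * (g * ∏ i, h i) := by
    rw [Fintype.prod_option]
    simp only [Option.elim_none, Option.elim_some]
    ring
  have huC : IsUnit (C u : (ZMod p)[X]) := isUnit_C.2 hu.isUnit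
  have hsq' : Squarefree (∏ j : Option I, (j.elim (C u * g) h)) := by
    rw [hprod]
    intro x hx
    exact hsq x ((huC.dvd_mul_left).1 hx)
  have hdeg' : (∏ j : Option I, (j.elim (C u * g) h)).natDegree = (g * ∏ i, h i).natDegree := by
    rw [hprod, natDegree_C_mul hu]
  obtain ⟨x, hx⟩ := weil_aux p hp2 (Option I) (fun j => j.elim (C u * g) h) hsq' (by
      intro j
      cases j with
      | none => simpa [natDegree_C_mul hu] using hg
      | some i => exact hh i) (by
      rw [hdeg', Fintype.card_option]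
      refine lt_of_le_of_lt (le_of_eq ?_) hbig
      ring)
  have key : ∀ a : ZMod p, quadraticChar (ZMod p) a = 1 → ∃ y, y ≠ 0 ∧ a = y ^ 2 := by
    intro a ha
    have ha0 : a ≠ 0 := by
      rintro rfl
      simp at ha
    obtain ⟨y, hy⟩ := (quadraticChar_one_iff_isSquare ha0).1 ha
    refine ⟨y, ?_, by rw [hy, sq]⟩
    rintro rfl
    exact ha0 (by rw [hy, mul_zero])
  obtain ⟨y, hy0, hy⟩ := key _ (hx none)
  choose z hz0 hz using fun i => key _ (hx (some i))
  refine ⟨x, y, z, hy0, hz0, ?_, hz⟩
  simpa using hy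

end Pool.Agent.H11.EC
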