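import Pool.Agent.H11.EC.Main
import Pool.Agent.H11.EC.SPL
import Pool.Agent.H11.EC.CORE
import Pool.Agent.H11.EC.LOW
import Pool.Agent.H11.EC.SOLV
import Pool.Agent.H11.EC.WEIL
import Pool.Agent.H11.EC.Mean

/-! Project EC: assembly. -/

set_option autoImplicit false

namespace Pool.Agent.H11.EC

open Polynomial NumberField IsDedekindDomain Finset Filter Topology

theorem t_split : S_SPLIT :=
  split_of (Pool.Agent.H29.EM.m2_of W54.ChTor.main Pool.Agent.Q247.EL.m1 Pool.Agent.Q91.EL.ram)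
    Pool.Agent.Q91.EL.ram

theorem t_core : S_CORE :=
  CORE.core EM.sieve Pool.Agent.Q91.EL.sums EM.CNT.cnt Pool.Agent.Q91.EL.ram
    Pool.Agent.Q247.EL.m1

theorem main_thm (K I : Type) [Fintype K] [DecidableEq K] [Nonempty K] [Fintype I] (f : K → ℤ[X])
    (h : I → ℤ[X]) (hyp : Hyp f h) (h6 : 6 ≤ (∏ k, f k).natDegree)
    (hσ : ∀ k, ∃ σ, SQ f h σ = {k}) :
    (∀ D : ℤ, D ≠ 0 → CurvePt (∏ k, f k) h D ℚ → Sel (∏ k, f k) h D) ∧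
    (∀ D : ℤ, D ≠ 0 → Sel (∏ k, f k) h D → ELS (∏ k, f k) h D) ∧
    (∃ δ C : ℝ, 0 < δ ∧ ∀ X : ℕ, 3 ≤ X →
      ({D : ℤ | D.natAbs ≤ X ∧ Squarefree D ∧ Sel (∏ k, f k) h D}.ncard : ℝ) ≤
        C * Real.log X ^ (-δ) *
        ({D : ℤ | D.natAbs ≤ X ∧ Squarefree D ∧ ELS (∏ k, f k) h D}.ncard : ℝ)) ∧
    ((∃ D0 : ℤ, Squarefree D0 ∧ ELS (∏ k, f k) h D0) → ∀ᶠ X : ℕ in atTop, (X : ℝ) / Real.log X ≤
      ({D : ℤ | D.natAbs ≤ X ∧ Squarefree D ∧ ELS (∏ k, f k) h D}.ncard : ℝ)) :=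
  main t_split t_core Mean.main (low (solv weil)) K I f h hyp h6 hσ

end Pool.Agent.H11.EC
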