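import Mathlib
import Pool.Agent.H11.EC.Stm

/-!
# Project EM' (helper11): twists by all `m`-th power free integers of cyclic coverings of degree `m` of `Z`

`m` even, `m ∣ deg g`; `f`, `h` as in `Stm.lean`. The curve

  `X_D : D y ^ m = G(x, w)`, `z i ² = H i (x, w)` (all `i`; the family may be empty)

is a twist of the cyclic covering `X_1 → Z` of degree `m`, `Z : z i ² = H i (x, w)`; all the twists by
classes of `ℚ*/(ℚ*)^m` are the `X_D`, `D` an `m`-th power free integer. Its coverings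
`x - θ w = d(θ) η ^ m` (with the same `z i`), `a N(d(θ)) = D c ^ m`, are étale.

GOAL. For 100 percent of the `m`-th power free `D` for which `X_D` is everywhere locally soluble no covering is.

PROOF. Write `D = D' k²`, `D'` squarefree: a covering of `X_D` with points everywhere locally gives one of
`X_{D'}` (with `m = 2`), and for these `D'` the bound of project EC holds; sum over `k` (`S_CNTM`). The lower
bound for the number of the everywhere locally soluble `X_D` is `S_LOWM`.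
-/

set_option autoImplicit false

namespace Pool.Agent.H11.EC

open Polynomial NumberField IsDedekindDomain Finset Filter Topology
open Pool.Agent.Q51.EL (Abv Par N1 pr Setup hom)

/-- the curve `X_D : D y ^ m = G(x, w)`, `z i ² = H i (x, w)` has a point over `F` -/
def CurvePtM {I : Type} (m : ℕ) (g : ℤ[X]) (h : I → ℤ[X]) (D : ℤ) (F : Type) [Field F] : Prop :=
  ∃ (x w y : F) (z : I → F), (x ≠ 0 ∨ w ≠ 0) ∧ (D : F) * y ^ m = hom g x w ∧
    ∀ i, z i ^ 2 = hom (h i) x w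

/-- the curve `X_D` is everywhere locally soluble -/
def ELSM {I : Type} (m : ℕ) (g : ℤ[X]) (h : I → ℤ[X]) (D : ℤ) : Prop :=
  CurvePtM m g h D ℝ ∧ ∀ (p : ℕ) [Fact p.Prime], CurvePtM m g h D ℚ_[p]

/-- the covering `x - θ w = d(θ) η ^ m` has a point over `F` -/
def CovPtM {I : Type} (m : ℕ) (g : ℤ[X]) (h : I → ℤ[X]) (d : ℚ[X]) (F : Type) [Field F]
    [CharZero F] : Prop :=
  ∃ (x w : F) (G : F[X]) (z : I → F), (x ≠ 0 ∨ w ≠ 0) ∧
    g.map (Int.castRingHom F) ∣ C x - C w * X - d.map (Rat.castHom F) * G ^ m ∧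
    ∀ i, z i ^ 2 = hom (h i) x w

/-- some covering of `X_D` has points over all completions of `ℚ` -/
def SelM {I : Type} (m : ℕ) (g : ℤ[X]) (h : I → ℤ[X]) (D : ℤ) : Prop :=
  ∃ d : ℚ[X], IsCoprime (g.map (Int.castRingHom ℚ)) d ∧
    (∃ c : ℚ, (g.leadingCoeff : ℚ) * Algebra.norm ℚ (AdjoinRoot.mk (g.map (Int.castRingHom ℚ)) d) =
      D * c ^ m) ∧
    CovPtM m g h d ℝ ∧ ∀ (p : ℕ) [Fact p.Prime], CovPtM m g h d ℚ_[p]

/-- `D` is not zero and not divisible by the `m`-th power of a prime -/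
def MFree (m : ℕ) (D : ℤ) : Prop := D ≠ 0 ∧ ∀ p : ℕ, p.Prime → ¬ (p : ℤ) ^ m ∣ D

/-- JOB EC-WEILM. Points modulo large primes.
Proof. Let `k = gcd(m, p - 1)` (even), `χ` a character of order `k` of `(ZMod p)*`, so that `χ ^ (k / 2)` is
the quadratic character. As in `Pool.Agent.H11.EC.weil` (`Pool/Agent/H11/EC/WEIL.lean`), with
`∑ x, (∑ j in range k, χ ^ j (u⁻¹ g(x))) ∏ i, (1 + χ ^ (k / 2) (h i (x)))`: for `x` with
`g(x) ∏ h i (x) ≠ 0` the term is zero unless `u⁻¹ g(x)` is a `k`-th power, so an `m`-th power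
(`pow_of_char` in `Pool/Graph/R_pool_sql_team_seeded_3997aac3/Q241/EB/WeilM.lean`) and all `h i (x)` are
squares; the others contribute at most `k 2 ^ r n`. Expand: the main term is `p`, the other
`k 2 ^ r - 1` terms are up to constants `∑ x, χ (P(x))` with `P = g ^ j ∏ i ∈ S, h i ^ (k / 2)`,
`(j, S) ≠ (0, ∅)`, `j < k`. These are at most `n √p`, `n = deg (g ∏ h i)`, by
`Pool.Agent.H11.EC.WG.weil` (`Pool/Agent/H11/EC/WG.lean`, proved; for MONIC polynomials whose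
multiplicities have gcd prime to the order `t` of the character; take `R = 1`): let
`e = gcd(j, k / 2)` (`= gcd(j, k)` if `S = ∅`), `t = k / e`, replace `χ` by `χ ^ e` and `P` by
`g ^ (j / e) ∏ h i ^ (k / (2 e))` over the leading coefficient; no prime `r ∣ t` divides both
`j / e` and `k / (2 e)` (`= t / 2`). The degree of this `P` can be as large as `k n`, so the bound is
`k n √p` at most, and `k 2 ^ r · k n √p + k 2 ^ r n < p`. -/
def S_WEILM : Prop := ∀ (p : ℕ) [Fact p.Prime] (I : Type) [Fintype I] (m : ℕ) (g : (ZMod p)[X])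
  (h : I → (ZMod p)[X]) (u : ZMod p), p ≠ 2 → m ≠ 0 → Even m → u ≠ 0 → Squarefree (g * ∏ i, h i) →
  1 ≤ g.natDegree → (∀ i, 1 ≤ (h i).natDegree) →
  (m ^ 2 * 2 ^ (Fintype.card I + 4) * (g * ∏ i, h i).natDegree) ^ 2 < p →
  ∃ (x y : ZMod p) (z : I → ZMod p), y ≠ 0 ∧ (∀ i, z i ≠ 0) ∧ g.eval x = u * y ^ m ∧
    ∀ i, (h i).eval x = z i ^ 2

/-- JOB EC-SOLVM. Twists with points everywhere locally.
Proof (with `S_WEILM`), as `Pool.Agent.H11.EC.solv` in `Pool/Agent/H11/EC/SOLV.lean`. `ℝ`: `n > 0` is an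
`m`-th power. `p ≤ z`: `n` is an `m`-th power in `ℤ_p`: `n = r ^ m (1 + m² z! s / r ^ m)` and `1 + m² p t`
(`t ∈ ℤ_p`) is an `m`-th power (Hensel at `1`: `|m² p t| < |m|²`); so `X_{D0 n}` is isomorphic to `X_{D0}`.
`p > z`, `p ∣ n`: the point `(ρ, 1, 0, z)` as there. Other `p`: `S_WEILM` with `u = D0 n` and Hensel
(`p ∤ m` since `p > z ≥ m`). -/
def S_SOLVM : Prop := ∀ (K I : Type) [Fintype K] [Nonempty K] [Fintype I] (f : K → ℤ[X])
  (h : I → ℤ[X]) (m : ℕ), Hyp f h → m ≠ 0 → Even m → ∀ D0 : ℤ, D0 ≠ 0 → ELSM m (∏ k, f k) h D0 →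
  ∃ z0 : ℕ, D0.natAbs ≤ z0 ∧ m ≤ z0 ∧ ∀ z : ℕ, z0 ≤ z → ∀ n : ℕ, n ≠ 0 →
    (∀ p : ℕ, p.Prime → p ∣ n → (SR f h p).Nonempty ∧ z < p) →
    ∀ r : ℤ, (∀ p : ℕ, p.Prime → p ≤ z → ¬ (p : ℤ) ∣ r) → ((m ^ 2 * z.factorial : ℕ) : ℤ) ∣ n - r ^ m →
      ELSM m (∏ k, f k) h (D0 * n)

open scoped Classical in
/-- JOB EC-LOWM. Lower bound for the number of the twists with points everywhere locally.
Proof (from `S_SOLVM`): the same as `Pool.Agent.H11.EC.low` in `Pool/Agent/H11/EC/LOW.lean`, with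
`Q = m² z!` and the numbers `D = D0 * (n * r ^ (m - 1))`, `n` squarefree with all prime divisors in `P` and
`> max z M`, `r = rep (n mod Q)`; `n r ^ (m - 1) ≡ r ^ m` modulo `Q`. They are `m`-th power free if `rep` is
squarefree (`1 ≤ m - 1 < m`, and `D0`, `n`, `r` are pairwise coprime, `m ≥ 2`). -/
def S_LOWM : Prop := ∀ (K I : Type) [Fintype K] [Nonempty K] [Fintype I] (f : K → ℤ[X])
  (h : I → ℤ[X]) (m : ℕ), Hyp f h → m ≠ 0 → Even m → ∀ D0 : ℤ, MFree m D0 → ELSM m (∏ k, f k) h D0 →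
  ∀ β C : ℝ, 0 < β → β ≤ 1 →
  (∀ N : ℕ, β * (Nat.primeCounting N : ℝ) - C ≤
    (((range (N + 1)).filter (fun p => p.Prime ∧ (SR f h p).Nonempty)).card : ℝ)) →
  ∃ c : ℝ, 0 < c ∧ ∀ᶠ X : ℕ in atTop, c * X * (Real.log X) ^ (β - 1) ≤
    ({D : ℤ | D.natAbs ≤ X ∧ MFree m D ∧ ELSM m (∏ k, f k) h D}.ncard : ℝ)

/-- JOB EC-CNTM. From squarefree integers to all integers.
Proof. Sum over `k`. For `k ≤ X ^ (1/4)` there are at most
`C (X / k²) log (X / k²) ^ (-γ) ≤ C 2 ^ γ (X / k²) (log X) ^ (-γ)` numbers `D' ∈ E` with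
`|D'| ≤ X / k²` (`X / k² ≥ √X` is large enough; use the integer part), for `k > X ^ (1/4)` at most
`3 X / k²`, together `≤ 6 X ^ (3/4)` (for `k ≤ √X`; `D' ≠ 0` so `k² ≤ X`). -/
def S_CNTM : Prop := ∀ (E : Set ℤ) (γ C : ℝ), 0 < γ →
  (∀ᶠ X : ℕ in atTop, ({D : ℤ | D.natAbs ≤ X ∧ D ≠ 0 ∧ D ∈ E}.ncard : ℝ) ≤
    C * X * Real.log X ^ (-γ)) →
  ∃ C' : ℝ, ∀ᶠ X : ℕ in atTop,
    ({D : ℤ | D.natAbs ≤ X ∧ D ≠ 0 ∧ ∃ (D' k : ℤ), D' ∈ E ∧ D = D' * k ^ 2}.ncard : ℝ) ≤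
      C' * X * Real.log X ^ (-γ)

end Pool.Agent.H11.EC
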