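import Mathlib
import Pool.Agent.H11.EC.StmM
import Pool.Agent.H11.EC.SOLV

/-! JOB EC-SOLVM (helper4): twists with points everywhere locally (after `SOLV.lean`). -/

set_option autoImplicit false

namespace Pool.Agent.H11.EC.SOLVM

open Polynomial Finset
open Pool.Agent.Q51.EL (hom)
open Pool.Agent.W5h36.EL (sep_bez)
open Pool.Agent.W262.TW (padic_sq)
open Pool.Agent.H11.EC

/-- `m`-th powers in `ℤ_p` from congruences modulo `m² p` -/
lemma pow_of_mod (p : ℕ) [hp : Fact p.Prime] (m : ℕ) (hm : m ≠ 0) (n r : ℤ) (hr : ¬ (p : ℤ) ∣ r)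
    (N : ℤ) (hN : (p : ℤ) ∣ N) (h : (m : ℤ) ^ 2 * N ∣ n - r ^ m) : ∃ z : ℤ_[p], z ^ m = n := by
  have hr1 : ‖(r : ℤ_[p])‖ = 1 := by
    have h5 : ¬ ‖(r : ℤ_[p])‖ < 1 := by
      rw [PadicInt.norm_intCast_lt_one_iff]
      exact hr
    exact le_antisymm (PadicInt.norm_le_one _) (not_lt.1 h5)
  have hm0 : (0 : ℝ) < ‖(m : ℤ_[p])‖ := norm_pos_iff.2 (by exact_mod_cast hm)
  have hN1 : ‖((N : ℤ) : ℤ_[p])‖ < 1 := by
    rw [PadicInt.norm_intCast_lt_one_iff]; exact hN
  have e1 : ∀ w : ℤ_[p], (aeval w) (X ^ m - C (n : ℤ_[p]) : ℤ_[p][X]) = w ^ m - n := by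
    intro w; simp
  have e2 : ∀ w : ℤ_[p], (aeval w) (derivative (X ^ m - C (n : ℤ_[p]) : ℤ_[p][X])) =
      m * w ^ (m - 1) := by
    intro w; simp [derivative_X_pow]
  obtain ⟨c, hc⟩ := h
  obtain ⟨z, hz, -⟩ := hensels_lemma (p := p) (R := ℤ_[p]) (F := X ^ m - C (n : ℤ_[p]))
    (a := (r : ℤ_[p])) (by
      rw [e1, e2, norm_mul, norm_pow, hr1, one_pow, mul_one]
      have e3 : (r : ℤ_[p]) ^ m - n = -((m : ℤ_[p]) ^ 2 * (N : ℤ_[p]) * (c : ℤ_[p])) := by
        have := congrArg (fun x : ℤ => (x : ℤ_[p])) hc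
        push_cast at this
        rw [← this]; ring
      rw [e3, norm_neg, norm_mul, norm_mul, norm_pow]
      have hc1 : ‖((c : ℤ) : ℤ_[p])‖ ≤ 1 := PadicInt.norm_le_one _
      calc ‖(m : ℤ_[p])‖ ^ 2 * ‖((N : ℤ) : ℤ_[p])‖ * ‖((c : ℤ) : ℤ_[p])‖
          ≤ ‖(m : ℤ_[p])‖ ^ 2 * ‖((N : ℤ) : ℤ_[p])‖ * 1 :=
            mul_le_mul_of_nonneg_left hc1 (by positivity)
        _ < ‖(m : ℤ_[p])‖ ^ 2 * 1 := by
            rw [mul_one]; exact mul_lt_mul_of_pos_left hN1 (by positivity)
        _ = _ := mul_one _)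
  rw [e1] at hz
  exact ⟨z, sub_eq_zero.1 hz⟩

/-- solutions of `c z ^ m = b` in `ℤ_p` -/
lemma pow_pad (p : ℕ) [hp : Fact p.Prime] (m : ℕ) (hm : ¬ p ∣ m) (c b s : ℤ)
    (hc : ¬ (p : ℤ) ∣ c) (hs : ¬ (p : ℤ) ∣ s) (h : (p : ℤ) ∣ c * s ^ m - b) :
    ∃ z : ℤ_[p], c * z ^ m = b := by
  have hpi : Prime (p : ℤ) := Nat.prime_iff_prime_int.1 hp.out
  have h2 : ¬ (p : ℤ) ∣ c * (m * s ^ (m - 1)) := by
    intro h2
    rcases hpi.dvd_or_dvd h2 with h3 | h3
    · exact hc h3
    · rcases hpi.dvd_or_dvd h3 with h4 | h4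
      · exact hm (by exact_mod_cast h4)
      · exact hs (hpi.dvd_of_dvd_pow h4)
  have e1 : ∀ w : ℤ_[p], (aeval w) (C (c : ℤ_[p]) * X ^ m - C (b : ℤ_[p]) : ℤ_[p][X]) =
      c * w ^ m - b := by
    intro w; simp
  have e2 : ∀ w : ℤ_[p], (aeval w) (derivative (C (c : ℤ_[p]) * X ^ m - C (b : ℤ_[p]) : ℤ_[p][X])) =
      c * (m * w ^ (m - 1)) := by
    intro w; simp [derivative_X_pow]
  obtain ⟨z, hz, -⟩ := hensels_lemma (p := p) (R := ℤ_[p])
    (F := C (c : ℤ_[p]) * X ^ m - C (b : ℤ_[p])) (a := (s : ℤ_[p])) (by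
      rw [e1, e2]
      have h4 : ‖((c * (m * s ^ (m - 1)) : ℤ) : ℤ_[p])‖ = 1 := by
        have h5 : ¬ ‖((c * (m * s ^ (m - 1)) : ℤ) : ℤ_[p])‖ < 1 := by
          rw [PadicInt.norm_intCast_lt_one_iff]
          exact h2
        exact le_antisymm (PadicInt.norm_le_one _) (not_lt.1 h5)
      push_cast at h4
      rw [h4]
      have h6 : ‖((c * s ^ m - b : ℤ) : ℤ_[p])‖ < 1 := by
        rw [PadicInt.norm_intCast_lt_one_iff]; exact h
      push_cast at h6
      simpa using h6)
  rw [e1] at hz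
  exact ⟨z, sub_eq_zero.1 hz⟩

open Solv in
/-- EC-SOLVM -/
theorem main (hW : S_WEILM) : S_SOLVM := by
  classical
  intro K I _ _ _ f h e hyp he0 hev0 D0 hD0 hELS
  set g : ℤ[X] := ∏ k, f k with hg
  set H : ℤ[X] := g * ∏ i, h i with hH
  obtain ⟨R, A, B, hR, hb⟩ := sep_bez H hyp.sep
  clear_value H
  clear_value g
  have hfk : ∀ k, 1 ≤ (f k).natDegree := by
    intro k
    have e1 : ((f k).map (Int.castRingHom ℚ)).natDegree = (f k).natDegree :=
      natDegree_map_eq_of_injective (RingHom.injective_int (Int.castRingHom ℚ)) _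
    rw [← e1]
    exact (hyp.irr k).natDegree_pos
  have hfk0 : ∀ k, f k ≠ 0 := by
    intro k h
    have := hfk k
    rw [h, natDegree_zero] at this
    omega
  have hgdeg : 1 ≤ g.natDegree := by
    rw [hg, natDegree_prod _ _ fun k _ => hfk0 k]
    obtain ⟨k⟩ := ‹Nonempty K›
    exact (hfk k).trans (single_le_sum (f := fun k => (f k).natDegree) (fun _ _ => Nat.zero_le _)
      (mem_univ k))
  have hg0 : g ≠ 0 := by
    intro h
    rw [h, natDegree_zero] at hgdeg
    omega
  have hh0 : ∀ i, h i ≠ 0 := by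
    intro i hi
    have := hyp.pos i
    rw [hi, natDegree_zero] at this
    omega
  set Lc : ℕ := ∏ i, (h i).leadingCoeff.natAbs with hLc
  set n0 : ℕ := (e ^ 2 * 2 ^ (Fintype.card I + 4) * H.natDegree) ^ 2 with hn0
  refine ⟨max (max (max (max R.natAbs g.leadingCoeff.natAbs) (max 2 Lc)) (max D0.natAbs n0)) e,
    le_trans (le_trans (le_max_left _ _) (le_max_right _ _)) (le_max_left _ _), le_max_right _ _, ?_⟩
  intro z hz' m hm hmp r hr hmr
  have hz : max (max (max R.natAbs g.leadingCoeff.natAbs) (max 2 Lc)) (max D0.natAbs n0) ≤ z :=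
    le_trans (le_max_left _ _) hz'
  have hze : e ≤ z := le_trans (le_max_right _ _) hz'
  have hzD : D0.natAbs ≤ z := le_trans (le_trans (le_max_left _ _) (le_max_right _ _)) hz
  have hz4 : n0 ≤ z := le_trans (le_trans (le_max_right _ _) (le_max_right _ _)) hz
  have hz1 : R.natAbs ≤ z := le_trans (le_trans (le_trans (le_max_left _ _) (le_max_left _ _))
    (le_max_left _ _)) hz
  have hz2 : g.leadingCoeff.natAbs ≤ z := le_trans (le_trans (le_trans (le_max_right _ _)
    (le_max_left _ _)) (le_max_left _ _)) hz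
  have hz3 : 2 ≤ z := le_trans (le_trans (le_trans (le_max_left _ _)
    (le_max_right _ _)) (le_max_left _ _)) hz
  have hz5 : Lc ≤ z := le_trans (le_trans (le_trans (le_max_right _ _)
    (le_max_right _ _)) (le_max_left _ _)) hz
  have hnd : ∀ (p : ℕ) (a : ℤ), a ≠ 0 → a.natAbs ≤ z → z < p → ¬ (p : ℤ) ∣ a := by
    intro p a ha h1 h2 h3
    have h4 := Nat.le_of_dvd (Int.natAbs_pos.2 ha) (Int.natCast_dvd.1 h3)
    omega
  constructor
  · have hm0 : (0 : ℝ) < m := by exact_mod_cast Nat.pos_of_ne_zero hm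
    obtain ⟨x, w, y, ζ, hxw, hy, hζ⟩ := hELS.1
    refine ⟨x, w, y / (m : ℝ) ^ ((e : ℝ)⁻¹), ζ, hxw, ?_, hζ⟩
    rw [← hy, div_pow, Real.rpow_inv_natCast_pow hm0.le he0]
    push_cast
    field_simp
  · intro p hp
    by_cases hpz : p ≤ z
    · have hpf : (p : ℤ) ∣ (z.factorial : ℤ) := by
        exact_mod_cast Nat.dvd_factorial hp.out.pos hpz
      obtain ⟨ζ, hζ⟩ := pow_of_mod p e he0 m r (hr p hp.out hpz) (z.factorial : ℤ) hpf (by
        have := hmr
        push_cast at this ⊢
        exact this)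
      have hζ' : (ζ : ℚ_[p]) ^ e = m := by
        have := congrArg (fun w : ℤ_[p] => (w : ℚ_[p])) hζ
        simpa using this
      have hm0 : (m : ℚ_[p]) ≠ 0 := by exact_mod_cast hm
      have hζ0 : (ζ : ℚ_[p]) ≠ 0 := by
        intro h0
        rw [h0] at hζ'
        apply hm0
        rw [← hζ']
        simp [he0]
      obtain ⟨x, w, y, η, hxw, hy, hη⟩ := hELS.2 p
      refine ⟨x, w, y / ζ, η, hxw, ?_, hη⟩
      rw [← hy, div_pow, hζ']
      push_cast
      field_simp
    · push Not at hpz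
      have hpi : Prime (p : ℤ) := Nat.prime_iff_prime_int.1 hp.out
      have hpR := hnd p R hR hz1 hpz
      have hpg : ¬ (p : ℤ) ∣ g.leadingCoeff := hnd p _ (leadingCoeff_ne_zero.2 hg0) hz2 hpz
      have hp2 : p ≠ 2 := by omega
      have hph : ∀ i, ¬ (p : ℤ) ∣ (h i).leadingCoeff := by
        intro i
        refine hnd p _ (leadingCoeff_ne_zero.2 (hh0 i)) (le_trans ?_ hz5) hpz
        exact Nat.le_of_dvd (Nat.pos_of_ne_zero (prod_ne_zero_iff.2 fun j _ =>
          Int.natAbs_ne_zero.2 (leadingCoeff_ne_zero.2 (hh0 j)))) (dvd_prod_of_mem _ (mem_univ i))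
      by_cases hpm : p ∣ m
      · obtain ⟨⟨k, hk⟩, -⟩ := hmp p hp.out hpm
        unfold SR at hk
        obtain ⟨-, θ, hθ, hsq⟩ := mem_filter.1 hk
        have hgθ : (p : ℤ) ∣ g.eval θ := by
          rw [hg, eval_prod]
          exact hθ.trans (dvd_prod_of_mem _ (mem_univ k))
        -- the bezout identity at θ
        have hbθ := congrArg (eval θ) hb
        rw [eval_add, eval_mul, eval_mul, eval_C] at hbθ
        have hHθ : H.eval θ = g.eval θ * ∏ i, (h i).eval θ := by
          rw [hH, eval_mul, eval_prod]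
        have hdH : (derivative H).eval θ = (derivative g).eval θ * ∏ i, (h i).eval θ +
            g.eval θ * (derivative (∏ i, h i)).eval θ := by
          rw [hH, derivative_mul, eval_add, eval_mul, eval_mul, eval_prod]
        have hn1 : ¬ (p : ℤ) ∣ (derivative g).eval θ * ∏ i, (h i).eval θ := by
          intro hdv
          apply hpR
          rw [← hbθ, hHθ, hdH]
          refine dvd_add (Dvd.dvd.mul_left (Dvd.dvd.mul_right hgθ _) _)
            (Dvd.dvd.mul_left (dvd_add hdv (Dvd.dvd.mul_right hgθ _)) _)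
        have hn2 : ¬ (p : ℤ) ∣ (derivative g).eval θ := fun hdv => hn1 (Dvd.dvd.mul_right hdv _)
        have hn3 : ∀ i, ¬ (p : ℤ) ∣ (h i).eval θ := fun i hdv =>
          hn1 (Dvd.dvd.mul_left (hdv.trans (dvd_prod_of_mem (fun i => (h i).eval θ) (mem_univ i))) _)
        obtain ⟨ρ, hρ, hρθ⟩ := lift_zero g p θ hgθ hn2
        have hsqs : ∀ i, ∃ w : ℤ_[p], w ^ 2 = (h i).eval₂ (Int.castRingHom ℤ_[p]) ρ := by
          intro i
          obtain ⟨s, hs⟩ := hsq i
          refine sq_pad p hp2 _ s ?_ ?_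
          · intro hps
            apply hn3 i
            have h1 : (p : ℤ) ∣ s ^ 2 := dvd_pow hps two_ne_zero
            have := dvd_sub h1 hs
            simpa using this
          · have h1 := cong p (h i) ρ θ hρθ
            have h2 : ‖(((s ^ 2 - (h i).eval θ : ℤ)) : ℤ_[p])‖ < 1 := by
              rw [PadicInt.norm_intCast_lt_one_iff]
              exact hs
            have e : (s : ℤ_[p]) ^ 2 - (h i).eval₂ (Int.castRingHom ℤ_[p]) ρ =
                (((s ^ 2 - (h i).eval θ : ℤ)) : ℤ_[p]) +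
                  ((((h i).eval θ : ℤ) : ℤ_[p]) - (h i).eval₂ (Int.castRingHom ℤ_[p]) ρ) := by
              push_cast
              ring
            rw [e]
            exact lt_of_le_of_lt (PadicInt.nonarchimedean _ _) (max_lt h2 h1)
        choose ω hω using hsqs
        have hcast : ∀ q : ℤ[X], hom q ((ρ : ℤ_[p]) : ℚ_[p]) 1 =
            ((q.eval₂ (Int.castRingHom ℤ_[p]) ρ : ℤ_[p]) : ℚ_[p]) := by
          intro q
          rw [hom_one]
          have h2 := hom_eval₂ q (Int.castRingHom ℤ_[p]) (PadicInt.Coe.ringHom (p := p)) ρ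
          have h3 : (PadicInt.Coe.ringHom (p := p)).comp (Int.castRingHom ℤ_[p]) =
              Int.castRingHom ℚ_[p] := RingHom.ext_int _ _
          rw [h3] at h2
          exact h2.symm
        refine ⟨(ρ : ℚ_[p]), 1, 0, fun i => ((ω i : ℤ_[p]) : ℚ_[p]), Or.inr one_ne_zero, ?_, ?_⟩
        · rw [hcast, hρ]
          simp [he0]
        · intro i
          rw [hcast, ← hω i]
          simp
      · have hpd0 : ¬ (p : ℤ) ∣ D0 * m := by
          intro h
          rcases hpi.dvd_or_dvd h with h | h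
          · exact hnd p D0 hD0 hzD hpz h
          · exact hpm (by exact_mod_cast h)
        have hu : ((D0 * m : ℤ) : ZMod p) ≠ 0 :=
          fun h => hpd0 ((ZMod.intCast_zmod_eq_zero_iff_dvd _ p).1 h)
        have hlc : ∀ q : ℤ[X], ¬ (p : ℤ) ∣ q.leadingCoeff →
            (q.map (Int.castRingHom (ZMod p))).natDegree = q.natDegree := by
          intro q hq
          refine natDegree_map_of_leadingCoeff_ne_zero _ ?_
          rw [eq_intCast]
          exact fun h => hq ((ZMod.intCast_zmod_eq_zero_iff_dvd _ p).1 h)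
        have hRp : ((R : ℤ) : ZMod p) ≠ 0 :=
          fun h => hpR ((ZMod.intCast_zmod_eq_zero_iff_dvd _ p).1 h)
        have hmapH : H.map (Int.castRingHom (ZMod p)) = g.map (Int.castRingHom (ZMod p)) *
            ∏ i, (h i).map (Int.castRingHom (ZMod p)) := by
          rw [hH, Polynomial.map_mul, Polynomial.map_prod]
        have hsqf : Squarefree (g.map (Int.castRingHom (ZMod p)) *
            ∏ i, (h i).map (Int.castRingHom (ZMod p))) := by
          rw [← hmapH]
          have hsep : (H.map (Int.castRingHom (ZMod p))).Separable := by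
            have hb' := congrArg (Polynomial.map (Int.castRingHom (ZMod p))) hb
            have e0 : (derivative H).map (Int.castRingHom (ZMod p)) =
                derivative (H.map (Int.castRingHom (ZMod p))) := (derivative_map _ _).symm
            have e2 : (A * H).map (Int.castRingHom (ZMod p)) = A.map (Int.castRingHom (ZMod p)) *
                H.map (Int.castRingHom (ZMod p)) := Polynomial.map_mul _
            have e3 : (B * derivative H).map (Int.castRingHom (ZMod p)) =
                B.map (Int.castRingHom (ZMod p)) * (derivative H).map (Int.castRingHom (ZMod p)) :=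
              Polynomial.map_mul _
            rw [Polynomial.map_add, e2, e3, e0, Polynomial.map_C, eq_intCast] at hb'
            refine ⟨C (((R : ℤ) : ZMod p)⁻¹) * A.map (Int.castRingHom (ZMod p)),
              C (((R : ℤ) : ZMod p)⁻¹) * B.map (Int.castRingHom (ZMod p)), ?_⟩
            have e1 : C (((R : ℤ) : ZMod p)⁻¹) * C ((R : ℤ) : ZMod p) = 1 := by
              rw [← C_mul, inv_mul_cancel₀ hRp, C_1]
            rw [← e1, ← hb']
            ring
          exact hsep.squarefree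
        have hdeg : (e ^ 2 * 2 ^ (Fintype.card I + 4) * (g.map (Int.castRingHom (ZMod p)) *
            ∏ i, (h i).map (Int.castRingHom (ZMod p))).natDegree) ^ 2 < p := by
          refine lt_of_le_of_lt ?_ (lt_of_le_of_lt hz4 hpz)
          rw [← hmapH, hn0]
          exact Nat.pow_le_pow_left (Nat.mul_le_mul_left _ natDegree_map_le) 2
        obtain ⟨x, y, ζ, hy, hζ, hxy, hxζ⟩ := hW p I e (g.map (Int.castRingHom (ZMod p)))
          (fun i => (h i).map (Int.castRingHom (ZMod p))) ((D0 * m : ℤ) : ZMod p) hp2 he0 hev0 hu hsqf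
          (by rw [hlc g hpg]; exact hgdeg) (fun i => by rw [hlc (h i) (hph i)]; exact hyp.pos i) hdeg
        obtain ⟨x', rfl⟩ := ZMod.intCast_surjective x
        simp only [eval_intCast_map, eq_intCast, Int.cast_id] at hxy hxζ
        obtain ⟨s, rfl⟩ := ZMod.intCast_surjective y
        have hps : ¬ (p : ℤ) ∣ s := fun h => hy ((ZMod.intCast_zmod_eq_zero_iff_dvd _ p).2 h)
        have hpe : ¬ p ∣ e := fun h => by
          have := Nat.le_of_dvd (Nat.pos_of_ne_zero he0) h
          omega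
        obtain ⟨w, hw⟩ := pow_pad p e hpe (D0 * m) (g.eval x') s hpd0 hps (by
          rw [← ZMod.intCast_zmod_eq_zero_iff_dvd]
          push_cast at hxy ⊢
          rw [hxy]; ring)
        have hw' : ((D0 * m : ℤ) : ℚ_[p]) * (w : ℚ_[p]) ^ e = ((g.eval x' : ℤ) : ℚ_[p]) := by
          have := congrArg (fun w : ℤ_[p] => (w : ℚ_[p])) hw
          simpa using this
        have hN2 : ∀ i, ¬ (p : ℤ) ∣ (h i).eval x' := by
          intro i h
          have h1 := (ZMod.intCast_zmod_eq_zero_iff_dvd _ p).2 h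
          rw [hxζ i] at h1
          exact (pow_ne_zero 2 (hζ i)) h1
        have hsqs : ∀ i, ∃ w : ℤ_[p], w ^ 2 = (((h i).eval x' : ℤ) : ℤ_[p]) := by
          intro i
          exact padic_sq (p := p) hp2 (hN2 i) ⟨ζ i, by rw [hxζ i]; ring⟩
        choose ω hω using hsqs
        have hd0 : ((D0 * m : ℤ) : ℚ_[p]) ≠ 0 := by
          have : D0 * (m : ℤ) ≠ 0 := mul_ne_zero hD0 (by exact_mod_cast hm)
          exact_mod_cast this
        have hev : ∀ q : ℤ[X], hom q ((x' : ℤ) : ℚ_[p]) 1 = ((q.eval x' : ℤ) : ℚ_[p]) := by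
          intro q
          rw [hom_one]
          have e' := eval₂_at_apply (p := q) (Int.castRingHom ℚ_[p]) x'
          rw [eq_intCast, eq_intCast] at e'
          exact e'
        refine ⟨x', 1, w, fun i => ((ω i : ℤ_[p]) : ℚ_[p]),
          Or.inr one_ne_zero, ?_, ?_⟩
        · rw [hev, hw']
        · intro i
          rw [hev]
          have := congrArg (fun w : ℤ_[p] => (w : ℚ_[p])) (hω i)
          simpa using this


end Pool.Agent.H11.EC.SOLVM
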