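import Pool.Agent.H11.V.R_seed8_H435R3_Weil_Main

/-!
# Weil's bound for `∑ χ(P(x)) conj χ(R(x))`, general polynomials

(helper11: the same with the gcd of all multiplicities.) Adaptation of the files `Pool.Agent.H435R3.Weil.{Irr, NV0, NV1, COR, CRD, Bound, Main}`: the root of
multiplicity prime to the order of the character is in an algebraically closed field.
-/

set_option autoImplicit false
set_option linter.all false

namespace Pool.Agent.H11.EC.WG

open Polynomial Finset
open Pool.Agent.H341R2 (T T_spec natDegree_T_le)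
open Pool.Agent.H435R3.Weil (coeff_zero_pow rm_pow rm_comp crd_dim)

/-- the gcd of `t` and the multiplicities of the roots of `f` in an algebraically closed field is 1 -/
def CopG {F : Type} [Field F] (t : ℕ) (f : F[X]) : Prop :=
  ∃ (Om : Type) (_ : Field Om) (_ : IsAlgClosed Om) (ι : F →+* Om), ∀ r : ℕ, r.Prime → r ∣ t →
    ∃ v : Om, ¬ r ∣ rootMultiplicity v (f.map ι)

theorem CopG.map {F E : Type} [Field F] [Field E] [Algebra F E] [Algebra.IsAlgebraic F E] {t : ℕ}
    {f : F[X]} (h : CopG t f) : CopG t (f.map (algebraMap F E)) := by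
  obtain ⟨Om, i1, i2, ι, hv⟩ := h
  let _ : Algebra F Om := ι.toAlgebra
  let j : E →ₐ[F] Om := IsAlgClosed.lift
  refine ⟨Om, i1, i2, j.toRingHom, ?_⟩
  have : (f.map (algebraMap F E)).map j.toRingHom = f.map ι := by
    rw [Polynomial.map_map]
    congr 1
    exact j.comp_algebraMap
  rw [this]
  exact hv

theorem irr {F Om : Type} [Field F] [Field Om] (ι : F →+* Om) {t : ℕ} (ht : 2 ≤ t) (f : F[X]) (hf : f ≠ 0) (e : F)
    (he : e ≠ 0) (hv : ∀ r : ℕ, r.Prime → r ∣ t → ∃ v : Om, ¬ r ∣ rootMultiplicity v (f.map ι)) :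
    Irreducible (X ^ t - C (algebraMap F[X] (RatFunc F) (C e) / algebraMap F[X] (RatFunc F) f) :
      (RatFunc F)[X]) := by
  set φ : F[X] →+* RatFunc F := algebraMap F[X] (RatFunc F) with hφ
  have hinj : Function.Injective φ := RatFunc.algebraMap_injective F
  set c : RatFunc F := φ (C e) / φ f with hc
  have hφf : φ f ≠ 0 := by rw [map_ne_zero_iff _ hinj]; exact hf
  have hmon : (X ^ t - C c : (RatFunc F)[X]).Monic := monic_X_pow_sub_C c (by omega)
  have hnd : (X ^ t - C c : (RatFunc F)[X]).natDegree = t := natDegree_X_pow_sub_C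
  have hne1 : (X ^ t - C c : (RatFunc F)[X]) ≠ 1 := by
    intro h
    have := congrArg natDegree h
    rw [hnd, natDegree_one] at this
    omega
  rw [hmon.irreducible_iff_lt_natDegree_lt hne1]
  intro g hg hgd hdvd
  rw [mem_Ioc, hnd] at hgd
  set k := g.natDegree with hk
  have h1 := coeff_zero_pow t (by omega) c g hg hdvd
  rw [← hk] at h1
  -- write the constant coefficient as a fraction
  obtain ⟨u, w, hw0, huw⟩ := IsFractionRing.div_surjective (A := F[X]) (g.coeff 0)
  have hw : w ≠ 0 := nonZeroDivisors.ne_zero hw0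
  have hφw : φ w ≠ 0 := by rw [map_ne_zero_iff _ hinj]; exact hw
  rw [← huw, hc, div_pow, div_pow] at h1
  have h2 : φ (u ^ t * f ^ k) = φ ((-1) ^ (k * t) * C e ^ k * w ^ t) := by
    rw [map_mul, map_mul, map_mul, map_pow, map_pow, map_pow, map_pow, map_pow]
    have h3 : φ u ^ t / φ w ^ t = (-1) ^ (k * t) * (φ (C e) ^ k / φ f ^ k) := h1
    rw [div_eq_iff (pow_ne_zero _ hφw)] at h3
    rw [h3, map_neg, map_one]
    field_simp
  have h3 : u ^ t * f ^ k = (-1) ^ (k * t) * C e ^ k * w ^ t := hinj h2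
  have hCe : (C e : F[X]) ≠ 0 := C_ne_zero.2 he
  have hrhs : (-1 : F[X]) ^ (k * t) * C e ^ k * w ^ t ≠ 0 :=
    mul_ne_zero (mul_ne_zero (pow_ne_zero _ (neg_ne_zero.2 one_ne_zero)) (pow_ne_zero _ hCe))
      (pow_ne_zero _ hw)
  have hu : u ≠ 0 := by
    rintro rfl
    rw [← h3, zero_pow (by omega), zero_mul] at hrhs
    exact hrhs rfl
  have hmapne : ∀ g : F[X], g ≠ 0 → g.map ι ≠ 0 := fun g hg =>
    (Polynomial.map_ne_zero_iff ι.injective).2 hg
  have h6 : ∀ v : Om, t ∣ k * rootMultiplicity v (f.map ι) := by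
   intro v
   have h4 := congrArg (fun g => rootMultiplicity v (g.map ι)) h3
   simp only [Polynomial.map_mul, Polynomial.map_pow, Polynomial.map_neg, Polynomial.map_one,
     map_C] at h4
   have hrhs' : (-1 : Om[X]) ^ (k * t) * C (ι e) ^ k * (w.map ι) ^ t ≠ 0 := by
     have := hmapne _ hrhs
     simpa only [Polynomial.map_mul, Polynomial.map_pow, Polynomial.map_neg, Polynomial.map_one,
       map_C] using this
   rw [rootMultiplicity_mul (mul_ne_zero (pow_ne_zero _ (hmapne u hu)) (pow_ne_zero _ (hmapne f hf))),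
     rootMultiplicity_mul hrhs', rm_pow (u.map ι) v (hmapne u hu), rm_pow (f.map ι) v (hmapne f hf),
     rm_pow (w.map ι) v (hmapne w hw)] at h4
   have h5 : rootMultiplicity v ((-1 : Om[X]) ^ (k * t) * C (ι e) ^ k) = 0 := by
     have : (-1 : Om[X]) ^ (k * t) * C (ι e) ^ k = C ((-1) ^ (k * t) * (ι e) ^ k) := by
       rw [C_mul, C_pow, C_pow, C_neg, C_1]
     rw [this, rootMultiplicity_C]
   rw [h5, zero_add] at h4
   have : k * rootMultiplicity v (f.map ι) = t * rootMultiplicity v (w.map ι) -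
       t * rootMultiplicity v (u.map ι) := by
     omega
   rw [this, ← Nat.mul_sub]
   exact Dvd.intro _ rfl
  have h7 : t ∣ k := by
    have hg0 : 0 < Nat.gcd t k := Nat.gcd_pos_of_pos_left _ (by omega)
    have h71 : ∀ v : Om, t / Nat.gcd t k ∣ rootMultiplicity v (f.map ι) := by
      intro v
      refine Nat.Coprime.dvd_of_dvd_mul_left (Nat.coprime_div_gcd_div_gcd hg0) ?_
      obtain ⟨a, ha⟩ := h6 v
      refine ⟨a, ?_⟩
      apply Nat.eq_of_mul_eq_mul_left hg0
      rw [← mul_assoc, ← mul_assoc, Nat.mul_div_cancel' (Nat.gcd_dvd_right t k),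
        Nat.mul_div_cancel' (Nat.gcd_dvd_left t k), ha]
    by_contra hn
    have h72 : t / Nat.gcd t k ≠ 1 := by
      intro h1
      apply hn
      have h73 := Nat.div_mul_cancel (Nat.gcd_dvd_left t k)
      rw [h1, one_mul] at h73
      rw [← h73]
      exact Nat.gcd_dvd_right t k
    obtain ⟨r, hr, hrd⟩ := Nat.exists_prime_and_dvd h72
    obtain ⟨v, hv'⟩ := hv r hr (hrd.trans (Nat.div_dvd_of_dvd (Nat.gcd_dvd_left t k)))
    exact hv' (hrd.trans (h71 v))
  have h8 := Nat.le_of_dvd hgd.1 h7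
  have h9 : t / 2 < t := Nat.div_lt_self (by omega) (by norm_num)
  omega

namespace NV0h

theorem core {F : Type} [Field F] [Fintype F] {t Q D q : ℕ} (ht : 2 ≤ t) (f : F[X])
    (hf0 : f.eval 0 ≠ 0) (hq : Fintype.card F = q) (hqt : q = t * Q + 1)
    (hpow : CopG t f) (k : Fin t → F[X])
    (hk : ∀ i, (k i).natDegree ≤ D) (hdeg : t * D + (t - 1) * f.natDegree < q)
    (hdvd : X ^ q ∣ ∑ i : Fin t, k i * f ^ ((i : ℕ) * Q)) : ∀ i, k i = 0 := by
  classical
  have ht0 : 0 < t := by omega
  have hfne : f ≠ 0 := by rintro rfl; simp at hf0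
  obtain ⟨A, hA⟩ : ∃ A : F[X][X], A = ∑ i : Fin t, C (k i) * X ^ (i : ℕ) := ⟨_, rfl⟩
  obtain ⟨B, hB⟩ : ∃ B : F[X][X], B = C f * X ^ t - C (C (f.eval 0)) := ⟨_, rfl⟩
  have hAcoeff : ∀ i : Fin t, A.coeff i = k i := by
    intro i
    rw [hA, finsetSum_coeff, Finset.sum_eq_single i]
    · simp
    · intro j _ hj
      rw [coeff_C_mul, coeff_X_pow, if_neg (fun h => hj (Fin.ext h.symm)), mul_zero]
    · intro h; exact absurd (Finset.mem_univ _) h
  have hAdeg : A.natDegree ≤ t - 1 := by
    rw [hA]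
    refine natDegree_sum_le_of_forall_le _ _ (fun i _ => ?_)
    refine (natDegree_C_mul_X_pow_le _ _).trans ?_
    have := i.2
    omega
  have hAcoeff' : ∀ n, (A.coeff n).natDegree ≤ D := by
    intro n
    by_cases hn : n < t
    · have := hAcoeff ⟨n, hn⟩
      rw [show A.coeff n = k ⟨n, hn⟩ from this]
      exact hk _
    · rw [coeff_eq_zero_of_natDegree_lt (by omega)]
      simp
  have hBdeg : B.natDegree ≤ t := by
    rw [hB]
    refine (natDegree_sub_le _ _).trans ?_
    rw [natDegree_C]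
    exact max_le (natDegree_C_mul_X_pow_le _ _) (Nat.zero_le _)
  have hBcoeff : ∀ n, (B.coeff n).natDegree ≤ f.natDegree := by
    intro n
    rw [hB, coeff_sub, coeff_C_mul, coeff_X_pow, coeff_C]
    split_ifs with h1 h2
    · omega
    · simp
    · simp
    · simp
  by_contra hne
  push Not at hne
  obtain ⟨i0, hi0⟩ := hne
  have hAne : A ≠ 0 := by
    intro h
    apply hi0
    rw [← hAcoeff i0, h, coeff_zero]
  -- the resultant
  obtain ⟨R, hR⟩ : ∃ R : F[X], R = resultant A B A.natDegree t := ⟨_, rfl⟩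
  obtain ⟨P, S, _, _, hPS⟩ := exists_mul_add_mul_eq_C_resultant A B (m := A.natDegree) (n := t) le_rfl
    hBdeg (Or.inr ht0.ne')
  rw [← hR] at hPS
  have hRdvd : X ^ q ∣ R := by
    have h1 := congrArg (eval (f ^ Q)) hPS
    rw [eval_C, eval_add, eval_mul, eval_mul] at h1
    rw [← h1]
    refine dvd_add (Dvd.dvd.mul_right ?_ _) (Dvd.dvd.mul_right ?_ _)
    · have h2 : eval (f ^ Q) A = ∑ i : Fin t, k i * f ^ ((i : ℕ) * Q) := by
        rw [hA, eval_finsetSum]
        apply Finset.sum_congr rfl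
        intro i _
        rw [eval_mul, eval_C, eval_pow, eval_X, ← pow_mul, mul_comm Q]
      rw [h2]; exact hdvd
    · have h2 : eval (f ^ Q) B = f ^ q - C (f.eval 0) := by
        rw [hB, eval_sub, eval_mul, eval_C, eval_pow, eval_X, eval_C, ← pow_mul, ← pow_succ', mul_comm Q,
          ← hqt]
      have h3 : f ^ q = expand F q f := by
        rw [← hq, FiniteField.expand_card]
      rw [h2, h3]
      have h4 : expand F q f - C (f.eval 0) = expand F q (f - C (f.eval 0)) := by
        rw [map_sub, expand_C]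
      rw [h4]
      have h5 : X ∣ f - C (f.eval 0) := by
        rw [X_dvd_iff]
        simp [coeff_zero_eq_eval_zero]
      obtain ⟨w, hw⟩ := h5
      rw [hw, map_mul, expand_X]
      exact Dvd.intro _ rfl
  have hRdeg : R.natDegree ≤ t * D + (t - 1) * f.natDegree := by
    have h1 : R.natDegree ≤ ∑ j : Fin (A.natDegree + t), Fin.addCases (motive := fun _ => ℕ)
        (fun _ : Fin A.natDegree => f.natDegree) (fun _ : Fin t => D) j := by
      rw [hR]
      unfold resultant
      apply Pool.Agent.H435R3.Weil.NV0h.natDegree_det_le'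
      intro i j
      unfold sylvester
      rw [Matrix.of_apply]
      induction j using Fin.addCases with
      | left j =>
        rw [Fin.addCases_left, Fin.addCases_left]
        split_ifs
        · exact hBcoeff _
        · simp
      | right j =>
        rw [Fin.addCases_right, Fin.addCases_right]
        split_ifs
        · exact hAcoeff' _
        · simp
    rw [Fin.sum_univ_add] at h1
    simp only [Fin.addCases_left, Fin.addCases_right, Finset.sum_const, Finset.card_univ,
      Fintype.card_fin, smul_eq_mul] at h1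
    have h2 : A.natDegree * f.natDegree ≤ (t - 1) * f.natDegree := Nat.mul_le_mul_right _ hAdeg
    omega
  have hR0 : R = 0 := by
    by_contra h
    have h1 := natDegree_le_of_dvd hRdvd h
    rw [natDegree_X_pow] at h1
    omega
  -- over the field of fractions
  have hinj : Function.Injective (algebraMap F[X] (RatFunc F)) := RatFunc.algebraMap_injective F
  have hAm : (A.map (algebraMap F[X] (RatFunc F))).natDegree = A.natDegree :=
    natDegree_map_eq_of_injective hinj A
  have hBlead : B.coeff t = f := by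
    rw [hB, coeff_sub, coeff_C_mul, coeff_X_pow, if_pos rfl, mul_one, coeff_C, if_neg ht0.ne', sub_zero]
  have hBdeg' : B.natDegree = t := by
    apply le_antisymm hBdeg
    apply le_natDegree_of_ne_zero
    rw [hBlead]; exact hfne
  have hBm : (B.map (algebraMap F[X] (RatFunc F))).natDegree = t := by
    rw [natDegree_map_eq_of_injective hinj B, hBdeg']
  have hres : resultant (A.map (algebraMap F[X] (RatFunc F))) (B.map (algebraMap F[X] (RatFunc F))) = 0 := by
    rw [hAm, hBm, resultant_map_map, ← hR, hR0, map_zero]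
  rw [resultant_eq_zero_iff] at hres
  apply hres.2
  -- irreducibility
  obtain ⟨φ, hφ⟩ : ∃ φ : F[X] →+* RatFunc F, φ = algebraMap F[X] (RatFunc F) := ⟨_, rfl⟩
  have hφf : algebraMap F[X] (RatFunc F) f ≠ 0 := by
    rw [map_ne_zero_iff _ hinj]; exact hfne
  obtain ⟨c, hc⟩ : ∃ c : RatFunc F, c = algebraMap F[X] (RatFunc F) (C (f.eval 0)) /
    algebraMap F[X] (RatFunc F) f := ⟨_, rfl⟩
  have hBmap : B.map (algebraMap F[X] (RatFunc F)) =
      C (algebraMap F[X] (RatFunc F) f) * (X ^ t - C c) := by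
    rw [hB, Polynomial.map_sub, Polynomial.map_mul, Polynomial.map_pow, map_X, map_C, map_C, mul_sub,
      ← C_mul, hc, mul_div_cancel₀ _ hφf]
  have hirr : Irreducible (X ^ t - C c : (RatFunc F)[X]) := by
    obtain ⟨Om, _, _, ι, hv⟩ := hpow
    rw [hc]
    exact irr ι ht f hfne (f.eval 0) hf0 hv
  rw [hBmap, isCoprime_comm]
  have hunit : IsUnit (C (algebraMap F[X] (RatFunc F) f)) := isUnit_C.2 (isUnit_iff_ne_zero.2 hφf)
  rw [isCoprime_mul_unit_left_left hunit]
  rw [hirr.coprime_iff_not_dvd]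
  intro h
  have h1 : A.map (algebraMap F[X] (RatFunc F)) ≠ 0 := by
    intro h2
    apply hAne
    exact Polynomial.map_injective _ hinj (by rw [h2, Polynomial.map_zero])
  have h2 := natDegree_le_of_dvd h h1
  rw [hAm, natDegree_X_pow_sub_C] at h2
  omega

end NV0h

theorem nv0 (F : Type) [Field F] [Fintype F] (t : ℕ) (ht : 2 ≤ t) (f : F[X])
    (hf0 : f.eval 0 ≠ 0) (hpow : CopG t f) (D Q : ℕ) (hQ : t * Q + 1 = Fintype.card F)
    (hdeg : t * (D + f.natDegree) < Fintype.card F) (k : Fin t → F[X])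
    (hk : ∀ i, (k i).natDegree ≤ D)
    (hdvd : (X : F[X]) ^ Fintype.card F ∣ ∑ i : Fin t, k i * f ^ ((i : ℕ) * Q)) :
    ∀ i, k i = 0 := by
  refine NV0h.core ht f hf0 rfl hQ.symm hpow k hk ?_ hdvd
  have h1 : (t - 1) * f.natDegree ≤ t * f.natDegree := Nat.mul_le_mul_right _ (by omega)
  have h2 : t * (D + f.natDegree) = t * D + t * f.natDegree := by ring
  omega

theorem nv1 (F : Type) [Field F] [Fintype F] (t : ℕ) (ht : 2 ≤ t) (f : F[X])
    (hf0 : f.eval 0 ≠ 0) (hpow : CopG t f) (D Q : ℕ) (hQ : t * Q + 1 = Fintype.card F)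
    (hdeg : t * (D + f.natDegree) < Fintype.card F) (J : ℕ) :
    ∀ k : Fin t → ℕ → F[X], (∀ i j, (k i j).natDegree ≤ D) →
    (∑ j ∈ range J, (∑ i : Fin t, k i j * f ^ ((i : ℕ) * Q)) * X ^ (j * Fintype.card F) = 0) →
    ∀ i, ∀ j < J, k i j = 0 := by
  induction J with
  | zero => intro k _ _ i j hj; omega
  | succ J ih =>
    intro k hk hsum
    rw [Finset.sum_range_succ'] at hsum
    have e1 : ∑ j ∈ range J, (∑ i : Fin t, k i (j + 1) * f ^ ((i : ℕ) * Q)) *
        X ^ ((j + 1) * Fintype.card F) =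
        X ^ Fintype.card F * ∑ j ∈ range J, (∑ i : Fin t, k i (j + 1) * f ^ ((i : ℕ) * Q)) *
          X ^ (j * Fintype.card F) := by
      rw [Finset.mul_sum]
      refine Finset.sum_congr rfl fun j _ => ?_
      rw [Nat.succ_mul, pow_add]
      ring
    rw [e1, Nat.zero_mul, pow_zero, mul_one] at hsum
    have hdvd : (X : F[X]) ^ Fintype.card F ∣ ∑ i : Fin t, k i 0 * f ^ ((i : ℕ) * Q) := by
      refine ⟨-∑ j ∈ range J, (∑ i : Fin t, k i (j + 1) * f ^ ((i : ℕ) * Q)) *
          X ^ (j * Fintype.card F), ?_⟩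
      linear_combination hsum
    have h0 := nv0 F t ht f hf0 hpow D Q hQ hdeg (fun i => k i 0) (fun i => hk i 0) hdvd
    have h00 : ∑ i : Fin t, k i 0 * f ^ ((i : ℕ) * Q) = 0 := by
      apply Finset.sum_eq_zero
      intro i _
      rw [show k i 0 = 0 from h0 i, zero_mul]
    rw [h00, add_zero] at hsum
    have hrest := (mul_eq_zero.1 hsum).resolve_left (pow_ne_zero _ X_ne_zero)
    have h1 := ih (fun i j => k i (j + 1)) (fun i j => hk i (j + 1)) hrest
    intro i j hj
    rcases j with _ | j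
    · exact h0 i
    · exact h1 i j (by omega)

open Classical in
theorem cor (F : Type) [Field F] [Fintype F] (t : ℕ) (ht : 2 ≤ t) (f : F[X])
    (hd : 1 ≤ f.natDegree) (hf0 : f.eval 0 ≠ 0) (hns : CopG t f)
    (a : F) (ℓ J A Q : ℕ) (hQ : t * Q + 1 = Fintype.card F)
    (hA : t * (A + f.natDegree) < Fintype.card F) (hℓ : ℓ ≤ Fintype.card F) (hJ : 1 ≤ J)
    (hdim : ∑ k ∈ range ℓ, (A + k * (f.natDegree - 1) + J) < t * (J * (A + 1))) :
    ℓ * (univ.filter fun x : F => f.eval x = 0 ∨ f.eval x ^ Q = a).card ≤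
      ℓ * f.natDegree + (t - 1) * Q * f.natDegree + A + (J - 1) * Fintype.card F := by
  classical
  obtain ⟨q, hq⟩ : ∃ q, q = Fintype.card F := ⟨_, rfl⟩
  rw [← hq] at hQ hA hℓ ⊢
  have hf : f ≠ 0 := by
    rintro rfl
    simp at hd
  have ht0 : 0 < t := by omega
  let V := Fin t → Fin J → degreeLT F (A + 1)
  let W := (k : Fin ℓ) → (Fin (A + k * (f.natDegree - 1) + J) → F)
  let σ : ℕ → V →ₗ[F] F[X] := fun k => ∑ j : Fin J, ∑ i : Fin t,
    (LinearMap.mulLeft F (X ^ (j : ℕ))) ∘ₗ
      (a ^ (i : ℕ) • ((T f (ℓ + (i : ℕ) * Q) k) ∘ₗ (degreeLT F (A + 1)).subtype ∘ₗ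
        (LinearMap.proj j) ∘ₗ (LinearMap.proj i)))
  have hσ : ∀ k (v : V), σ k v = ∑ j : Fin J, X ^ (j : ℕ) *
      ∑ i : Fin t, a ^ (i : ℕ) • T f (ℓ + (i : ℕ) * Q) k (v i j : F[X]) := by
    intro k v
    simp only [σ, LinearMap.sum_apply, LinearMap.comp_apply, LinearMap.mulLeft_apply,
      LinearMap.smul_apply, LinearMap.proj_apply, Submodule.subtype_apply, Finset.mul_sum]
    rfl
  let Φ : V →ₗ[F] W := LinearMap.pi fun k => LinearMap.pi fun i => (lcoeff F (i : ℕ)) ∘ₗ (σ k)
  have hfin : Module.finrank F W < Module.finrank F V := by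
    have h1 : Module.finrank F W = ∑ k ∈ Finset.range ℓ, (A + k * (f.natDegree - 1) + J) := by
      simp only [W]
      rw [Module.finrank_pi_fintype, Finset.sum_range]
      refine Finset.sum_congr rfl fun k _ => ?_
      simp
    have h2 : Module.finrank F (degreeLT F (A + 1)) = A + 1 := by
      rw [(degreeLTEquiv F (A + 1)).finrank_eq]
      simp
    have h3 : Module.finrank F V = t * (J * (A + 1)) := by
      simp only [V]
      rw [Module.finrank_pi_fintype]
      simp only [Module.finrank_pi_fintype, h2, Finset.sum_const, Finset.card_univ, Fintype.card_fin,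
        smul_eq_mul]
    rw [h1, h3]
    exact hdim
  have hker : LinearMap.ker Φ ≠ ⊥ := LinearMap.ker_ne_bot_of_finrank_lt hfin
  obtain ⟨v, hv, hv0⟩ := (Submodule.ne_bot_iff _).1 hker
  have hdegv : ∀ w : degreeLT F (A + 1), (w : F[X]).natDegree ≤ A := by
    intro w
    have := mem_degreeLT.1 w.2
    by_cases h0 : (w : F[X]) = 0
    · rw [h0]; simp
    · exact Nat.lt_succ_iff.1 ((natDegree_lt_iff_degree_lt h0).2 this)
  have hσ0 : ∀ k < ℓ, σ k v = 0 := by
    intro k hk
    by_contra hne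
    have hdeg : (σ k v).natDegree < A + k * (f.natDegree - 1) + J := by
      have h1 : (σ k v).natDegree ≤ A + k * (f.natDegree - 1) + (J - 1) := by
        rw [hσ]
        refine natDegree_sum_le_of_forall_le _ _ fun j _ => ?_
        refine natDegree_mul_le.trans ?_
        rw [natDegree_X_pow]
        have h2 : ∀ n, k ≤ n → ∀ w : degreeLT F (A + 1),
            (T f n k (w : F[X])).natDegree ≤ k * (f.natDegree - 1) + A := by
          intro n hn w
          have h3 := hdegv w
          exact (natDegree_T_le f hd n k hn _).trans (by omega)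
        have h4 : (∑ i : Fin t, a ^ (i : ℕ) • T f (ℓ + (i : ℕ) * Q) k (v i j : F[X])).natDegree ≤
            k * (f.natDegree - 1) + A := by
          refine natDegree_sum_le_of_forall_le _ _ fun i _ => ?_
          exact (natDegree_smul_le _ _).trans (h2 (ℓ + (i : ℕ) * Q) (by omega) _)
        have := j.2
        omega
      omega
    apply hne
    ext i
    by_cases hi : i < A + k * (f.natDegree - 1) + J
    · have h1 := congrFun (congrFun (LinearMap.mem_ker.1 hv) ⟨k, hk⟩) ⟨i, hi⟩
      simpa [Φ] using h1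
    · rw [coeff_eq_zero_of_natDegree_lt (by omega)]
      simp
  -- the auxiliary polynomial
  obtain ⟨R, hR⟩ : ∃ R : F[X], R = ∑ j : Fin J,
    (∑ i : Fin t, f ^ (ℓ + (i : ℕ) * Q) * (v i j : F[X])) * X ^ ((j : ℕ) * q) := ⟨_, rfl⟩
  have hR' : R = f ^ ℓ * ∑ j : Fin J, (∑ i : Fin t, (v i j : F[X]) * f ^ ((i : ℕ) * Q)) *
    X ^ ((j : ℕ) * q) := by
    rw [hR, Finset.mul_sum]
    refine Finset.sum_congr rfl fun j _ => ?_
    rw [← mul_assoc, Finset.mul_sum]
    congr 1
    refine Finset.sum_congr rfl fun i _ => ?_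
    rw [pow_add]
    ring
  have hRne : R ≠ 0 := by
    intro hR0
    rw [hR'] at hR0
    have h1 := (mul_eq_zero.1 hR0).resolve_left (pow_ne_zero _ hf)
    let r : Fin t → ℕ → F[X] := fun i j => if h : j < J then (v i ⟨j, h⟩ : F[X]) else 0
    have h2 := nv1 F t ht f hf0 hns A Q (by rw [← hq]; exact hQ) (by rw [← hq]; exact hA) J r
      (by
        intro i j
        simp only [r]
        split_ifs
        · exact hdegv _
        · simp)
      (by
        rw [Finset.sum_range]
        rw [← h1]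
        refine Finset.sum_congr rfl fun j _ => ?_
        simp [r, hq])
    apply hv0
    funext i j
    have := h2 i j j.2
    simp only [r, j.2, dite_true] at this
    exact Subtype.ext this
  have hdegR : R.natDegree ≤ ℓ * f.natDegree + (t - 1) * Q * f.natDegree + A + (J - 1) * q := by
    rw [hR]
    refine natDegree_sum_le_of_forall_le _ _ fun j _ => ?_
    refine natDegree_mul_le.trans ?_
    rw [natDegree_X_pow]
    have h1 : (∑ i : Fin t, f ^ (ℓ + (i : ℕ) * Q) * (v i j : F[X])).natDegree ≤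
        ℓ * f.natDegree + (t - 1) * Q * f.natDegree + A := by
      refine natDegree_sum_le_of_forall_le _ _ fun i _ => ?_
      refine natDegree_mul_le.trans ?_
      rw [natDegree_pow, Nat.add_mul]
      have := hdegv (v i j)
      have h2 : (i : ℕ) * Q * f.natDegree ≤ (t - 1) * Q * f.natDegree := by
        apply Nat.mul_le_mul_right
        apply Nat.mul_le_mul_right
        have := i.2
        omega
      omega
    have h2 : (j : ℕ) * q ≤ (J - 1) * q := Nat.mul_le_mul_right _ (by have := j.2; omega)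
    omega
  have hvan : ∀ x : F, (f.eval x = 0 ∨ f.eval x ^ Q = a) → (X - C x) ^ ℓ ∣ R := by
    intro x hx
    by_cases hx0 : f.eval x = 0
    · rw [hR']
      exact Dvd.dvd.mul_right (pow_dvd_pow_of_dvd (dvd_iff_isRoot.2 hx0) ℓ) _
    · have hxa := hx.resolve_left hx0
      obtain ⟨R₁, hR₁⟩ : ∃ R₁ : F[X], R₁ = ∑ j : Fin J, (x ^ (j : ℕ)) •
        (∑ i : Fin t, f ^ (ℓ + (i : ℕ) * Q) * (v i j : F[X])) := ⟨_, rfl⟩
      have h1 : (X - C x) ^ ℓ ∣ R - R₁ := by
        rw [hR, hR₁, ← Finset.sum_sub_distrib]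
        refine Finset.dvd_sum fun j _ => ?_
        rw [smul_eq_C_mul, mul_comm (C (x ^ (j : ℕ))), ← mul_sub]
        refine Dvd.dvd.mul_left ?_ _
        have h2 : (X : F[X]) ^ q - C x = (X - C x) ^ q := by
          obtain ⟨p, hp⟩ := CharP.exists F
          have := hp
          have : Fact p.Prime := ⟨CharP.char_is_prime F p⟩
          obtain ⟨n, -, hn⟩ := FiniteField.card F p
          have h3 := sub_pow_char_pow (p := p) (X : F[X]) (C x) (n : ℕ)
          rw [hq]
          rw [← hn, ← C_pow, FiniteField.pow_card] at h3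
          exact h3.symm
        have h3 : (X : F[X]) ^ q - C x ∣ X ^ ((j : ℕ) * q) - C (x ^ (j : ℕ)) := by
          rw [mul_comm, pow_mul, C_pow]
          exact sub_dvd_pow_sub_pow _ _ _
        rw [h2] at h3
        exact (pow_dvd_pow _ hℓ).trans h3
      have h2 : (X - C x) ^ ℓ ∣ R₁ := by
        rw [X_sub_C_pow_dvd_iff, X_pow_dvd_iff]
        intro k hk
        have h3 : (R₁.comp (X + C x)).coeff k = (taylor x R₁).coeff k := by
          rw [taylor_apply]
        rw [h3, taylor_coeff, hR₁, map_sum]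
        simp only [map_smul, map_sum, eval_finsetSum]
        have h4 : ∀ j : Fin J, eval x (x ^ (j : ℕ) • ∑ i : Fin t,
            hasseDeriv k (f ^ (ℓ + (i : ℕ) * Q) * (v i j : F[X]))) =
            eval x f ^ (ℓ - k) * eval x (X ^ (j : ℕ) *
              ∑ i : Fin t, a ^ (i : ℕ) • T f (ℓ + (i : ℕ) * Q) k (v i j : F[X])) := by
          intro j
          rw [eval_smul, eval_finsetSum, eval_mul, eval_finsetSum, eval_pow, eval_X, smul_eq_mul,
            mul_left_comm, Finset.mul_sum, Finset.mul_sum, Finset.mul_sum]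
          apply Finset.sum_congr rfl
          intro i _
          rw [← T_spec f (ℓ + (i : ℕ) * Q) k (by omega)]
          have h5 : ℓ + (i : ℕ) * Q - k = (ℓ - k) + Q * (i : ℕ) := by
            rw [mul_comm Q]; omega
          rw [h5]
          simp only [eval_smul, eval_mul, eval_pow, smul_eq_mul, pow_add, pow_mul, hxa]
          ring
        rw [Finset.sum_congr rfl fun j _ => h4 j, ← Finset.mul_sum, ← eval_finsetSum, ← hσ,
          hσ0 k hk, eval_zero, mul_zero]
      have h3 := dvd_add h1 h2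
      rwa [sub_add_cancel] at h3
  have hprod : ∏ x ∈ Finset.univ.filter (fun x : F => f.eval x = 0 ∨ f.eval x ^ Q = a),
      (X - C x) ^ ℓ ∣ R := by
    refine Finset.prod_dvd_of_coprime ?_ ?_
    · intro x _ y _ hxy
      exact (isCoprime_X_sub_C_of_isUnit_sub (sub_ne_zero.2 hxy).isUnit).pow
    · intro x hx
      exact hvan x (Finset.mem_filter.1 hx).2
  have h1 := natDegree_le_of_dvd hprod hRne
  rw [natDegree_prod_of_monic _ _ fun x _ => (monic_X_sub_C x).pow ℓ] at h1
  simp only [natDegree_pow, natDegree_X_sub_C, mul_one, Finset.sum_const, smul_eq_mul] at h1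
  rw [mul_comm ℓ]
  exact h1.trans hdegR

open Classical in
theorem crd (t d : ℕ) (ht : 2 ≤ t) : ∃ K : ℝ, 0 ≤ K ∧ ∀ (F : Type) [Field F] [Fintype F]
    (f : F[X]), 1 ≤ f.natDegree → f.natDegree ≤ d → f.eval 0 ≠ 0 →
    CopG t f → ∀ (a : F) (Q : ℕ), t * Q + 1 = Fintype.card F →
    ((univ.filter fun x : F => f.eval x = 0 ∨ f.eval x ^ Q = a).card : ℝ) ≤
      Fintype.card F / t + K * Real.sqrt (Fintype.card F) := by
  classical
  obtain ⟨M0, hM0⟩ : ∃ M0 : ℕ, M0 = (d + 3) + (d + 2) * (1 + t * d) + 1 := ⟨_, rfl⟩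
  refine ⟨(M0 : ℝ) + 5 * d + 6, by positivity, ?_⟩
  intro F _ _ f hf1 hfd hf0 hns a Q hQ
  obtain ⟨q, hq⟩ : ∃ q, q = Fintype.card F := ⟨_, rfl⟩
  obtain ⟨N, hN⟩ : ∃ N, N = (univ.filter fun x : F => f.eval x = 0 ∨ f.eval x ^ Q = a).card :=
    ⟨_, rfl⟩
  have key := fun m J D => cor F t ht f hf1 hf0 hns a m J D Q hQ
  have hNq : N ≤ q := by
    rw [hN, hq]; exact Finset.card_le_univ _
  rw [← hq] at key hQ ⊢
  have hgoal : (N : ℝ) ≤ q / t + ((M0 : ℝ) + 5 * d + 6) * Real.sqrt q := by
    obtain ⟨m, hm⟩ : ∃ m, m = Nat.sqrt q := ⟨_, rfl⟩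
    have hm1 : m * m ≤ q := by rw [hm]; exact Nat.sqrt_le q
    have hm2 : q < (m + 1) * (m + 1) := by rw [hm]; exact Nat.lt_succ_sqrt q
    have hm3 : 1 ≤ m := by
      by_contra h0
      have : m = 0 := by omega
      subst this
      omega
    have hq0 : (0 : ℝ) ≤ q := Nat.cast_nonneg q
    have hs : Real.sqrt q ≤ m + 1 := by
      rw [Real.sqrt_le_left (by positivity)]
      have : (q : ℝ) ≤ ((m + 1) * (m + 1) : ℕ) := by exact_mod_cast hm2.le
      push_cast at this
      nlinarith
    have hsq : Real.sqrt q * Real.sqrt q = q := Real.mul_self_sqrt hq0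
    have hs0 : 0 ≤ Real.sqrt q := Real.sqrt_nonneg _
    have ht2 : 2 ≤ t := ht
    have htR : (0 : ℝ) < t := by exact_mod_cast (by omega : 0 < t)
    have hqt : (0 : ℝ) ≤ q / t := by positivity
    by_cases hbig : m < M0
    · have h1 : (N : ℝ) ≤ q := by exact_mod_cast hNq
      have h2 : (m : ℝ) + 1 ≤ M0 := by exact_mod_cast hbig
      have h3 : Real.sqrt q * Real.sqrt q ≤ M0 * Real.sqrt q :=
        mul_le_mul_of_nonneg_right (hs.trans h2) hs0
      have h4 : 0 ≤ (5 * (d : ℝ) + 6) * Real.sqrt q := by positivity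
      nlinarith
    · push Not at hbig
      obtain ⟨e, he⟩ : ∃ e, e = f.natDegree := ⟨_, rfl⟩
      rw [← he] at key hf1 hfd
      have hQe : e ≤ Q := by
        refine hfd.trans ?_
        by_contra hlt
        push Not at hlt
        have h1 : t * Q ≤ t * d := Nat.mul_le_mul_left _ hlt.le
        have h2 : M0 * M0 ≤ m * m := Nat.mul_le_mul hbig hbig
        have h3 : t * d + 2 ≤ M0 := by
          rw [hM0]; nlinarith [Nat.zero_le (t * d), Nat.zero_le (d * (1 + t * d))]
        nlinarith
      obtain ⟨D, hD⟩ : ∃ D, D + e = Q := ⟨Q - e, by omega⟩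
      obtain ⟨J, hJ⟩ : ∃ J, J = m / t + (d + 3) := ⟨_, rfl⟩
      have hJ1 : 1 ≤ J := by
        rw [hJ]
        exact le_trans (by omega) (Nat.le_add_left (d + 3) (m / t))
      have hk := key m J D (by rw [hD]; omega) (le_trans (by nlinarith) hm1) hJ1
        (crd_dim t d e m J D Q q ht2 hQ hf1 hfd hD hm1 (by omega) hJ)
      rw [← hN] at hk
      have hJ2 : t * (J - 1) ≤ m + t * (d + 2) := by
        have h1 : J - 1 = m / t + (d + 2) := by
          rw [hJ]
          rfl
        rw [h1, mul_add]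
        have := Nat.mul_div_le m t
        omega
      -- pass to the reals
      have hJR : ((J - 1 : ℕ) : ℝ) ≤ m / t + (d + 2) := by
        have : (t : ℝ) * ((J - 1 : ℕ) : ℝ) ≤ m + t * (d + 2) := by exact_mod_cast hJ2
        rw [← mul_le_mul_iff_right₀ htR]
        calc (t : ℝ) * ((J - 1 : ℕ) : ℝ) ≤ m + t * (d + 2) := this
          _ = t * (m / t + (d + 2)) := by field_simp
      have hA : (t - 1) * Q * e ≤ q * d := by
        refine Nat.mul_le_mul ?_ hfd
        have : (t - 1) * Q ≤ t * Q := Nat.mul_le_mul_right _ (by omega)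
        omega
      have hB : D ≤ q := by
        have : Q ≤ t * Q := Nat.le_mul_of_pos_left _ (by omega)
        omega
      have hme : m * e ≤ m * d := Nat.mul_le_mul_left _ hfd
      have hk2 : m * N ≤ m * d + q * d + q + (J - 1) * q := by omega
      have hk3 : (m : ℝ) * N ≤ m * d + q * d + q + ((J - 1 : ℕ) : ℝ) * q := by exact_mod_cast hk2
      have hk4 : ((J - 1 : ℕ) : ℝ) * q ≤ (m / t + (d + 2)) * q := mul_le_mul_of_nonneg_right hJR hq0
      have hmR : (1 : ℝ) ≤ m := by exact_mod_cast hm3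
      have hq2 : (q : ℝ) ≤ 2 * m * Real.sqrt q := by
        have : Real.sqrt q ≤ 2 * m := by linarith
        nlinarith [mul_le_mul_of_nonneg_right this hs0]
      have hs1 : 1 ≤ Real.sqrt q := by
        rw [Real.one_le_sqrt]
        exact_mod_cast (show 1 ≤ q by omega)
      have hd0 : (0 : ℝ) ≤ d := Nat.cast_nonneg d
      have hk5 : (m : ℝ) * N ≤ m * (q / t + (5 * d + 6) * Real.sqrt q) := by
        have h1 : (m / t + ((d : ℝ) + 2)) * q = m * (q / t) + (d + 2) * q := by ring
        have h2 : (2 * (d : ℝ) + 3) * q ≤ (2 * d + 3) * (2 * m * Real.sqrt q) :=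
          mul_le_mul_of_nonneg_left hq2 (by positivity)
        have h3 : (m : ℝ) * d ≤ m * (d * Real.sqrt q) := by
          refine mul_le_mul_of_nonneg_left ?_ (by positivity)
          nlinarith
        calc (m : ℝ) * N ≤ m * d + q * d + q + (m * (q / t) + (d + 2) * q) := by linarith
          _ = m * d + (2 * d + 3) * q + m * (q / t) := by ring
          _ ≤ m * (d * Real.sqrt q) + (2 * d + 3) * (2 * m * Real.sqrt q) + m * (q / t) := by
            linarith
          _ = m * (q / t + (5 * d + 6) * Real.sqrt q) := by ring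
      have hk6 : (N : ℝ) ≤ q / t + (5 * d + 6) * Real.sqrt q :=
        le_of_mul_le_mul_left hk5 (by linarith)
      have h4 : 0 ≤ (M0 : ℝ) * Real.sqrt q := by positivity
      nlinarith
  convert hgoal
  exact hN.symm

open Classical in
open Pool.Agent.H435R3.Weil.WELE in
theorem wele (t d : ℕ) (ht2 : 2 ≤ t) : ∃ K : ℝ, 0 ≤ K ∧ ∀ (E : Type) [Field E] [Fintype E],
    t ∣ Fintype.card E - 1 → ∀ ψ : MulChar E ℂ, ψ ≠ 1 → ψ ^ t = 1 → ∀ f : E[X],
    f.natDegree ≤ d → f ≠ 0 → CopG t f →
    ‖∑ x : E, ψ (f.eval x)‖ ≤ K * Real.sqrt (Fintype.card E) := by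
  obtain ⟨K0, hK0, hcrd⟩ := crd t d ht2
  have ht : 0 < t := by omega
  refine ⟨t ^ 2 * K0 + t * d + d, by positivity, ?_⟩
  intro E _ _ htq χ hχ1 hχ f hfd hf hft
  have hq1 : (1 : ℝ) ≤ Real.sqrt (Fintype.card E) := by
    rw [Real.one_le_sqrt]
    exact_mod_cast Fintype.card_pos
  obtain ⟨Q, hQ⟩ := htq
  have hq2 : 2 ≤ Fintype.card E := Fintype.one_lt_card
  have hQ' : t * Q + 1 = Fintype.card E := by omega
  have hQ0 : 0 < Q := by
    rcases Nat.eq_zero_or_pos Q with h0 | h0
    · rw [h0] at hQ'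
      omega
    · exact h0
  have hdeg : 1 ≤ f.natDegree := by
    by_contra hlt
    have h0 : f.natDegree = 0 := by omega
    obtain ⟨c, hc⟩ := natDegree_eq_zero.1 h0
    obtain ⟨Om, _, _, ι, hv⟩ := hft
    obtain ⟨r, hr, hrt⟩ := Nat.exists_prime_and_dvd (show t ≠ 1 by omega)
    obtain ⟨v, hv⟩ := hv r hr hrt
    rw [← hc, map_C, rootMultiplicity_C] at hv
    exact hv (dvd_zero r)
  by_cases hqd : Fintype.card E ≤ d
  · have h1 : ‖∑ x : E, χ (f.eval x)‖ ≤ Fintype.card E := by
      refine (norm_sum_le _ _).trans ?_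
      calc ∑ x : E, ‖χ (f.eval x)‖ ≤ ∑ x : E, (1 : ℝ) :=
            Finset.sum_le_sum fun x _ => mc_norm_le_one χ _
        _ = Fintype.card E := by simp
    have h2 : (Fintype.card E : ℝ) ≤ d := by exact_mod_cast hqd
    have h3 : (0 : ℝ) ≤ t ^ 2 * K0 + t * d := by positivity
    have h4 : (0 : ℝ) ≤ d := Nat.cast_nonneg d
    nlinarith
  · -- translation
    obtain ⟨c, hc⟩ : ∃ c : E, f.eval c ≠ 0 := by
      by_contra hcon
      push Not at hcon
      have h1 : (Finset.univ : Finset E).card ≤ f.natDegree := by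
        refine (Finset.card_le_card (t := f.roots.toFinset) ?_).trans
          ((Multiset.toFinset_card_le _).trans (card_roots' f))
        intro x _
        rw [Multiset.mem_toFinset, mem_roots hf]
        exact hcon x
      rw [Finset.card_univ] at h1
      omega
    set g := f.comp (X + C c) with hg
    have hge : ∀ x, g.eval x = f.eval (x + c) := by
      intro x
      rw [hg, eval_comp]
      simp
    have hgf : g.comp (X - C c) = f := by
      rw [hg, comp_assoc]
      simp
    have hgd : g.natDegree = f.natDegree := by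
      rw [hg, natDegree_comp, natDegree_X_add_C, mul_one]
    have hg0 : g ≠ 0 := by
      intro h0
      rw [h0, zero_comp] at hgf
      exact hf hgf.symm
    have hsum : ∑ x : E, χ (f.eval x) = ∑ x : E, χ (g.eval x) := by
      simp only [hge]
      exact (Equiv.sum_comp (Equiv.addRight c) (fun x => χ (f.eval x))).symm
    have hgt : CopG t g := by
      obtain ⟨Om, i1, i2, ι, hv⟩ := hft
      refine ⟨Om, i1, i2, ι, fun r hr hrt => ?_⟩
      obtain ⟨v, hv⟩ := hv r hr hrt
      refine ⟨v - ι c, ?_⟩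
      have hgm : g.map ι = (f.map ι).comp (X + C (ι c)) := by
        rw [hg, Polynomial.map_comp, Polynomial.map_add, map_X, map_C]
      rw [hgm, rm_comp]
      exact hv
    have hN : ∀ a : E, ((univ.filter fun x : E => g.eval x ≠ 0 ∧
        g.eval x ^ Q = a).card : ℝ) ≤
          Fintype.card E / t + K0 * Real.sqrt (Fintype.card E) := by
      intro a
      have h1 := hcrd E g (by rw [hgd]; exact hdeg) (by rw [hgd]; exact hfd)
        (by rw [hge, zero_add]; exact hc) hgt a Q hQ'
      refine le_trans (Nat.cast_le.2 (Finset.card_le_card ?_)) h1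
      intro x hx
      have hx' := (Finset.mem_filter.1 hx).2
      simp only [Finset.mem_filter, Finset.mem_univ, true_and]
      exact Or.inr hx'.2
    rw [hsum]
    refine (main (d := d) hK0 ht hQ' hQ0 χ hχ hχ1 g hg0 (by rw [hgd]; exact hfd) hN).trans ?_
    have h4 : (0 : ℝ) ≤ d := Nat.cast_nonneg d
    nlinarith


open Pool.Agent.H341R2.Sharp IntermediateField
open Pool.Agent.H435R3.Weil (lamPR lamPR_one lamPR_mul TL TL_char normChar normChar_apply
  normChar_pow normChar_ne_one conj_eq AL AL_eq_zero AL_zero n_mul_AL l_pow)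

section

variable {F : Type} [Field F] [Fintype F] [DecidableEq F]

/-- an extension of every degree with the bound of Stepanov's method -/
theorem T_bound (t : ℕ) (ht : 2 ≤ t) (htF : t ∣ Fintype.card F - 1) (χ : MulChar F ℂ)
    (hχ1 : χ ≠ 1) (hχ : χ ^ t = 1) (P R : F[X]) (hP : P.Monic) (hR : R.Monic)
    (hcop : CopG t (P * R ^ (t - 1))) :
    ∃ K : ℝ, 0 ≤ K ∧ ∀ m : ℕ, 1 ≤ m →
      ‖TL (lamPR χ P R) m‖ ≤ K * (Real.sqrt (Fintype.card F)) ^ m ∧
      ∃ (E : Type) (_ : Field E) (_ : Fintype E) (_ : DecidableEq E) (_ : Algebra F E),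
        Module.finrank F E = m ∧ Fintype.card E = Fintype.card F ^ m ∧
        ‖∑ x : E, χ (Algebra.norm F (aeval x P)) *
          (starRingEnd ℂ) (χ (Algebra.norm F (aeval x R)))‖ ≤
          K * (Real.sqrt (Fintype.card F)) ^ m := by
  classical
  set f : F[X] := P * R ^ (t - 1) with hf
  have hfm : f.Monic := hP.mul (hR.pow _)
  obtain ⟨K, hK, hw⟩ := wele t f.natDegree ht
  refine ⟨K, hK, fun m hm => ?_⟩
  obtain ⟨p, hp⟩ := CharP.exists F
  have : Fact (Nat.Prime p) := ⟨CharP.char_is_prime F p⟩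
  have : NeZero m := ⟨by omega⟩
  let E := FiniteField.Extension F p m
  let _ : Fintype E := Fintype.ofFinite E
  have hfr : Module.finrank F E = m := FiniteField.finrank_extension F p m
  have hcard : Fintype.card E = Fintype.card F ^ m := by
    rw [Module.card_eq_pow_finrank (K := F) (V := E), hfr]
  have htE : t ∣ Fintype.card E - 1 := by
    refine htF.trans ?_
    rw [hcard]
    simpa using Nat.sub_dvd_pow_sub_pow (Fintype.card F) 1 m
  have hcopE : CopG t (f.map (algebraMap F E)) := by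
    exact hcop.map
  have h1 := hw E htE (normChar F E χ) (normChar_ne_one F E χ hχ1)
    (normChar_pow F E χ t (by omega) hχ) (f.map (algebraMap F E)) natDegree_map_le
    ((hfm.map _).ne_zero) hcopE
  have h2 : Real.sqrt (Fintype.card E) = (Real.sqrt (Fintype.card F)) ^ m := by
    rw [hcard]
    push_cast
    rw [Real.sqrt_eq_iff_mul_self_eq (by positivity) (by positivity), ← mul_pow,
      Real.mul_self_sqrt (by positivity)]
  rw [h2] at h1
  have h3 : ∀ x : E, normChar F E χ ((f.map (algebraMap F E)).eval x) =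
      χ (Algebra.norm F (aeval x P)) * (starRingEnd ℂ) (χ (Algebra.norm F (aeval x R))) := by
    intro x
    rw [eval_map_algebraMap, hf, map_mul, map_pow, normChar_apply, map_mul, map_pow, map_mul,
      map_pow, conj_eq ht χ hχ]
  simp_rw [h3] at h1
  refine ⟨?_, E, inferInstance, inferInstance, inferInstance, inferInstance, hfr, hcard, h1⟩
  have h4 := TL_char (E := E) χ P R
  rw [hfr] at h4
  rw [h4]
  exact h1

theorem exists_r (t : ℕ) (ht : 2 ≤ t) (htF : t ∣ Fintype.card F - 1) (χ : MulChar F ℂ)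
    (hχ1 : χ ≠ 1) (hχ : χ ^ t = 1) (P R : F[X]) (hP : P.Monic) (hR : R.Monic)
    (hcop : CopG t (P * R ^ (t - 1))) :
    ∃ r : F[X], r.Monic ∧ Even r.natDegree ∧ lamPR χ P R r ≠ 0 ∧ lamPR χ P R r ≠ 1 := by
  obtain ⟨K, hK, hb⟩ := T_bound t ht htF χ hχ1 hχ P R hP hR hcop
  set q := Fintype.card F with hq
  have hq2 : 2 ≤ q := Fintype.one_lt_card
  set d := P.natDegree + R.natDegree with hd
  -- the degree of the extension
  obtain ⟨k, hk⟩ : ∃ k : ℕ, K + d + 1 < k := exists_nat_gt _
  have hk1 : 1 ≤ k := by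
    have : (0 : ℝ) < k := by have : (0 : ℝ) ≤ d := Nat.cast_nonneg d; linarith
    exact_mod_cast this
  obtain ⟨-, E, i1, i2, i3, i4, hfr, hcard, hbE⟩ := hb (2 * k) (by omega)
  have hsq : (Real.sqrt q) ^ (2 * k) = (q : ℝ) ^ k := by
    rw [pow_mul, Real.sq_sqrt (by positivity)]
  rw [hsq] at hbE
  have hlt : k < q ^ k := Nat.lt_pow_self (by omega)
  have hfd : FiniteDimensional F E := Module.finite_of_finrank_pos (by rw [hfr]; omega)
  have hex : ∃ x : E, χ (Algebra.norm F (aeval x P)) *
      (starRingEnd ℂ) (χ (Algebra.norm F (aeval x R))) ≠ 0 ∧ χ (Algebra.norm F (aeval x P)) *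
      (starRingEnd ℂ) (χ (Algebra.norm F (aeval x R))) ≠ 1 := by
    by_contra hno
    push Not at hno
    have h1 : ∀ x : E, (1 : ℝ) - (if aeval x (P * R) = 0 then 1 else 0) ≤
        (χ (Algebra.norm F (aeval x P)) *
          (starRingEnd ℂ) (χ (Algebra.norm F (aeval x R)))).re := by
      intro x
      by_cases h0 : aeval x (P * R) = 0
      · rw [if_pos h0]
        by_cases h2 : χ (Algebra.norm F (aeval x P)) *
          (starRingEnd ℂ) (χ (Algebra.norm F (aeval x R))) = 0
        · rw [h2]; simp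
        · rw [hno x h2]; simp
      · rw [if_neg h0]
        rw [map_mul, mul_eq_zero, not_or] at h0
        have h2 : ∀ z : E, z ≠ 0 → χ (Algebra.norm F z) ≠ 0 := by
          intro z hz
          have hu : IsUnit (Algebra.norm F z) :=
            isUnit_iff_ne_zero.2 ((Algebra.norm_ne_zero_iff).2 hz)
          exact (hu.map χ).ne_zero
        have h3 : χ (Algebra.norm F (aeval x P)) *
          (starRingEnd ℂ) (χ (Algebra.norm F (aeval x R))) ≠ 0 :=
          mul_ne_zero (h2 _ h0.1) ((_root_.map_ne_zero _).2 (h2 _ h0.2))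
        rw [hno x h3]
        simp
    have h2 := Finset.sum_le_sum (s := univ) (fun x _ => h1 x)
    rw [sum_sub_distrib] at h2
    have hPR : (P * R).Monic := hP.mul hR
    have h3 : ∑ x : E, (if aeval x (P * R) = 0 then (1 : ℝ) else 0) ≤ d := by
      rw [sum_boole]
      have h4 : (univ.filter fun x : E => aeval x (P * R) = 0) ⊆ ((P * R).aroots E).toFinset := by
        intro x hx
        rw [mem_filter] at hx
        rw [Multiset.mem_toFinset, mem_aroots]
        exact ⟨hPR.ne_zero, hx.2⟩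
      have h5 := card_le_card h4
      have h6 := (Multiset.toFinset_card_le ((P * R).aroots E)).trans
        ((card_roots' _).trans (natDegree_map_le (p := P * R) (f := algebraMap F E)))
      rw [hP.natDegree_mul hR] at h6
      exact_mod_cast h5.trans h6
    have h4 : ∑ x : E, (1 : ℝ) = (q : ℝ) ^ k * (q : ℝ) ^ k := by
      rw [sum_const, card_univ, hcard, nsmul_eq_mul, mul_one]
      push_cast
      rw [← pow_add, two_mul]
    have h5 : ∑ x : E, (χ (Algebra.norm F (aeval x P)) *
          (starRingEnd ℂ) (χ (Algebra.norm F (aeval x R)))).re ≤ K * (q : ℝ) ^ k := by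
      rw [← Complex.re_sum]
      exact (Complex.re_le_norm _).trans hbE
    rw [h4] at h2
    have h6 : (k : ℝ) < (q : ℝ) ^ k := by exact_mod_cast hlt
    have h7 : (0 : ℝ) ≤ d := Nat.cast_nonneg d
    have h8 : (q : ℝ) ^ k * (q : ℝ) ^ k - d ≤ K * (q : ℝ) ^ k := by linarith
    have h9 : (1 : ℝ) ≤ (q : ℝ) ^ k := one_le_pow₀ (by exact_mod_cast (by omega : 1 ≤ q))
    nlinarith
  obtain ⟨x, hx0, hx1⟩ := hex
  have hxi : IsIntegral F x := Algebra.IsIntegral.isIntegral x
  set Q := minpoly F x with hQ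
  have hQm : Q.Monic := minpoly.monic hxi
  have hdvd : Q.natDegree ∣ Module.finrank F E := (finrank_div x).2
  have hval : lamPR χ P R (Q ^ (Module.finrank F E / Q.natDegree)) =
      χ (Algebra.norm F (aeval x P)) *
        (starRingEnd ℂ) (χ (Algebra.norm F (aeval x R))) := by
    rw [l_pow _ (lamPR_one χ P R) (fun g h hg hh => lamPR_mul χ P R g h hg hh) Q hQm,
      norm_aeval, norm_aeval, map_pow, map_pow, map_pow, ← mul_pow]
    rfl
  refine ⟨Q ^ (Module.finrank F E / Q.natDegree), hQm.pow _, ?_, ?_, ?_⟩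
  · rw [hQm.natDegree_pow, Nat.div_mul_cancel hdvd, hfr]
    exact even_two_mul k
  · rw [hval]; exact hx0
  · rw [hval]; exact hx1

/-- Weil's bound -/
theorem weil (t : ℕ) (ht : 2 ≤ t) (htF : t ∣ Fintype.card F - 1) (χ : MulChar F ℂ)
    (hχ1 : χ ≠ 1) (hχ : χ ^ t = 1) (P R : F[X]) (hP : P.Monic) (hR : R.Monic)
    (hcop : CopG t (P * R ^ (t - 1))) :
    ‖∑ x : F, χ (P.eval x) * (starRingEnd ℂ) (χ (R.eval x))‖ ≤
      (P.natDegree + R.natDegree : ℕ) * Real.sqrt (Fintype.card F) := by
  classical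
  obtain ⟨K, hK, hb⟩ := T_bound t ht htF χ hχ1 hχ P R hP hR hcop
  obtain ⟨r, hr, hev, hr0, hr1⟩ := exists_r t ht htF χ hχ1 hχ P R hP hR hcop
  set d := P.natDegree + R.natDegree with hd
  set l := lamPR χ P R with hl
  have hl1 : l 1 = 1 := lamPR_one χ P R
  have hlm : ∀ g h : F[X], g.Monic → h.Monic → l (g * h) = l g * l h :=
    fun g h hg hh => lamPR_mul χ P R g h hg hh
  have hA : ∀ n, d ≤ n → AL l n = 0 := fun n hn =>
    AL_eq_zero χ P R r hP hR hr hev hr0 hr1 n hn
  set a : ℂ[X] := ∑ n ∈ range d, C (AL l n) * X ^ n with ha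
  have hd0 : 0 < d := by
    by_contra h0
    have h1 := hA 0 (by omega)
    rw [AL_zero l hl1] at h1
    exact one_ne_zero h1
  have hcoeff : ∀ n, a.coeff n = AL l n := by
    intro n
    rw [ha, finsetSum_coeff]
    simp_rw [coeff_C_mul_X_pow]
    by_cases hn : n < d
    · rw [sum_eq_single n]
      · simp
      · intro m _ hm
        rw [if_neg (Ne.symm hm)]
      · intro h
        exact absurd (mem_range.2 hn) h
    · rw [hA n (by omega)]
      rw [sum_eq_zero]
      intro m hm
      rw [mem_range] at hm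
      rw [if_neg (by omega)]
  have hdeg : a.natDegree ≤ d := by
    rw [natDegree_le_iff_coeff_eq_zero]
    intro n hn
    rw [hcoeff, hA n (by omega)]
  have hq0 : 0 < Real.sqrt (Fintype.card F) := Real.sqrt_pos.2 (by exact_mod_cast Fintype.card_pos)
  have hmain := coeff_one_bound a (by rw [hcoeff, AL_zero l hl1]) (fun m => TL l m)
    (Real.sqrt (Fintype.card F)) K hq0 hK
    (fun m hm => (hb m hm).1)
    (by
      intro n
      rw [hcoeff]
      have := n_mul_AL l hl1 hlm n
      simp_rw [hcoeff]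
      exact this)
    d hdeg
  rw [hcoeff] at hmain
  have h1 := n_mul_AL l hl1 hlm 1
  rw [Icc_self, sum_singleton, Nat.sub_self, AL_zero l hl1] at h1
  have h2 := TL_char (F := F) (E := F) χ P R
  rw [Module.finrank_self] at h2
  have h3 : AL l 1 = ∑ x : F, χ (P.eval x) * (starRingEnd ℂ) (χ (R.eval x)) := by
    have : AL l 1 = TL l 1 := by simpa using h1
    rw [this, hl, h2]
    simp
  rw [h3] at hmain
  exact hmain

end


end Pool.Agent.H11.EC.WG
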