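import Pool.Agent.H11.EC.StmM
import Pool.Agent.H11.EC.WG

/-! # EC-WEILM (helper95): points on `u y ^ m = g(x)`, `z i ² = h i (x)` modulo large primes -/

set_option autoImplicit false

namespace Pool.Agent.H11.EC.WeilM

open Polynomial Finset

/-- a character whose order is `gcd(m, q - 1)` detects the `m`-th powers -/
theorem pow_of_char {F : Type} [Field F] [Fintype F] (m : ℕ) (χ : MulChar F ℂ)
    (hχ : orderOf χ = Nat.gcd m (Fintype.card F - 1)) (z : F) (hz : z ≠ 0) (h1 : χ z = 1) :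
    ∃ y : F, y ≠ 0 ∧ y ^ m = z := by
  classical
  obtain ⟨g, hg⟩ := IsCyclic.exists_generator (α := Fˣ)
  obtain ⟨a, ha⟩ := Subgroup.mem_zpowers_iff.1 (hg (Units.mk0 z hz))
  have hz' : z = ((g ^ a : Fˣ) : F) := by rw [ha]; rfl
  have h2 : χ ^ a = 1 := by
    rw [MulChar.eq_iff hg]
    have h3 : ∀ (ψ : MulChar F ℂ) (u : Fˣ) , ((ψ.toUnitHom u : ℂˣ) : ℂ) = ψ u := fun ψ u =>
      MulChar.coe_toUnitHom ψ u
    have h4 : ∀ (b : ℤ), (χ ^ b) (g : F) = (χ ((g ^ b : Fˣ) : F)) := by
      intro b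
      have h5 : ∀ n : ℕ, (χ ^ n) (g : F) = χ ((g ^ n : Fˣ) : F) := by
        intro n
        rw [MulChar.pow_apply_coe, Units.val_pow_eq_pow_val, map_pow]
      obtain ⟨n, rfl | rfl⟩ := b.eq_nat_or_neg
      · rw [zpow_natCast, zpow_natCast]; exact h5 n
      · rw [zpow_neg, zpow_neg, zpow_natCast, zpow_natCast, MulChar.inv_apply_eq_inv, h5 n]
        rw [← h3, ← h3, map_inv, Units.val_inv_eq_inv_val, Ring.inverse_eq_inv']
    rw [h4, ← hz', h1]
    exact (MulChar.one_apply_coe g).symm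
  have h3 : ((Nat.gcd m (Fintype.card F - 1) : ℕ) : ℤ) ∣ a := by
    rw [← hχ]
    exact orderOf_dvd_iff_zpow_eq_one.2 h2
  obtain ⟨b, rfl⟩ := h3
  have hcard : g ^ (Fintype.card F - 1) = 1 := by
    rw [← Fintype.card_units]
    exact pow_card_eq_one
  refine ⟨((g ^ (Nat.gcdA m (Fintype.card F - 1) * b) : Fˣ) : F), Units.ne_zero _, ?_⟩
  rw [hz', ← Units.val_pow_eq_pow_val]
  congr 1
  rw [Nat.gcd_eq_gcd_ab, add_mul, zpow_add]
  have e1 : g ^ (((Fintype.card F - 1 : ℕ) : ℤ) * Nat.gcdB m (Fintype.card F - 1) * b) = 1 := by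
    rw [mul_assoc, zpow_mul, zpow_natCast, hcard, one_zpow]
  rw [e1, mul_one, ← zpow_natCast, ← zpow_mul]
  congr 1
  ring

theorem card_roots_le {p : ℕ} [Fact p.Prime] (g : (ZMod p)[X]) (hg : g ≠ 0) :
    (univ.filter (fun x : ZMod p => g.eval x = 0)).card ≤ g.natDegree := by
  classical
  have h1 : (univ.filter (fun x : ZMod p => g.eval x = 0)) ⊆ g.roots.toFinset := by
    intro x hx
    rw [mem_filter] at hx
    rw [Multiset.mem_toFinset, mem_roots hg]
    exact hx.2
  exact (card_le_card h1).trans ((Multiset.toFinset_card_le _).trans (card_roots' g))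

theorem rm_prod {F J : Type} [Field F] (s : Finset J) (f : J → F[X]) (hf : ∀ j ∈ s, f j ≠ 0) (v : F) :
    rootMultiplicity v (∏ j ∈ s, f j) = ∑ j ∈ s, rootMultiplicity v (f j) := by
  classical
  induction s using Finset.induction_on with
  | empty => simp only [prod_empty, sum_empty]; rw [← C_1, rootMultiplicity_C]
  | insert a s ha ih =>
    have h1 : ∀ j ∈ s, f j ≠ 0 := fun j hj => hf j (mem_insert_of_mem hj)
    have h2 : ∏ j ∈ s, f j ≠ 0 := prod_ne_zero_iff.2 h1
    rw [prod_insert ha, sum_insert ha, rootMultiplicity_mul (mul_ne_zero (hf a (mem_insert_self _ _)) h2),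
      ih h1]

/-- Weil's bound for a product of powers of the factors of a squarefree polynomial -/
theorem charsum (p : ℕ) [hp : Fact p.Prime] (J : Type) [Fintype J] (G : J → (ZMod p)[X])
    (hsq : Squarefree (∏ j, G j)) (hdeg : ∀ j, 1 ≤ (G j).natDegree) (k : ℕ) (hkp : k ∣ p - 1)
    (χ : MulChar (ZMod p) ℂ) (hχ : orderOf χ = k) (ν : J → ℕ) (hν : ∀ j, ν j < k) (j0 : J)
    (hj0 : ν j0 ≠ 0) :
    ‖∑ x : ZMod p, χ ((∏ j, G j ^ ν j).eval x)‖ ≤ k * (∏ j, G j).natDegree * Real.sqrt p := by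
  classical
  have hcard : Fintype.card (ZMod p) = p := ZMod.card p
  have hprod0 : (∏ j, G j) ≠ 0 := hsq.ne_zero
  have hG0 : ∀ j, G j ≠ 0 := fun j => (prod_ne_zero_iff.1 hprod0) j (mem_univ j)
  have hk0 : 0 < k := lt_of_le_of_lt (Nat.zero_le _) (hν j0)
  obtain ⟨e, he⟩ : ∃ e, e = Nat.gcd k (univ.gcd ν) := ⟨_, rfl⟩
  have hek : e ∣ k := by rw [he]; exact Nat.gcd_dvd_left _ _
  have heν : ∀ j, e ∣ ν j := fun j => by
    rw [he]; exact (Nat.gcd_dvd_right _ _).trans (Finset.gcd_dvd (mem_univ j))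
  have he0 : 0 < e := Nat.pos_of_dvd_of_pos hek hk0
  obtain ⟨t, ht⟩ := hek
  choose a ha using heν
  have ht2 : 2 ≤ t := by
    have h1 : e ≤ ν j0 := Nat.le_of_dvd (Nat.pos_of_ne_zero hj0) ⟨_, ha j0⟩
    have h2 := hν j0
    by_contra hn
    push Not at hn
    have : t ≤ 1 := by omega
    have h3 : e * t ≤ e * 1 := Nat.mul_le_mul_left _ this
    omega
  have hpr : ∀ r : ℕ, r.Prime → r ∣ t → ∃ j, ¬ r ∣ a j := by
    intro r hr hrt
    by_contra hn
    push Not at hn
    have h1 : e * r ∣ k := by rw [ht]; exact Nat.mul_dvd_mul_left _ hrt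
    have h2 : e * r ∣ univ.gcd ν := Finset.dvd_gcd fun j _ => by
      rw [ha j]; exact Nat.mul_dvd_mul_left _ (hn j)
    have h3 : e * r ∣ e := by
      have h4 := Nat.dvd_gcd h1 h2
      rw [← he] at h4
      exact h4
    have h4 := Nat.le_of_dvd he0 h3
    have h5 := hr.two_le
    nlinarith
  have hlc : ∀ j, (G j).leadingCoeff ≠ 0 := fun j => leadingCoeff_ne_zero.2 (hG0 j)
  set M : J → (ZMod p)[X] := fun j => C (G j).leadingCoeff⁻¹ * G j with hM
  have hMm : ∀ j, (M j).Monic := by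
    intro j
    rw [hM]
    simp only
    rw [Monic, leadingCoeff_mul, leadingCoeff_C, inv_mul_cancel₀ (hlc j)]
  have hMd : ∀ j, (M j).natDegree = (G j).natDegree := by
    intro j
    rw [hM]
    simp only
    rw [natDegree_C_mul (inv_ne_zero (hlc j))]
  have hGM : ∀ j, G j = C (G j).leadingCoeff * M j := by
    intro j
    rw [hM]
    simp only
    rw [← mul_assoc, ← C_mul, mul_inv_cancel₀ (hlc j), C_1, one_mul]
  set P : (ZMod p)[X] := ∏ j, M j ^ a j with hP
  have hPm : P.Monic := by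
    rw [hP]
    exact monic_prod_of_monic _ _ (fun j _ => (hMm j).pow _)
  have hPd : P.natDegree ≤ k * (∏ j, G j).natDegree := by
    rw [hP, natDegree_prod_of_monic _ _ (fun j _ => (hMm j).pow _), natDegree_prod _ _ (fun j _ => hG0 j), mul_sum]
    refine sum_le_sum fun j _ => ?_
    rw [(hMm j).natDegree_pow, hMd]
    refine Nat.mul_le_mul_right _ ?_
    have h1 := hν j
    have h2 : a j ≤ ν j := by
      rw [ha j]
      exact Nat.le_mul_of_pos_left _ he0
    omega
  -- the values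
  set c : ZMod p := ∏ j, (G j).leadingCoeff ^ ν j with hc
  have hev : ∀ x, (∏ j, G j ^ ν j).eval x = c * (P.eval x) ^ e := by
    intro x
    have e1 : ∏ j, G j ^ ν j = C c * P ^ e := by
      rw [hc, hP, ← prod_pow, map_prod, ← prod_mul_distrib]
      refine prod_congr rfl fun j _ => ?_
      conv_lhs => rw [hGM j]
      rw [mul_pow, ← C_pow, ← pow_mul, ha j, mul_comm (a j) e]
    rw [e1, eval_mul, eval_C, eval_pow]
  have hχe : ∀ z, (χ ^ e) z = (χ z) ^ e := fun z => MulChar.pow_apply' χ he0.ne' z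
  have hsum : ∑ x : ZMod p, χ ((∏ j, G j ^ ν j).eval x) = χ c * ∑ x : ZMod p, (χ ^ e) (P.eval x) := by
    rw [mul_sum]
    refine sum_congr rfl fun x _ => ?_
    rw [hev, map_mul, map_pow, hχe]
  -- separability
  have hsep : (∏ j, G j).Separable := PerfectField.separable_iff_squarefree.2 hsq
  set ι := algebraMap (ZMod p) (AlgebraicClosure (ZMod p)) with hι
  have hcop : Pool.Agent.H11.EC.WG.CopG t (P * 1 ^ (t - 1)) := by
    refine ⟨AlgebraicClosure (ZMod p), inferInstance, inferInstance, ι, ?_⟩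
    intro r hr hrt
    obtain ⟨j, hj⟩ := hpr r hr hrt
    have hdj : ((G j).map ι).degree ≠ 0 := by
      rw [degree_map, degree_eq_natDegree (hG0 j)]
      have := hdeg j
      exact_mod_cast (by omega : (G j).natDegree ≠ 0)
    obtain ⟨v, hv⟩ := IsAlgClosed.exists_root _ hdj
    refine ⟨v, ?_⟩
    have hm0 : ∀ i, (G i).map ι ≠ 0 := fun i => (Polynomial.map_ne_zero_iff ι.injective).2 (hG0 i)
    have h1 : (∏ i, (G i).map ι).Separable := by
      have := hsep.map (f := ι)
      rwa [Polynomial.map_prod] at this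
    have h2 := rootMultiplicity_le_one_of_separable h1 v
    rw [rm_prod univ (fun i => (G i).map ι) (fun i _ => hm0 i) v] at h2
    have h3 : 0 < rootMultiplicity v ((G j).map ι) := by
      rw [rootMultiplicity_pos (hm0 j)]; exact hv
    rw [← add_sum_erase _ _ (mem_univ j)] at h2
    have h4 : ∑ i ∈ univ.erase j, rootMultiplicity v ((G i).map ι) = 0 := by omega
    have h5 : rootMultiplicity v ((G j).map ι) = 1 := by omega
    have hMmap : ∀ i, rootMultiplicity v ((M i).map ι) = rootMultiplicity v ((G i).map ι) := by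
      intro i
      have h6 : (G i).map ι = C (ι (G i).leadingCoeff) * (M i).map ι := by
        conv_lhs => rw [hGM i]
        rw [Polynomial.map_mul, map_C]
      have h7 : C (ι (G i).leadingCoeff) * (M i).map ι ≠ 0 := by rw [← h6]; exact hm0 i
      rw [h6, rootMultiplicity_mul h7, rootMultiplicity_C, zero_add]
    have hM0 : ∀ i, (M i).map ι ≠ 0 := fun i => (Polynomial.map_ne_zero_iff ι.injective).2 (hMm i).ne_zero
    have h8 : rootMultiplicity v ((P * 1 ^ (t - 1)).map ι) = a j := by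
      rw [one_pow, mul_one, hP, Polynomial.map_prod,
        rm_prod univ (fun i => (M i ^ a i).map ι) (fun i _ => by
          rw [Polynomial.map_pow]; exact pow_ne_zero _ (hM0 i)) v]
      have h9 : ∀ i, rootMultiplicity v ((M i ^ a i).map ι) = a i * rootMultiplicity v ((G i).map ι) := by
        intro i
        rw [Polynomial.map_pow, Pool.Agent.H435R3.Weil.rm_pow _ _ (hM0 i), hMmap]
      simp_rw [h9]
      rw [← add_sum_erase _ _ (mem_univ j), h5, mul_one]
      have h10 : ∑ i ∈ univ.erase j, a i * rootMultiplicity v ((G i).map ι) = 0 := by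
        refine sum_eq_zero fun i hi => ?_
        rw [(sum_eq_zero_iff.1 h4) i hi, mul_zero]
      rw [h10, add_zero]
    rw [h8]
    exact hj
  have hne : χ ^ e ≠ 1 := by
    intro h
    have h1 := orderOf_dvd_of_pow_eq_one h
    rw [hχ, ht] at h1
    have h2 := Nat.le_of_dvd he0 h1
    nlinarith
  have hpw : (χ ^ e) ^ t = 1 := by
    rw [← pow_mul, ← ht, ← hχ, pow_orderOf_eq_one]
  have htp : t ∣ Fintype.card (ZMod p) - 1 := by
    rw [hcard]
    exact (Dvd.intro_left e ht.symm).trans hkp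
  have hw := Pool.Agent.H11.EC.WG.weil t ht2 htp (χ ^ e) hne hpw P 1 hPm monic_one hcop
  have hw1 : ∑ x : ZMod p, (χ ^ e) (P.eval x) * (starRingEnd ℂ) ((χ ^ e) ((1 : (ZMod p)[X]).eval x)) =
      ∑ x : ZMod p, (χ ^ e) (P.eval x) := by
    refine sum_congr rfl fun x _ => ?_
    rw [eval_one, map_one, map_one, mul_one]
  rw [hw1, natDegree_one, add_zero, hcard] at hw
  rw [hsum, norm_mul]
  have hcn : ‖χ c‖ ≤ 1 := by
    have h1 := DirichletCharacter.norm_le_one χ c
    exact h1
  calc ‖χ c‖ * ‖∑ x : ZMod p, (χ ^ e) (P.eval x)‖ ≤ 1 * (P.natDegree * Real.sqrt p) := by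
        gcongr
    _ ≤ _ := by
        rw [one_mul]
        have : (P.natDegree : ℝ) ≤ k * (∏ j, G j).natDegree := by exact_mod_cast hPd
        gcongr

theorem main : S_WEILM := by
  classical
  intro p hp I _ m g h u hp2 hm hme hu hsq hg hh hbig
  have hp1 : 1 < p := hp.out.one_lt
  have hcard : Fintype.card (ZMod p) = p := ZMod.card p
  set n : ℕ := (g * ∏ i, h i).natDegree with hn
  set k := Nat.gcd m (p - 1) with hk
  have hk0 : 0 < k := Nat.gcd_pos_of_pos_left _ (Nat.pos_of_ne_zero hm)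
  have hkm : k ≤ m := Nat.gcd_le_left _ (Nat.pos_of_ne_zero hm)
  have hkp : k ∣ p - 1 := Nat.gcd_dvd_right _ _
  have hp_odd : Odd p := hp.out.odd_of_ne_two hp2
  have hev : Even (p - 1) := by
    obtain ⟨a, ha⟩ := hp_odd
    exact ⟨a, by omega⟩
  have hk2 : 2 ∣ k := Nat.dvd_gcd hme.two_dvd hev.two_dvd
  obtain ⟨l, hl⟩ := hk2
  have hl0 : 0 < l := by omega
  obtain ⟨χ, hχ⟩ := MulChar.exists_mulChar_orderOf (ZMod p) (R := ℂ) (n := k) (by rwa [hcard])
    (Complex.isPrimitiveRoot_exp k hk0.ne')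
  -- the quadratic character
  set η := χ ^ l with hη
  have hη2 : orderOf η = Nat.gcd 2 (Fintype.card (ZMod p) - 1) := by
    rw [hcard, hη, orderOf_pow, hχ, hl, Nat.gcd_mul_left_left, Nat.mul_div_cancel _ hl0]
    exact (Nat.gcd_eq_left hev.two_dvd).symm
  have hηz : ∀ z, η z = (χ z) ^ l := fun z => MulChar.pow_apply' χ hl0.ne' z
  have hsqη : ∀ z : ZMod p, z ≠ 0 → η z ≠ 1 → η z = -1 := by
    intro z hz h1
    have h2 : η z ^ 2 = 1 := by
      rw [hηz, ← pow_mul, mul_comm l 2, ← hl, ← hχ]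
      have h3 : (χ ^ orderOf χ) z = 1 := by
        rw [pow_orderOf_eq_one]
        exact MulChar.one_apply (isUnit_iff_ne_zero.2 hz)
      rwa [MulChar.pow_apply' χ (by rw [hχ]; exact hk0.ne') z] at h3
    have h4 : (η z - 1) * (η z + 1) = 0 := by linear_combination h2
    rcases mul_eq_zero.1 h4 with h | h
    · exact absurd (sub_eq_zero.1 h) h1
    · exact eq_neg_of_add_eq_zero_left h
  have hsqη' : ∀ z : ZMod p, z ≠ 0 → η z = 1 → ∃ y, y ≠ 0 ∧ z = y ^ 2 := by
    intro z hz h1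
    obtain ⟨y, hy0, hy⟩ := pow_of_char 2 η hη2 z hz h1
    exact ⟨y, hy0, hy.symm⟩
  by_contra hno
  push Not at hno
  have hχn : ∀ z, ‖χ z‖ ≤ 1 := fun z => DirichletCharacter.norm_le_one χ z
  have hηn : ∀ z, ‖η z‖ ≤ 1 := fun z => DirichletCharacter.norm_le_one η z
  set W : ZMod p → ℂ := fun x => (∑ j ∈ range k, (χ (u⁻¹ * g.eval x)) ^ j) * ∏ i, (1 + η ((h i).eval x)) with hW
  have hgh0 : g * ∏ i, h i ≠ 0 := hsq.ne_zero
  have hW0 : ∀ x, (g * ∏ i, h i).eval x ≠ 0 → W x = 0 := by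
    intro x hx
    rw [eval_mul, eval_prod] at hx
    have hgx : g.eval x ≠ 0 := left_ne_zero_of_mul hx
    have hhx : ∀ i, (h i).eval x ≠ 0 := fun i => (prod_ne_zero_iff.1 (right_ne_zero_of_mul hx)) i (mem_univ i)
    have hz : u⁻¹ * g.eval x ≠ 0 := mul_ne_zero (inv_ne_zero hu) hgx
    rw [hW]
    simp only
    by_cases h1 : χ (u⁻¹ * g.eval x) = 1
    · obtain ⟨y, hy0, hy⟩ := pow_of_char m χ (by rw [hχ, hcard]) _ hz h1
      have hy' : g.eval x = u * y ^ m := by rw [hy, mul_inv_cancel_left₀ hu]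
      have hex : ∃ i, η ((h i).eval x) ≠ 1 := by
        by_contra hall
        push Not at hall
        choose z hz0 hz1 using fun i => hsqη' _ (hhx i) (hall i)
        obtain ⟨i, hi⟩ := hno x y z hy0 hz0 hy'
        exact hi (hz1 i)
      obtain ⟨i, hi⟩ := hex
      rw [prod_eq_zero (mem_univ i) (by rw [hsqη _ (hhx i) hi]; ring), mul_zero]
    · have h2 : (χ (u⁻¹ * g.eval x)) ^ k = 1 := by
        have h3 : (χ ^ orderOf χ) (u⁻¹ * g.eval x) = 1 := by
          rw [pow_orderOf_eq_one]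
          exact MulChar.one_apply (isUnit_iff_ne_zero.2 hz)
        rw [MulChar.pow_apply' χ (by rw [hχ]; exact hk0.ne') _, hχ] at h3
        exact h3
      rw [geom_sum_eq h1, h2, sub_self, zero_div, zero_mul]
  set r := Fintype.card I with hr
  have hWn : ∀ x, ‖W x‖ ≤ k * 2 ^ r := by
    intro x
    rw [hW]
    simp only
    rw [norm_mul]
    refine mul_le_mul ?_ ?_ (norm_nonneg _) (Nat.cast_nonneg _)
    · refine (norm_sum_le _ _).trans ?_
      calc ∑ j ∈ range k, ‖(χ (u⁻¹ * g.eval x)) ^ j‖ ≤ ∑ j ∈ range k, (1 : ℝ) := by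
            refine sum_le_sum fun j _ => ?_
            rw [norm_pow]
            exact pow_le_one₀ (norm_nonneg _) (hχn _)
        _ = k := by simp
    · rw [norm_prod]
      calc ∏ i, ‖1 + η ((h i).eval x)‖ ≤ ∏ _i : I, (2 : ℝ) := by
            refine prod_le_prod (fun i _ => norm_nonneg _) fun i _ => ?_
            refine (norm_add_le _ _).trans ?_
            rw [norm_one]
            linarith [hηn ((h i).eval x)]
        _ = 2 ^ r := by rw [prod_const, card_univ]
  have hup : ‖∑ x : ZMod p, W x‖ ≤ k * 2 ^ r * n := by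
    have h1 : ∑ x : ZMod p, W x = ∑ x ∈ univ.filter (fun x : ZMod p => (g * ∏ i, h i).eval x = 0), W x := by
      rw [sum_filter]
      refine sum_congr rfl fun x _ => ?_
      split_ifs with h2
      · rfl
      · exact hW0 x h2
    rw [h1]
    refine (norm_sum_le _ _).trans ?_
    calc ∑ x ∈ univ.filter (fun x : ZMod p => (g * ∏ i, h i).eval x = 0), ‖W x‖ ≤
          ∑ x ∈ univ.filter (fun x : ZMod p => (g * ∏ i, h i).eval x = 0), ((k : ℝ) * 2 ^ r) :=
            sum_le_sum fun x _ => hWn x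
      _ = ((univ.filter (fun x : ZMod p => (g * ∏ i, h i).eval x = 0)).card : ℝ) * (k * 2 ^ r) := by
            rw [sum_const, nsmul_eq_mul]
      _ ≤ n * (k * 2 ^ r) := by
            have := card_roots_le (g * ∏ i, h i) hgh0
            have h2 : ((univ.filter (fun x : ZMod p => (g * ∏ i, h i).eval x = 0)).card : ℝ) ≤ n := by
              exact_mod_cast this
            gcongr
      _ = _ := by ring
  -- the expansion
  set G : Option I → (ZMod p)[X] := fun j => j.elim g h with hG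
  have hGprod : ∏ j, G j = g * ∏ i, h i := by
    rw [hG, Fintype.prod_option]
    simp only [Option.elim_none, Option.elim_some]
  have hexp : ∑ x : ZMod p, W x = ∑ j ∈ range k, ∑ A ∈ (univ : Finset I).powerset,
      (χ u⁻¹) ^ j * ∑ x : ZMod p, χ ((∏ o, G o ^ (o.elim j (fun i => if i ∈ A then l else 0))).eval x) := by
    rw [hW]
    simp_rw [sum_mul, prod_one_add, mul_sum]
    rw [sum_comm]
    refine sum_congr rfl fun j _ => ?_
    rw [sum_comm]
    refine sum_congr rfl fun A _ => ?_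
    refine sum_congr rfl fun x _ => ?_
    rw [Fintype.prod_option]
    simp only [hG, Option.elim_none, Option.elim_some]
    have e1 : χ (u⁻¹ * eval x g) = χ u⁻¹ * χ (eval x g) := map_mul _ _ _
    rw [eval_mul, eval_pow, e1, map_mul χ (eval x g ^ j), map_pow χ (eval x g), mul_pow, mul_assoc]
    congr 2
    rw [eval_prod, map_prod]
    have h1 : ∏ i, χ ((h i ^ (if i ∈ A then l else 0)).eval x) = ∏ i, (if i ∈ A then η ((h i).eval x) else 1) := by
      refine prod_congr rfl fun i _ => ?_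
      split_ifs with h2
      · rw [eval_pow, map_pow, hηz]
      · rw [pow_zero, eval_one, map_one]
    rw [h1, prod_ite_mem, univ_inter]
  have hterm : ∀ j ∈ range k, ∀ A : Finset I, ¬ (j = 0 ∧ A = ∅) →
      ‖(χ u⁻¹) ^ j * ∑ x : ZMod p, χ ((∏ o, G o ^ (o.elim j (fun i => if i ∈ A then l else 0))).eval x)‖ ≤
        k * n * Real.sqrt p := by
    intro j hj A hjA
    rw [mem_range] at hj
    rw [norm_mul, norm_pow]
    have hlk : l < k := by omega
    have hex : ∃ o : Option I, (o.elim j (fun i => if i ∈ A then l else 0)) ≠ 0 := by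
      by_cases hj0 : j = 0
      · have hA : A ≠ ∅ := fun hA => hjA ⟨hj0, hA⟩
        obtain ⟨i, hi⟩ := nonempty_iff_ne_empty.2 hA
        exact ⟨some i, by simp [hi]; omega⟩
      · exact ⟨none, by simpa using hj0⟩
    obtain ⟨o, ho⟩ := hex
    have hs := charsum p (Option I) G (by rw [hGprod]; exact hsq) (by
      intro o
      cases o with
      | none => exact hg
      | some i => exact hh i) k hkp χ hχ (fun o => o.elim j (fun i => if i ∈ A then l else 0)) (by
      intro o
      cases o with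
      | none => simpa using hj
      | some i =>
        simp only [Option.elim_some]
        split_ifs
        · exact hlk
        · exact hk0) o ho
    rw [hGprod] at hs
    have h1 : ‖χ u⁻¹‖ ^ j ≤ 1 := pow_le_one₀ (norm_nonneg _) (hχn _)
    calc _ ≤ 1 * (k * n * Real.sqrt p) := mul_le_mul h1 hs (norm_nonneg _) zero_le_one
      _ = _ := one_mul _
  have hlow : (p : ℝ) ≤ k * 2 ^ r * n + k * 2 ^ r * (k * n * Real.sqrt p) := by
    have h0 : (χ u⁻¹) ^ 0 * ∑ x : ZMod p, χ ((∏ o, G o ^ ((o : Option I).elim 0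
        (fun i => if i ∈ (∅ : Finset I) then l else 0))).eval x) = p := by
      have h1 : ∀ o : Option I, (o.elim 0 (fun i => if i ∈ (∅ : Finset I) then l else 0)) = 0 := by
        intro o
        cases o <;> simp
      simp_rw [h1]
      simp [ZMod.card]
    have h2 : (p : ℂ) = ∑ x : ZMod p, W x - ∑ q ∈ ((range k) ×ˢ (univ : Finset I).powerset).erase (0, ∅),
        (χ u⁻¹) ^ q.1 * ∑ x : ZMod p, χ ((∏ o, G o ^ ((o : Option I).elim q.1
          (fun i => if i ∈ q.2 then l else 0))).eval x) := by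
      rw [hexp, ← sum_product', ← add_sum_erase ((range k) ×ˢ (univ : Finset I).powerset) _
        (a := ((0 : ℕ), (∅ : Finset I))) (by simp [hk0]), h0]
      ring
    have h3 : ‖(p : ℂ)‖ = p := by simp
    have h6 : (p : ℝ) = ‖∑ x : ZMod p, W x - ∑ q ∈ ((range k) ×ˢ (univ : Finset I).powerset).erase (0, ∅),
        (χ u⁻¹) ^ q.1 * ∑ x : ZMod p, χ ((∏ o, G o ^ ((o : Option I).elim q.1
          (fun i => if i ∈ q.2 then l else 0))).eval x)‖ := by
      rw [← h2]; exact h3.symm
    refine h6.le.trans ?_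
    refine (norm_sub_le _ _).trans (add_le_add hup ?_)
    refine (norm_sum_le _ _).trans ?_
    calc _ ≤ ∑ q ∈ ((range k) ×ˢ (univ : Finset I).powerset).erase (0, ∅), (k * n * Real.sqrt p : ℝ) := by
          refine sum_le_sum fun q hq => ?_
          rw [mem_erase, mem_product] at hq
          exact hterm q.1 hq.2.1 q.2 (fun hc => hq.1 (Prod.ext hc.1 hc.2))
      _ ≤ _ := by
          rw [sum_const, nsmul_eq_mul]
          have h4 : ((((range k) ×ˢ (univ : Finset I).powerset).erase (0, ∅)).card : ℝ) ≤ k * 2 ^ r := by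
            have h5 : (((range k) ×ˢ (univ : Finset I).powerset).erase (0, ∅)).card ≤ k * 2 ^ r := by
              refine card_erase_le.trans ?_
              rw [card_product, card_range, card_powerset, card_univ]
            exact_mod_cast h5
          gcongr
  -- conclusion
  have hss : Real.sqrt p * Real.sqrt p = p := Real.mul_self_sqrt (Nat.cast_nonneg _)
  set s := Real.sqrt p with hs
  have hs0 : 0 ≤ s := Real.sqrt_nonneg _
  have hp1' : (1 : ℝ) ≤ p := by exact_mod_cast hp1.le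
  have hs1 : 1 ≤ s := by
    by_contra hc
    push Not at hc
    nlinarith
  have hbig' : ((m : ℝ) ^ 2 * 2 ^ (r + 4) * n) ^ 2 < p := by
    exact_mod_cast hbig
  have hQ : 0 ≤ (m : ℝ) ^ 2 * 2 ^ r * n := by positivity
  have hs16 : 16 * ((m : ℝ) ^ 2 * 2 ^ r * n) < s := by
    by_contra hc
    push Not at hc
    have h1 : s * s ≤ (16 * ((m : ℝ) ^ 2 * 2 ^ r * n)) * (16 * ((m : ℝ) ^ 2 * 2 ^ r * n)) :=
      mul_le_mul hc hc hs0 (by positivity)
    rw [hss] at h1
    have h2 : ((m : ℝ) ^ 2 * 2 ^ (r + 4) * n) ^ 2 =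
      (16 * ((m : ℝ) ^ 2 * 2 ^ r * n)) * (16 * ((m : ℝ) ^ 2 * 2 ^ r * n)) := by
      rw [pow_add]; norm_num; ring
    linarith
  have hkm' : (k : ℝ) ≤ m := by exact_mod_cast hkm
  have hk1 : (1 : ℝ) ≤ k := by exact_mod_cast hk0
  have hm1 : (1 : ℝ) ≤ m := hk1.trans hkm'
  have b1 : (k : ℝ) * 2 ^ r * n ≤ (m : ℝ) ^ 2 * 2 ^ r * n := by
    have : (k : ℝ) ≤ (m : ℝ) ^ 2 := by nlinarith
    gcongr
  have b2 : (k : ℝ) * 2 ^ r * (k * n * s) ≤ (m : ℝ) ^ 2 * 2 ^ r * n * s := by
    have h1 : (k : ℝ) * 2 ^ r * (k * n * s) = (k * k) * 2 ^ r * n * s := by ring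
    rw [h1]
    have : (k : ℝ) * k ≤ (m : ℝ) ^ 2 := by nlinarith
    gcongr
  have b3 : (m : ℝ) ^ 2 * 2 ^ r * n ≤ (m : ℝ) ^ 2 * 2 ^ r * n * s := le_mul_of_one_le_right hQ hs1
  have b4 : 16 * ((m : ℝ) ^ 2 * 2 ^ r * n) * s < s * s := mul_lt_mul_of_pos_right hs16 (by linarith)
  nlinarith

end Pool.Agent.H11.EC.WeilM

theorem Pool.Agent.H11.EC.weilm : Pool.Agent.H11.EC.S_WEILM := Pool.Agent.H11.EC.WeilM.main
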