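import Pool.Agent.H11.EC.MainM
import Pool.Agent.H11.EC.Fin1
import Pool.Agent.H11.EC.LOWM
import Pool.Agent.H11.EC.SOLVM
import Pool.Agent.H11.EC.WEILM
import Pool.Agent.H11.EC.CNTM

/-! Project EC': assembly. -/

set_option autoImplicit false

namespace Pool.Agent.H11.EC

open Polynomial NumberField IsDedekindDomain Finset Filter Topology

theorem main_thmM (K I : Type) [Fintype K] [DecidableEq K] [Nonempty K] [Fintype I] (f : K → ℤ[X])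
    (h : I → ℤ[X]) (hyp : Hyp f h) (h6 : 6 ≤ (∏ k, f k).natDegree)
    (hσ : ∀ k, ∃ σ, SQ f h σ = {k}) (m : ℕ) (hm : m ≠ 0) (hmev : Even m) :
    (∀ D : ℤ, D ≠ 0 → CurvePtM m (∏ k, f k) h D ℚ → Sel2 m (∏ k, f k) h D) ∧
    (∀ D : ℤ, D ≠ 0 → Sel2 m (∏ k, f k) h D → ELSM m (∏ k, f k) h D) ∧
    (∃ δ C : ℝ, 0 < δ ∧ ∀ X : ℕ, 3 ≤ X →
      ({D : ℤ | D.natAbs ≤ X ∧ MFree m D ∧ Sel2 m (∏ k, f k) h D}.ncard : ℝ) ≤
        C * Real.log X ^ (-δ) *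
        ({D : ℤ | D.natAbs ≤ X ∧ MFree m D ∧ ELSM m (∏ k, f k) h D}.ncard : ℝ)) ∧
    ((∃ D0 : ℤ, MFree m D0 ∧ ELSM m (∏ k, f k) h D0) → ∀ᶠ X : ℕ in atTop, (X : ℝ) / Real.log X ≤
      ({D : ℤ | D.natAbs ≤ X ∧ MFree m D ∧ ELSM m (∏ k, f k) h D}.ncard : ℝ)) :=
  mainM t_split t_core Mean.main (LOWM.main (SOLVM.main WeilM.main)) CNTM.main K I f h hyp h6 hσ m hm
    hmev

end Pool.Agent.H11.EC
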