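import Pool.Agent.H11.EC.Ap
import Pool.Agent.H11.EM.Main

/-! Project EC: a rational point lifts to a covering; the coverings lie over the curve. -/

set_option autoImplicit false

namespace Pool.Agent.H11.EC

open Polynomial Finset
open Pool.Agent.Q51.EL (hom)
open Pool.Agent.Q51.EB (up)

variable {I : Type}

theorem cov' (g : ℤ[X]) (h : I → ℤ[X]) (x w : ℚ) (z : I → ℚ) (hxw : x ≠ 0 ∨ w ≠ 0)
    (hz : ∀ i, z i ^ 2 = hom (h i) x w) (F : Type) [Field F] [CharZero F] :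
    CovPt g h (C x - C w * X) F := by
  refine ⟨(x : F), (w : F), 1, fun i => (z i : F), ?_, ?_, fun i => ?_⟩
  · rcases hxw with h | h
    · exact Or.inl (by exact_mod_cast h)
    · exact Or.inr (by exact_mod_cast h)
  · have : C (x : F) - C (w : F) * X - (C x - C w * X : ℚ[X]).map (Rat.castHom F) * 1 ^ 2 = 0 := by
      simp [Polynomial.map_sub, Polynomial.map_mul]
    rw [this]
    exact dvd_zero _
  · have h1 := congrArg (Rat.castHom F) (hz i)
    rw [hom_map, map_pow] at h1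
    exact h1

theorem lift' (g : ℤ[X]) (h : I → ℤ[X]) (hg : g ≠ 0)
    (hne : ∀ x w : ℚ, x ≠ 0 ∨ w ≠ 0 → (∀ i, ∃ z : ℚ, z ^ 2 = hom (h i) x w) → hom g x w ≠ 0)
    (D : ℤ) (hpt : CurvePt g h D ℚ) : Sel g h D := by
  obtain ⟨x, w, y, z, hxw, hy, hz⟩ := hpt
  have hG0 : g.map (Int.castRingHom ℚ) ≠ 0 :=
    (Polynomial.map_ne_zero_iff (Int.cast_injective (α := ℚ))).2 hg
  have h0 := hne x w hxw fun i => ⟨z i, hz i⟩
  refine ⟨C x - C w * X, ?_, ?_, cov' g h x w z hxw hz ℝ, fun p _ => cov' g h x w z hxw hz ℚ_[p]⟩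
  · by_cases hw : w = 0
    · subst hw
      have hx : x ≠ 0 := by
        rcases hxw with h | h
        · exact h
        · exact absurd rfl h
      have : IsUnit (C x - C 0 * X : ℚ[X]) := by
        rw [C_0, zero_mul, sub_zero]
        exact isUnit_C.2 (IsUnit.mk0 x hx)
      obtain ⟨u, hu⟩ := this
      exact ⟨0, ((u⁻¹ : (ℚ[X])ˣ) : ℚ[X]), by rw [← hu, zero_mul, zero_add, Units.inv_mul]⟩
    · have h1 : (C x - C w * X : ℚ[X]) = C (-w) * (X - C (x / w)) := by
        rw [mul_sub, ← C_mul]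
        have : -w * (x / w) = -x := by field_simp
        rw [this]
        simp only [C_neg]
        ring
      rw [h1]
      have hu : IsUnit (C (-w) : ℚ[X]) := isUnit_C.2 (IsUnit.mk0 _ (neg_ne_zero.2 hw))
      refine (isCoprime_mul_unit_left_right hu _ _).2 ?_
      rw [isCoprime_comm, (irreducible_X_sub_C (x / w)).coprime_iff_not_dvd, dvd_iff_isRoot,
        IsRoot.def]
      intro h2
      apply h0
      rw [EM.LIFT.hom_eq g x w hw, h2, mul_zero]
  · refine ⟨D * y, ?_⟩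
    have h := EM.LIFT.norm_lin g hG0 x w
    push_cast
    rw [mul_assoc, h, ← hy]
    ring

theorem s2e' (g : ℤ[X]) (h : I → ℤ[X]) (hg : g ≠ 0) (D : ℤ) (d : ℚ[X]) (hD : D ≠ 0)
    (hsq : IsSquare (((D * g.leadingCoeff : ℤ) : ℚ) *
      Algebra.norm ℚ (AdjoinRoot.mk (g.map (Int.castRingHom ℚ)) d)))
    (F : Type) [Field F] [CharZero F] (hcov : CovPt g h d F) : CurvePt g h D F := by
  obtain ⟨x, w, q, z, hxw, hdvd, hz⟩ := hcov
  obtain ⟨s, hs⟩ := hsq
  have hgF : up g F ≠ 0 := by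
    unfold up
    exact (Polynomial.map_ne_zero_iff (Int.cast_injective (α := F))).2 hg
  have hgQ : up g ℚ ≠ 0 := by
    unfold up
    exact (Polynomial.map_ne_zero_iff (Int.cast_injective (α := ℚ))).2 hg
  have h1 : AdjoinRoot.mk (up g F) (C x - C w * X) =
      AdjoinRoot.mk (up g F) (d.map (Rat.castHom F)) * AdjoinRoot.mk (up g F) q ^ 2 := by
    rw [← map_pow, ← map_mul, AdjoinRoot.mk_eq_mk]
    exact hdvd
  have h2 := congrArg (Algebra.norm F) h1
  rw [map_mul, map_pow] at h2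
  have h3 : Algebra.norm F (AdjoinRoot.mk (up g F) (d.map (Rat.castHom F))) =
      ((Algebra.norm ℚ (AdjoinRoot.mk (up g ℚ) d) : ℚ) : F) := by
    rw [Pool.Agent.Q247.EB.up_map g F, Pool.Agent.Q247.EB.norm_bc (Rat.castHom F) hgQ d]
    rfl
  have h4 := Pool.Agent.Q58.EB.norm_lin (F := F) hg x w
  rw [h2, h3] at h4
  obtain ⟨G, hG⟩ : ∃ G, G = Algebra.norm F (AdjoinRoot.mk (up g F) q) := ⟨_, rfl⟩
  obtain ⟨N, hN⟩ : ∃ N, N = Algebra.norm ℚ (AdjoinRoot.mk (up g ℚ) d) := ⟨_, rfl⟩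
  have hs' : ((D * g.leadingCoeff : ℤ) : ℚ) * N = s * s := by
    rw [hN]
    exact hs
  rw [← hG, ← hN] at h4
  have hDF : (D : F) ≠ 0 := by exact_mod_cast hD
  have h8 : ((D : F) * (g.leadingCoeff : F)) * (N : F) = (s : F) * (s : F) := by
    have := congrArg (fun q : ℚ => (q : F)) hs'
    push_cast at this
    exact this
  refine ⟨x, w, (s : F) * G / D, z, hxw, ?_, hz⟩
  rw [← h4]
  field_simp
  linear_combination (-(G ^ 2)) * h8

end Pool.Agent.H11.EC
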