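import Pool.Agent.H11.EC.Lift
import Pool.Agent.H11.EC.StmM

/-! Project EC': the coverings `x - θ w = d(θ) η²` of `D y ^ m = G(x, w)`, `z i ² = H i (x, w)`. -/

set_option autoImplicit false

namespace Pool.Agent.H11.EC

open Polynomial Finset
open Pool.Agent.Q51.EL (hom)

variable {I : Type}

/-- the covering `x - θ w = d(θ) η²` of `X_D : D y ^ m = G(x, w)`, `z i ² = H i (x, w)` has a point over
`F` -/
def CovPt2 (m : ℕ) (g : ℤ[X]) (h : I → ℤ[X]) (D : ℤ) (d : ℚ[X]) (F : Type) [Field F]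
    [CharZero F] : Prop :=
  ∃ (x w y : F) (G : F[X]) (z : I → F), (x ≠ 0 ∨ w ≠ 0) ∧ (D : F) * y ^ m = hom g x w ∧
    g.map (Int.castRingHom F) ∣ C x - C w * X - d.map (Rat.castHom F) * G ^ 2 ∧
    ∀ i, z i ^ 2 = hom (h i) x w

/-- some covering `x - θ w = d(θ) η²` of `X_D` has points over all completions of `ℚ` -/
def Sel2 (m : ℕ) (g : ℤ[X]) (h : I → ℤ[X]) (D : ℤ) : Prop :=
  ∃ d : ℚ[X], IsCoprime (g.map (Int.castRingHom ℚ)) d ∧
    IsSquare (((D * g.leadingCoeff : ℤ) : ℚ) *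
      Algebra.norm ℚ (AdjoinRoot.mk (g.map (Int.castRingHom ℚ)) d)) ∧
    CovPt2 m g h D d ℝ ∧ ∀ (p : ℕ) [Fact p.Prime], CovPt2 m g h D d ℚ_[p]

theorem lift2 (m : ℕ) (hm : Even m) (g : ℤ[X]) (h : I → ℤ[X]) (hg : g ≠ 0)
    (hne : ∀ x w : ℚ, x ≠ 0 ∨ w ≠ 0 → (∀ i, ∃ z : ℚ, z ^ 2 = hom (h i) x w) → hom g x w ≠ 0)
    (D : ℤ) (hpt : CurvePtM m g h D ℚ) : Sel2 m g h D := by
  obtain ⟨n, hn⟩ := hm
  obtain ⟨x, w, y, z, hxw, hy, hz⟩ := hpt
  have h1 : CurvePt g h D ℚ := ⟨x, w, y ^ n, z, hxw, by rw [← pow_mul, mul_two, ← hn, hy], hz⟩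
  have hG0 : g.map (Int.castRingHom ℚ) ≠ 0 :=
    (Polynomial.map_ne_zero_iff (Int.cast_injective (α := ℚ))).2 hg
  have h0 := hne x w hxw fun i => ⟨z i, hz i⟩
  have hcov : ∀ (F : Type) [Field F] [CharZero F], CovPt2 m g h D (C x - C w * X) F := by
    intro F _ _
    refine ⟨(x : F), (w : F), (y : F), 1, fun i => (z i : F), ?_, ?_, ?_, fun i => ?_⟩
    · rcases hxw with h | h
      · exact Or.inl (by exact_mod_cast h)
      · exact Or.inr (by exact_mod_cast h)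
    · have h1 := congrArg (Rat.castHom F) hy
      rw [hom_map, map_mul, map_pow, map_intCast] at h1
      exact h1
    · have : C (x : F) - C (w : F) * X - (C x - C w * X : ℚ[X]).map (Rat.castHom F) * 1 ^ 2 = 0 := by
        simp [Polynomial.map_sub, Polynomial.map_mul]
      rw [this]
      exact dvd_zero _
    · have h1 := congrArg (Rat.castHom F) (hz i)
      rw [hom_map, map_pow] at h1
      exact h1
  refine ⟨C x - C w * X, ?_, ?_, hcov ℝ, fun p _ => hcov ℚ_[p]⟩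
  · by_cases hw : w = 0
    · subst hw
      have hx : x ≠ 0 := by
        rcases hxw with h | h
        · exact h
        · exact absurd rfl h
      have : IsUnit (C x - C 0 * X : ℚ[X]) := by
        rw [C_0, zero_mul, sub_zero]
        exact isUnit_C.2 (IsUnit.mk0 x hx)
      obtain ⟨u, hu⟩ := this
      exact ⟨0, ((u⁻¹ : (ℚ[X])ˣ) : ℚ[X]), by rw [← hu, zero_mul, zero_add, Units.inv_mul]⟩
    · have h1 : (C x - C w * X : ℚ[X]) = C (-w) * (X - C (x / w)) := by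
        rw [mul_sub, ← C_mul]
        have : -w * (x / w) = -x := by field_simp
        rw [this]
        simp only [C_neg]
        ring
      rw [h1]
      have hu : IsUnit (C (-w) : ℚ[X]) := isUnit_C.2 (IsUnit.mk0 _ (neg_ne_zero.2 hw))
      refine (isCoprime_mul_unit_left_right hu _ _).2 ?_
      rw [isCoprime_comm, (irreducible_X_sub_C (x / w)).coprime_iff_not_dvd, dvd_iff_isRoot,
        IsRoot.def]
      intro h2
      apply h0
      rw [EM.LIFT.hom_eq g x w hw, h2, mul_zero]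
  · refine ⟨D * y ^ n, ?_⟩
    have h := EM.LIFT.norm_lin g hG0 x w
    push_cast
    rw [mul_assoc, h, ← hy, hn, pow_add]
    ring

theorem sel2_els (m : ℕ) (g : ℤ[X]) (h : I → ℤ[X]) (D : ℤ) (hs : Sel2 m g h D) : ELSM m g h D := by
  have hcov : ∀ (d : ℚ[X]) (F : Type) [Field F] [CharZero F], CovPt2 m g h D d F →
      CurvePtM m g h D F := by
    rintro d F _ _ ⟨x, w, y, G, z, hxw, hy, -, hz⟩
    exact ⟨x, w, y, z, hxw, hy, hz⟩
  obtain ⟨d, -, -, hR, hp⟩ := hs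
  exact ⟨hcov d ℝ hR, fun p _ => hcov d ℚ_[p] (hp p)⟩

theorem sel2_sel (m : ℕ) (g : ℤ[X]) (h : I → ℤ[X]) (D D' k : ℤ) (hk : k ≠ 0) (hD : D = D' * k ^ 2)
    (hs : Sel2 m g h D) : Sel g h D' := by
  have hcov : ∀ (d : ℚ[X]) (F : Type) [Field F] [CharZero F], CovPt2 m g h D d F →
      CovPt g h d F := by
    rintro d F _ _ ⟨x, w, y, G, z, hxw, -, hdvd, hz⟩
    exact ⟨x, w, G, z, hxw, hdvd, hz⟩
  obtain ⟨d, hd, ⟨c, hc⟩, hR, hp⟩ := hs
  refine ⟨d, hd, ⟨c / k, ?_⟩, hcov d ℝ hR, fun p _ => hcov d ℚ_[p] (hp p)⟩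
  have hk' : (k : ℚ) ≠ 0 := by exact_mod_cast hk
  obtain ⟨N, hN⟩ : ∃ N, N = Algebra.norm ℚ (AdjoinRoot.mk (g.map (Int.castRingHom ℚ)) d) := ⟨_, rfl⟩
  rw [← hN] at hc ⊢
  rw [hD] at hc
  push_cast at hc ⊢
  field_simp
  linear_combination hc

end Pool.Agent.H11.EC
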