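import Pool.Agent.H11.EC.Fin
import Pool.Agent.H11.EC.Lift

/-! Project EC: the main theorem. -/

set_option autoImplicit false
set_option linter.unusedSectionVars false

namespace Pool.Agent.H11.EC

open Polynomial NumberField IsDedekindDomain Finset Filter Topology
open Pool.Agent.Q51.EL (Abv Par N1 pr Setup hom)
open Pool.Agent.H11.EM (Sys fin_nat exists_setup)

theorem main (hSPLIT : S_SPLIT) (hCORE : S_CORE) (hMEAN : S_MEAN) (hLOW : S_LOW)
    (K I : Type) [Fintype K] [DecidableEq K] [Nonempty K] [Fintype I] (f : K → ℤ[X]) (h : I → ℤ[X])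
    (hyp : Hyp f h) (h6 : 6 ≤ (∏ k, f k).natDegree) (hσ : ∀ k, ∃ σ, SQ f h σ = {k}) :
    (∀ D : ℤ, D ≠ 0 → CurvePt (∏ k, f k) h D ℚ → Sel (∏ k, f k) h D) ∧
    (∀ D : ℤ, D ≠ 0 → Sel (∏ k, f k) h D → ELS (∏ k, f k) h D) ∧
    (∃ δ C : ℝ, 0 < δ ∧ ∀ X : ℕ, 3 ≤ X →
      ({D : ℤ | D.natAbs ≤ X ∧ Squarefree D ∧ Sel (∏ k, f k) h D}.ncard : ℝ) ≤
        C * Real.log X ^ (-δ) *
        ({D : ℤ | D.natAbs ≤ X ∧ Squarefree D ∧
          ELS (∏ k, f k) h D}.ncard : ℝ)) ∧
    ((∃ D0 : ℤ, Squarefree D0 ∧ ELS (∏ k, f k) h D0) → ∀ᶠ X : ℕ in atTop, (X : ℝ) / Real.log X ≤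
      ({D : ℤ | D.natAbs ≤ X ∧ Squarefree D ∧
        ELS (∏ k, f k) h D}.ncard : ℝ)) := by
  classical
  have hf0 : ∀ k, f k ≠ 0 := by
    intro k h
    exact (hyp.irr k).ne_zero (by rw [h, Polynomial.map_zero])
  choose L iF iN θ hset using fun k => exists_setup (f k) (hyp.irr k)
  have hs : Sys f L θ := ⟨hset, hyp.na⟩
  have hg0 : ∏ k, f k ≠ 0 := hs.prod_ne
  obtain ⟨ν, h0, h1, h2, h3, h4⟩ := sums hMEAN hLOW f h hyp
  have hνk : ∀ k, 0 < ν {k} := by
    intro k
    obtain ⟨σ, hσk⟩ := hσ k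
    rw [← hσk]
    exact h2 σ
  have hELS : ∀ D : ℤ, D ≠ 0 → Sel (∏ k, f k) h D → ELS (∏ k, f k) h D := by
    rintro D hD ⟨d, hd, hsq, hR, hp⟩
    exact ⟨s2e' _ h hg0 D d hD hsq ℝ hR, fun p _ => s2e' _ h hg0 D d hD hsq ℚ_[p] (hp p)⟩
  obtain ⟨δ, C, hδ, hup⟩ := upper hSPLIT hCORE hyp.evh hs hyp.ev h6 ν h0 hνk h4
  set ρ : ℝ := ∑ T ∈ univ.filter (fun T : Finset K => T.Nonempty), ν T with hρ
  have hρν : ρ = 1 - ν ∅ := by
    have e1 : univ.filter (fun T : Finset K => T.Nonempty) = univ.erase ∅ := by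
      ext T
      simp [Finset.nonempty_iff_ne_empty]
    rw [hρ, e1, Finset.sum_erase_eq_sub (mem_univ _), h1]
  have hρ0 : 0 < ρ := by
    obtain ⟨k⟩ : Nonempty K := inferInstance
    refine lt_of_lt_of_le (hνk k) ?_
    exact Finset.single_le_sum (f := ν) (fun T _ => h0 T)
      (mem_filter.2 ⟨mem_univ _, singleton_nonempty k⟩)
  set δ' : ℝ := min δ ρ with hδ'
  have hδ'0 : 0 < δ' := lt_min hδ hρ0
  have hβ0 : 0 < ρ - δ' / 2 := by linarith [min_le_right δ ρ]
  set NS : ℕ → ℝ := fun X => ({D : ℤ | D.natAbs ≤ X ∧ Squarefree D ∧ Sel (∏ k, f k) h D}.ncard : ℝ)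
    with hNS
  set NE : ℕ → ℝ := fun X => ({D : ℤ | D.natAbs ≤ X ∧ Squarefree D ∧
          ELS (∏ k, f k) h D}.ncard : ℝ) with hNE
  have hle : ∀ X, NS X ≤ NE X := by
    intro X
    refine Nat.cast_le.2 (Set.ncard_le_ncard ?_ (fin_nat X _))
    rintro D ⟨h5, h6, h7⟩
    exact ⟨h5, h6, hELS D h6.ne_zero h7⟩
  have hlow' : (∃ D0 : ℤ, Squarefree D0 ∧ ELS (∏ k, f k) h D0) → ∃ c : ℝ, 0 < c ∧
      ∀ᶠ X : ℕ in atTop, c * X * Real.log X ^ (ρ - δ' / 2 - 1) ≤ NE X := by
    rintro ⟨D0, hD0, hels⟩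
    exact h3 D0 hD0 hels _ hβ0 (by rw [← hρν]; linarith)
  refine ⟨fun D hD hpt => ?_, hELS, ?_, ?_⟩
  · refine lift' (∏ k, f k) h hg0 (fun x w hxw hsq h0' => ?_) D hpt
    have hw : w ≠ 0 := by
      rintro rfl
      rw [EM.LIFT.hom_zero'] at h0'
      rcases mul_eq_zero.1 h0' with h5 | h5
      · exact hg0 (leadingCoeff_eq_zero.1 (by exact_mod_cast h5))
      · rcases hxw with h6 | h6
        · exact h6 (eq_zero_of_pow_eq_zero h5)
        · exact h6 rfl
    rw [EM.LIFT.hom_eq _ x w hw] at h0'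
    have hx : eval (x / w) ((∏ k, f k).map (Int.castRingHom ℚ)) = 0 := by
      rcases mul_eq_zero.1 h0' with h5 | h5
      · exact absurd h5 (pow_ne_zero _ hw)
      · exact h5
    rw [Polynomial.map_prod, eval_prod, Finset.prod_eq_zero_iff] at hx
    obtain ⟨k, -, hk⟩ := hx
    by_cases hK : ∃ j, j ≠ k
    · obtain ⟨j, hj⟩ := hK
      obtain ⟨σ, hσj⟩ := hσ j
      have h5 : k ∈ SQ f h σ := by
        refine mem_filter.2 ⟨mem_univ _, algebraMap ℚ (AlgebraicClosure ℚ) (x / w), ?_,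
          σ.commutes _, fun i => ?_⟩
        · rw [aeval_algebraMap_apply]
          have h6 : aeval (x / w) (f k) = 0 := by
            rw [← hk, eval_map, aeval_def]
            rfl
          rw [h6, map_zero]
        · obtain ⟨z, hz⟩ := hsq i
          obtain ⟨m, hm⟩ := hyp.evh i
          refine ⟨algebraMap ℚ (AlgebraicClosure ℚ) (z / w ^ m), ?_, σ.commutes _⟩
          rw [aeval_algebraMap_apply, ← map_pow]
          congr 1
          rw [EM.LIFT.hom_eq _ x w hw, hm] at hz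
          have h7 : aeval (x / w) (h i) = eval (x / w) ((h i).map (Int.castRingHom ℚ)) := by
            rw [eval_map, aeval_def]
            rfl
          rw [h7, div_pow, hz, ← pow_mul, mul_two]
          field_simp
      rw [hσj, mem_singleton] at h5
      exact hj h5.symm
    · push Not at hK
      have h5 : ∏ k, f k = f k := Fintype.prod_eq_single k fun j hj => absurd (hK j) hj
      rw [h5] at h6
      have h7 : ((f k).map (Int.castRingHom ℚ)).natDegree = 1 :=
        Polynomial.natDegree_eq_of_degree_eq_some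
          (Polynomial.degree_eq_one_of_irreducible_of_root (hyp.irr k) (x := x / w) hk)
      rw [natDegree_map_eq_of_injective (RingHom.injective_int _)] at h7
      omega
  · by_cases hex : ∃ D0 : ℤ, Squarefree D0 ∧ ELS (∏ k, f k) h D0
    · obtain ⟨c, hc, hlow⟩ := hlow' hex
      have hev1 : ∀ᶠ X : ℕ in atTop, NS X ≤ max C 0 / c * Real.log X ^ (-(δ' / 2)) * NE X := by
        filter_upwards [hup, hlow, eventually_ge_atTop 3] with X h5 h6 hX
        have hl1 : (1 : ℝ) < Real.log X := Pool.Agent.W262.TW.one_lt_log hX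
        have hl0 : (0 : ℝ) < Real.log X := by linarith
        have hX0 : (0 : ℝ) < X := by exact_mod_cast (by omega : 0 < X)
        have e1 : Real.log X ^ (ρ - 1 - δ) ≤
            Real.log X ^ (-(δ' / 2)) * Real.log X ^ (ρ - δ' / 2 - 1) := by
          rw [← Real.rpow_add hl0]
          apply Real.rpow_le_rpow_of_exponent_le hl1.le
          linarith [min_le_left δ ρ]
        calc NS X ≤ C * X * Real.log X ^ (ρ - 1 - δ) := h5
          _ ≤ max C 0 * X * Real.log X ^ (ρ - 1 - δ) := by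
              refine mul_le_mul_of_nonneg_right (mul_le_mul_of_nonneg_right (le_max_left _ _) hX0.le)
                (by positivity)
          _ ≤ max C 0 * X * (Real.log X ^ (-(δ' / 2)) * Real.log X ^ (ρ - δ' / 2 - 1)) :=
              mul_le_mul_of_nonneg_left e1 (by positivity)
          _ = max C 0 / c * Real.log X ^ (-(δ' / 2)) * (c * X * Real.log X ^ (ρ - δ' / 2 - 1)) := by
              field_simp
          _ ≤ _ := mul_le_mul_of_nonneg_left h6 (by positivity)
      obtain ⟨X1, hX1⟩ := eventually_atTop.1 hev1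
      refine ⟨δ' / 2, max (max C 0 / c) (Real.log (max X1 3 : ℕ) ^ (δ' / 2)), by linarith,
        fun X hX => ?_⟩
      have hl1 : (1 : ℝ) < Real.log X := Pool.Agent.W262.TW.one_lt_log hX
      have hl0 : (0 : ℝ) < Real.log X := by linarith
      have hNE0 : 0 ≤ NE X := Nat.cast_nonneg _
      rcases le_total X1 X with h | h
      · refine (hX1 X h).trans ?_
        exact mul_le_mul_of_nonneg_right (mul_le_mul_of_nonneg_right (le_max_left _ _)
          (by positivity)) hNE0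
      · refine (hle X).trans ?_
        have h5 : (1 : ℝ) ≤ Real.log (max X1 3 : ℕ) ^ (δ' / 2) * Real.log X ^ (-(δ' / 2)) := by
          rw [Real.rpow_neg hl0.le, ← div_eq_mul_inv, one_le_div (by positivity)]
          refine Real.rpow_le_rpow hl0.le (Real.log_le_log (by positivity) ?_) (by linarith)
          exact_mod_cast h.trans (le_max_left _ _)
        calc NE X = 1 * NE X := (one_mul _).symm
          _ ≤ (Real.log (max X1 3 : ℕ) ^ (δ' / 2) * Real.log X ^ (-(δ' / 2))) * NE X :=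
              mul_le_mul_of_nonneg_right h5 hNE0
          _ ≤ _ := mul_le_mul_of_nonneg_right (mul_le_mul_of_nonneg_right (le_max_right _ _)
              (by positivity)) hNE0
    · refine ⟨1, 0, one_pos, fun X _ => ?_⟩
      have h5 : {D : ℤ | D.natAbs ≤ X ∧ Squarefree D ∧ Sel (∏ k, f k) h D} = ∅ := by
        rw [Set.eq_empty_iff_forall_notMem]
        rintro D ⟨-, h6, h7⟩
        exact hex ⟨D, h6, hELS D h6.ne_zero h7⟩
      rw [h5, Set.ncard_empty]
      simp
  · intro hex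
    obtain ⟨c, hc, hlow⟩ := hlow' hex
    have hlim : ∀ᶠ X : ℕ in atTop, 1 / c ≤ Real.log X ^ (ρ - δ' / 2) :=
      ((tendsto_rpow_atTop hβ0).comp (Real.tendsto_log_atTop.comp
        tendsto_natCast_atTop_atTop)).eventually_ge_atTop (1 / c)
    filter_upwards [hlow, hlim, eventually_ge_atTop 3] with X h5 h6 hX
    have hl1 : (1 : ℝ) < Real.log X := Pool.Agent.W262.TW.one_lt_log hX
    have hl0 : (0 : ℝ) < Real.log X := by linarith
    have hX0 : (0 : ℝ) < X := by exact_mod_cast (by omega : 0 < X)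
    refine le_trans ?_ h5
    have e1 : Real.log X ^ (ρ - δ' / 2 - 1) = Real.log X ^ (ρ - δ' / 2) / Real.log X := by
      rw [Real.rpow_sub hl0, Real.rpow_one]
    rw [e1]
    have h7 : 1 ≤ c * Real.log X ^ (ρ - δ' / 2) := by
      rw [div_le_iff₀ hc] at h6
      linarith
    calc (X : ℝ) / Real.log X = X * 1 / Real.log X := by rw [mul_one]
      _ ≤ X * (c * Real.log X ^ (ρ - δ' / 2)) / Real.log X :=
          div_le_div_of_nonneg_right (mul_le_mul_of_nonneg_left h7 hX0.le) hl0.le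
      _ = _ := by ring

end Pool.Agent.H11.EC
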