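import Pool.Agent.H11.EC.Main
import Pool.Agent.H11.EC.LiftM

/-! Project EC': the main theorem. -/

set_option autoImplicit false
set_option linter.unusedSectionVars false

namespace Pool.Agent.H11.EC

open Polynomial NumberField IsDedekindDomain Finset Filter Topology
open Pool.Agent.Q51.EL (Abv Par N1 pr Setup hom)
open Pool.Agent.H11.EM (PL In Ty1 Ty2 box cls dg NN tau Good Sys S_SIEVE S_CNT fin_nat cover ncard_cover
  good_exp bad_exp pr_eq exists_setup)
open Pool.Agent.W401.Cheb (M)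
open Pool.Agent.W262.RK (PS)

variable {K I : Type} [Fintype K] [DecidableEq K] [Fintype I]

/-- the densities and upper bounds for the sums over primes -/
theorem sumsM [Nonempty K] (hMEAN : S_MEAN) (hLOW : S_LOWM) (f : K → ℤ[X]) (h : I → ℤ[X]) (m : ℕ)
    (hm : m ≠ 0) (hmev : Even m)
    (hyp : Hyp f h) :
    ∃ ν : Finset K → ℝ, (∀ T, 0 ≤ ν T) ∧ (∑ T, ν T = 1) ∧ (∀ σ, 0 < ν (SQ f h σ)) ∧
      (∀ D0 : ℤ, MFree m D0 → ELSM m (∏ k, f k) h D0 → ∀ β : ℝ, 0 < β → β < 1 - ν ∅ →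
        ∃ c : ℝ, 0 < c ∧ ∀ᶠ X : ℕ in atTop, c * X * (Real.log X) ^ (β - 1) ≤
          ({D : ℤ | D.natAbs ≤ X ∧ MFree m D ∧ ELSM m (∏ k, f k) h D}.ncard : ℝ)) ∧
      ∀ (T : Finset (Finset K)) (η : ℝ), 0 < η → ∃ C : ℝ, ∀ Y : ℝ, 3 ≤ Y →
        ∑ q ∈ (Pool.Agent.Q51.EL.pr Y).filter (fun q => SR f h q ∈ T), (1 : ℝ) / q ≤
          (∑ t ∈ T, ν t + η) * Real.log (Real.log Y) + C := by
  classical
  have hf : ∀ k, f k ≠ 0 := by
    intro k h
    exact (hyp.irr k).ne_zero (by rw [h, Polynomial.map_zero])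
  obtain ⟨ν, h0, h1, h2, h3⟩ := hMEAN K I f h hf
  refine ⟨ν, h0, h1, h3, fun D0 hD0 hels β hβ hβ' => ?_, fun T η hη => ?_⟩
  · have h4 : Tendsto (M fun p => if p ∈ {p : ℕ | p.Prime ∧ (SR f h p).Nonempty} then (1 : ℝ) else 0)
        atTop (𝓝 (1 - ν ∅)) := by
      have h3 := h2 (fun T => if T.Nonempty then 1 else 0)
      have e1 : ∑ T, (if T.Nonempty then (1 : ℝ) else 0) * ν T = 1 - ν ∅ := by
        have e2 := Finset.sum_erase_eq_sub (f := ν) (mem_univ (∅ : Finset K))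
        rw [h1] at e2
        rw [← e2, ← Finset.add_sum_erase univ _ (mem_univ (∅ : Finset K))]
        rw [if_neg (by simp), zero_mul, zero_add]
        refine sum_congr rfl fun T hT => ?_
        rw [if_pos (nonempty_iff_ne_empty.2 (ne_of_mem_erase hT)), one_mul]
      rw [e1] at h3
      refine Pool.Agent.W401.Cheb.M_congr (D := 1) one_pos (fun p hp _ => ?_) h3
      by_cases h5 : (SR f h p).Nonempty
      · have h6 : p ∈ {p : ℕ | p.Prime ∧ (SR f h p).Nonempty} := ⟨hp, h5⟩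
        rw [if_pos h6, if_pos h5]
      · have h6 : p ∉ {p : ℕ | p.Prime ∧ (SR f h p).Nonempty} := fun h6 => h5 h6.2
        rw [if_neg h6, if_neg h5]
    obtain ⟨C, hC⟩ := Pool.Agent.W5h36.EL.dens_low {p : ℕ | p.Prime ∧ (SR f h p).Nonempty}
      (fun p hp => hp.1) β hβ.le ((h4.eventually (lt_mem_nhds hβ')).mono fun N hN =>
        hN.le.trans (le_of_eq (by congr!)))
    refine hLOW K I f h m hyp hm hmev D0 hD0 hels β C hβ (by linarith [h0 ∅]) fun N => (hC N).trans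
      (le_of_eq ?_)
    congr!
  · have h4 := h2 (fun t => if t ∈ T then 1 else 0)
    have e1 : ∑ t, (if t ∈ T then (1 : ℝ) else 0) * ν t = ∑ t ∈ T, ν t := by
      simp only [ite_mul, one_mul, zero_mul]
      rw [← Finset.sum_filter]
      congr 1
      ext t
      simp
    rw [e1] at h4
    have hα : 0 ≤ ∑ t ∈ T, ν t + η := add_nonneg (sum_nonneg fun t _ => h0 t) hη.le
    obtain ⟨C, hC⟩ := Pool.Agent.W5h36.EL.dens_up (fun p => if SR f h p ∈ T then (1 : ℝ) else 0) 1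
      (∑ t ∈ T, ν t + η) (fun p => by split_ifs <;> norm_num) (fun p => by split_ifs <;> norm_num)
      ((h4.eventually (gt_mem_nhds (by linarith : ∑ t ∈ T, ν t < ∑ t ∈ T, ν t + η))).mono
        fun N hN => hN.le)
    refine ⟨C, fun Y hY => ?_⟩
    have hN : 3 ≤ ⌊Y⌋₊ := Nat.le_floor (by exact_mod_cast hY)
    have h5 := hC ⌊Y⌋₊ hN
    have h6 : ∑ q ∈ (Pool.Agent.Q51.EL.pr Y).filter (fun q => SR f h q ∈ T), (1 : ℝ) / q =
        ∑ p ∈ PS 0 ⌊Y⌋₊, (if SR f h p ∈ T then (1 : ℝ) else 0) / p := by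
      rw [Finset.sum_filter, pr_eq]
      refine Finset.sum_congr rfl fun p _ => ?_
      split_ifs <;> simp
    rw [h6]
    refine h5.trans ?_
    have h7 : (1 : ℝ) < Real.log ⌊Y⌋₊ := Pool.Agent.W262.TW.one_lt_log hN
    have h8 : Real.log (Real.log ⌊Y⌋₊) ≤ Real.log (Real.log Y) := by
      apply Real.log_le_log (by linarith)
      apply Real.log_le_log (by positivity)
      exact Nat.floor_le (by linarith)
    have := mul_le_mul_of_nonneg_left h8 hα
    linarith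

/-- `D = D' k²`, `D'` squarefree -/
theorem sqf_dec (D : ℤ) (hD : D ≠ 0) : ∃ D' k : ℤ, Squarefree D' ∧ D = D' * k ^ 2 := by
  obtain ⟨a, b, hab, ha⟩ := Nat.sq_mul_squarefree D.natAbs
  have h1 : Squarefree (D.sign * (a : ℤ)) := by
    rw [← Int.squarefree_natAbs, Int.natAbs_mul, Int.natAbs_sign_of_ne_zero hD, one_mul,
      Int.natAbs_natCast]
    exact ha
  refine ⟨D.sign * a, b, h1, ?_⟩
  calc D = D.sign * (D.natAbs : ℤ) := (Int.sign_mul_natAbs D).symm
    _ = D.sign * ((b ^ 2 * a : ℕ) : ℤ) := by rw [hab]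
    _ = D.sign * a * (b : ℤ) ^ 2 := by push_cast; ring

theorem mainM (hSPLIT : S_SPLIT) (hCORE : S_CORE) (hMEAN : S_MEAN) (hLOW : S_LOWM) (hCNT : S_CNTM)
    (K I : Type) [Fintype K] [DecidableEq K] [Nonempty K] [Fintype I] (f : K → ℤ[X]) (h : I → ℤ[X])
    (hyp : Hyp f h) (h6 : 6 ≤ (∏ k, f k).natDegree) (hσ : ∀ k, ∃ σ, SQ f h σ = {k})
    (m : ℕ) (hm : m ≠ 0) (hmev : Even m) :
    (∀ D : ℤ, D ≠ 0 → CurvePtM m (∏ k, f k) h D ℚ → Sel2 m (∏ k, f k) h D) ∧
    (∀ D : ℤ, D ≠ 0 → Sel2 m (∏ k, f k) h D → ELSM m (∏ k, f k) h D) ∧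
    (∃ δ C : ℝ, 0 < δ ∧ ∀ X : ℕ, 3 ≤ X →
      ({D : ℤ | D.natAbs ≤ X ∧ MFree m D ∧ Sel2 m (∏ k, f k) h D}.ncard : ℝ) ≤
        C * Real.log X ^ (-δ) *
        ({D : ℤ | D.natAbs ≤ X ∧ MFree m D ∧
          ELSM m (∏ k, f k) h D}.ncard : ℝ)) ∧
    ((∃ D0 : ℤ, MFree m D0 ∧ ELSM m (∏ k, f k) h D0) → ∀ᶠ X : ℕ in atTop, (X : ℝ) / Real.log X ≤
      ({D : ℤ | D.natAbs ≤ X ∧ MFree m D ∧
        ELSM m (∏ k, f k) h D}.ncard : ℝ)) := by
  classical
  have hf0 : ∀ k, f k ≠ 0 := by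
    intro k h
    exact (hyp.irr k).ne_zero (by rw [h, Polynomial.map_zero])
  choose L iF iN θ hset using fun k => exists_setup (f k) (hyp.irr k)
  have hs : Sys f L θ := ⟨hset, hyp.na⟩
  have hg0 : ∏ k, f k ≠ 0 := hs.prod_ne
  obtain ⟨ν, h0, h1, h2, h3, h4⟩ := sumsM hMEAN hLOW f h m hm hmev hyp
  have hνk : ∀ k, 0 < ν {k} := by
    intro k
    obtain ⟨σ, hσk⟩ := hσ k
    rw [← hσk]
    exact h2 σ
  have hELS : ∀ D : ℤ, D ≠ 0 → Sel2 m (∏ k, f k) h D → ELSM m (∏ k, f k) h D := by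
    exact fun D _ hs => sel2_els m _ h D hs
  obtain ⟨δ, C₁, hδ, hup1⟩ := upper hSPLIT hCORE hyp.evh hs hyp.ev h6 ν h0 hνk h4
  set ρ : ℝ := ∑ T ∈ univ.filter (fun T : Finset K => T.Nonempty), ν T with hρ
  have hρν : ρ = 1 - ν ∅ := by
    have e1 : univ.filter (fun T : Finset K => T.Nonempty) = univ.erase ∅ := by
      ext T
      simp [Finset.nonempty_iff_ne_empty]
    rw [hρ, e1, Finset.sum_erase_eq_sub (mem_univ _), h1]
  obtain ⟨C, hup⟩ : ∃ C : ℝ, ∀ᶠ X : ℕ in atTop,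
      ({D : ℤ | D.natAbs ≤ X ∧ MFree m D ∧ Sel2 m (∏ k, f k) h D}.ncard : ℝ) ≤
        C * X * Real.log X ^ (ρ - 1 - δ) := by
    have e1 : ρ - 1 - δ = -(1 + δ - ρ) := by ring
    rw [e1] at hup1 ⊢
    obtain ⟨C, hC⟩ := hCNT {D : ℤ | Squarefree D ∧ Sel (∏ k, f k) h D} (1 + δ - ρ) C₁
      (by rw [hρν]; linarith [h0 ∅]) (hup1.mono fun X hX => by
        refine le_trans (Nat.cast_le.2 (Set.ncard_le_ncard ?_ ?_)) hX
        · rintro D ⟨h5, -, h6, h7⟩
          exact ⟨h5, h6, h7⟩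
        · exact fin_nat X _)
    refine ⟨C, hC.mono fun X hX => le_trans (Nat.cast_le.2 (Set.ncard_le_ncard ?_ ?_)) hX⟩
    · rintro D ⟨h5, h6, h7⟩
      obtain ⟨D', k, h8, h9⟩ := sqf_dec D h6.1
      have hk0 : k ≠ 0 := by
        rintro rfl
        exact h6.1 (by rw [h9]; ring)
      exact ⟨h5, h6.1, D', k, ⟨h8, sel2_sel m _ h D D' k hk0 h9 h7⟩, h9⟩
    · exact fin_nat X _
  have hρ0 : 0 < ρ := by
    obtain ⟨k⟩ : Nonempty K := inferInstance
    refine lt_of_lt_of_le (hνk k) ?_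
    exact Finset.single_le_sum (f := ν) (fun T _ => h0 T)
      (mem_filter.2 ⟨mem_univ _, singleton_nonempty k⟩)
  set δ' : ℝ := min δ ρ with hδ'
  have hδ'0 : 0 < δ' := lt_min hδ hρ0
  have hβ0 : 0 < ρ - δ' / 2 := by linarith [min_le_right δ ρ]
  set NS : ℕ → ℝ := fun X => ({D : ℤ | D.natAbs ≤ X ∧ MFree m D ∧ Sel2 m (∏ k, f k) h D}.ncard : ℝ)
    with hNS
  set NE : ℕ → ℝ := fun X => ({D : ℤ | D.natAbs ≤ X ∧ MFree m D ∧
          ELSM m (∏ k, f k) h D}.ncard : ℝ) with hNE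
  have hle : ∀ X, NS X ≤ NE X := by
    intro X
    refine Nat.cast_le.2 (Set.ncard_le_ncard ?_ (fin_nat X _))
    rintro D ⟨h5, h6, h7⟩
    exact ⟨h5, h6, hELS D h6.1 h7⟩
  have hlow' : (∃ D0 : ℤ, MFree m D0 ∧ ELSM m (∏ k, f k) h D0) → ∃ c : ℝ, 0 < c ∧
      ∀ᶠ X : ℕ in atTop, c * X * Real.log X ^ (ρ - δ' / 2 - 1) ≤ NE X := by
    rintro ⟨D0, hD0, hels⟩
    exact h3 D0 hD0 hels _ hβ0 (by rw [← hρν]; linarith)
  refine ⟨fun D hD hpt => ?_, hELS, ?_, ?_⟩
  · refine lift2 m hmev (∏ k, f k) h hg0 (fun x w hxw hsq h0' => ?_) D hpt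
    have hw : w ≠ 0 := by
      rintro rfl
      rw [EM.LIFT.hom_zero'] at h0'
      rcases mul_eq_zero.1 h0' with h5 | h5
      · exact hg0 (leadingCoeff_eq_zero.1 (by exact_mod_cast h5))
      · rcases hxw with h6 | h6
        · exact h6 (eq_zero_of_pow_eq_zero h5)
        · exact h6 rfl
    rw [EM.LIFT.hom_eq _ x w hw] at h0'
    have hx : eval (x / w) ((∏ k, f k).map (Int.castRingHom ℚ)) = 0 := by
      rcases mul_eq_zero.1 h0' with h5 | h5
      · exact absurd h5 (pow_ne_zero _ hw)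
      · exact h5
    rw [Polynomial.map_prod, eval_prod, Finset.prod_eq_zero_iff] at hx
    obtain ⟨k, -, hk⟩ := hx
    by_cases hK : ∃ j, j ≠ k
    · obtain ⟨j, hj⟩ := hK
      obtain ⟨σ, hσj⟩ := hσ j
      have h5 : k ∈ SQ f h σ := by
        refine mem_filter.2 ⟨mem_univ _, algebraMap ℚ (AlgebraicClosure ℚ) (x / w), ?_,
          σ.commutes _, fun i => ?_⟩
        · rw [aeval_algebraMap_apply]
          have h6 : aeval (x / w) (f k) = 0 := by
            rw [← hk, eval_map, aeval_def]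
            rfl
          rw [h6, map_zero]
        · obtain ⟨z, hz⟩ := hsq i
          obtain ⟨n, hn⟩ := hyp.evh i
          refine ⟨algebraMap ℚ (AlgebraicClosure ℚ) (z / w ^ n), ?_, σ.commutes _⟩
          rw [aeval_algebraMap_apply, ← map_pow]
          congr 1
          rw [EM.LIFT.hom_eq _ x w hw, hn] at hz
          have h7 : aeval (x / w) (h i) = eval (x / w) ((h i).map (Int.castRingHom ℚ)) := by
            rw [eval_map, aeval_def]
            rfl
          rw [h7, div_pow, hz, ← pow_mul, mul_two]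
          field_simp
      rw [hσj, mem_singleton] at h5
      exact hj h5.symm
    · push Not at hK
      have h5 : ∏ k, f k = f k := Fintype.prod_eq_single k fun j hj => absurd (hK j) hj
      rw [h5] at h6
      have h7 : ((f k).map (Int.castRingHom ℚ)).natDegree = 1 :=
        Polynomial.natDegree_eq_of_degree_eq_some
          (Polynomial.degree_eq_one_of_irreducible_of_root (hyp.irr k) (x := x / w) hk)
      rw [natDegree_map_eq_of_injective (RingHom.injective_int _)] at h7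
      omega
  · by_cases hex : ∃ D0 : ℤ, MFree m D0 ∧ ELSM m (∏ k, f k) h D0
    · obtain ⟨c, hc, hlow⟩ := hlow' hex
      have hev1 : ∀ᶠ X : ℕ in atTop, NS X ≤ max C 0 / c * Real.log X ^ (-(δ' / 2)) * NE X := by
        filter_upwards [hup, hlow, eventually_ge_atTop 3] with X h5 h6 hX
        have hl1 : (1 : ℝ) < Real.log X := Pool.Agent.W262.TW.one_lt_log hX
        have hl0 : (0 : ℝ) < Real.log X := by linarith
        have hX0 : (0 : ℝ) < X := by exact_mod_cast (by omega : 0 < X)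
        have e1 : Real.log X ^ (ρ - 1 - δ) ≤
            Real.log X ^ (-(δ' / 2)) * Real.log X ^ (ρ - δ' / 2 - 1) := by
          rw [← Real.rpow_add hl0]
          apply Real.rpow_le_rpow_of_exponent_le hl1.le
          linarith [min_le_left δ ρ]
        calc NS X ≤ C * X * Real.log X ^ (ρ - 1 - δ) := h5
          _ ≤ max C 0 * X * Real.log X ^ (ρ - 1 - δ) := by
              refine mul_le_mul_of_nonneg_right (mul_le_mul_of_nonneg_right (le_max_left _ _) hX0.le)
                (by positivity)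
          _ ≤ max C 0 * X * (Real.log X ^ (-(δ' / 2)) * Real.log X ^ (ρ - δ' / 2 - 1)) :=
              mul_le_mul_of_nonneg_left e1 (by positivity)
          _ = max C 0 / c * Real.log X ^ (-(δ' / 2)) * (c * X * Real.log X ^ (ρ - δ' / 2 - 1)) := by
              field_simp
          _ ≤ _ := mul_le_mul_of_nonneg_left h6 (by positivity)
      obtain ⟨X1, hX1⟩ := eventually_atTop.1 hev1
      refine ⟨δ' / 2, max (max C 0 / c) (Real.log (max X1 3 : ℕ) ^ (δ' / 2)), by linarith,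
        fun X hX => ?_⟩
      have hl1 : (1 : ℝ) < Real.log X := Pool.Agent.W262.TW.one_lt_log hX
      have hl0 : (0 : ℝ) < Real.log X := by linarith
      have hNE0 : 0 ≤ NE X := Nat.cast_nonneg _
      rcases le_total X1 X with h | h
      · refine (hX1 X h).trans ?_
        exact mul_le_mul_of_nonneg_right (mul_le_mul_of_nonneg_right (le_max_left _ _)
          (by positivity)) hNE0
      · refine (hle X).trans ?_
        have h5 : (1 : ℝ) ≤ Real.log (max X1 3 : ℕ) ^ (δ' / 2) * Real.log X ^ (-(δ' / 2)) := by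
          rw [Real.rpow_neg hl0.le, ← div_eq_mul_inv, one_le_div (by positivity)]
          refine Real.rpow_le_rpow hl0.le (Real.log_le_log (by positivity) ?_) (by linarith)
          exact_mod_cast h.trans (le_max_left _ _)
        calc NE X = 1 * NE X := (one_mul _).symm
          _ ≤ (Real.log (max X1 3 : ℕ) ^ (δ' / 2) * Real.log X ^ (-(δ' / 2))) * NE X :=
              mul_le_mul_of_nonneg_right h5 hNE0
          _ ≤ _ := mul_le_mul_of_nonneg_right (mul_le_mul_of_nonneg_right (le_max_right _ _)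
              (by positivity)) hNE0
    · refine ⟨1, 0, one_pos, fun X _ => ?_⟩
      have h5 : {D : ℤ | D.natAbs ≤ X ∧ MFree m D ∧ Sel2 m (∏ k, f k) h D} = ∅ := by
        rw [Set.eq_empty_iff_forall_notMem]
        rintro D ⟨-, h6, h7⟩
        exact hex ⟨D, h6, hELS D h6.1 h7⟩
      rw [h5, Set.ncard_empty]
      simp
  · intro hex
    obtain ⟨c, hc, hlow⟩ := hlow' hex
    have hlim : ∀ᶠ X : ℕ in atTop, 1 / c ≤ Real.log X ^ (ρ - δ' / 2) :=
      ((tendsto_rpow_atTop hβ0).comp (Real.tendsto_log_atTop.comp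
        tendsto_natCast_atTop_atTop)).eventually_ge_atTop (1 / c)
    filter_upwards [hlow, hlim, eventually_ge_atTop 3] with X h5 h6 hX
    have hl1 : (1 : ℝ) < Real.log X := Pool.Agent.W262.TW.one_lt_log hX
    have hl0 : (0 : ℝ) < Real.log X := by linarith
    have hX0 : (0 : ℝ) < X := by exact_mod_cast (by omega : 0 < X)
    refine le_trans ?_ h5
    have e1 : Real.log X ^ (ρ - δ' / 2 - 1) = Real.log X ^ (ρ - δ' / 2) / Real.log X := by
      rw [Real.rpow_sub hl0, Real.rpow_one]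
    rw [e1]
    have h7 : 1 ≤ c * Real.log X ^ (ρ - δ' / 2) := by
      rw [div_le_iff₀ hc] at h6
      linarith
    calc (X : ℝ) / Real.log X = X * 1 / Real.log X := by rw [mul_one]
      _ ≤ X * (c * Real.log X ^ (ρ - δ' / 2)) / Real.log X :=
          div_le_div_of_nonneg_right (mul_le_mul_of_nonneg_left h7 hX0.le) hl0.le
      _ = _ := by ring

end Pool.Agent.H11.EC
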