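import Mathlib
import Pool.Agent.H11.V.R_pool_sql_team_seeded_9f66d723_W5h36_EL_Frob

/-! Zeros modulo `p` at which some polynomials are squares, and Frobenius elements. -/

set_option autoImplicit false

namespace Pool.Agent.H11.EC.Mean

open Polynomial NumberField Filter Topology
open Pool.Agent.W401.Cheb Pool.Agent.W723.SecC Pool.Agent.R925.FD Pool.Agent.W5h36.EL

/-- the values of this polynomial at `c x` are square multiples of the values of `h` at `x` -/
noncomputable def P (c : ℤ) (h : ℤ[X]) : ℤ[X] := C (c ^ h.natDegree) * scaleRoots h c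

lemma P_eval {R : Type*} [CommRing R] (F : ℤ →+* R) (c : ℤ) (h : ℤ[X]) (x : R) :
    eval₂ F (F c * x) (P c h) = (F c ^ h.natDegree) ^ 2 * eval₂ F x h := by
  unfold P
  rw [eval₂_mul, eval₂_C, scaleRoots_eval₂_mul, map_pow]
  ring

/-- `f` has a zero modulo `p` at which all `h i` are squares if and only if the Frobenius element
fixes a zero `θ` of `f` and square roots of all `h i (θ)` -/
theorem root_frob2 {I : Type} [Fintype I] (L : Type) [Field L] [NumberField L] [IsGalois ℚ L]
    (j : L →+* AlgebraicClosure ℚ) (f : ℤ[X]) (h : I → ℤ[X]) (hf : f ≠ 0)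
    (hs : ∀ θ : AlgebraicClosure ℚ, aeval θ f = 0 → ∃ y, j y = θ)
    (hs2 : ∀ θ : AlgebraicClosure ℚ, aeval θ f = 0 → ∀ i, ∀ s : AlgebraicClosure ℚ,
      s ^ 2 = aeval θ (h i) → ∃ y, j y = s) :
    ∃ D : ℕ, 0 < D ∧ ∀ (p : ℕ) [Fact p.Prime], ¬ p ∣ D →
      ∀ (φ : 𝓞 L →+* AlgebraicClosure (ZMod p)) (g : Gal(L/ℚ)), HasFrob p φ g →
        ((∃ r : ℤ, (p : ℤ) ∣ f.eval r ∧ ∀ i, ∃ s : ℤ, (p : ℤ) ∣ s ^ 2 - (h i).eval r) ↔
          ∃ θ : L, aeval θ f = 0 ∧ g θ = θ ∧ ∀ i, ∃ s : L, s ^ 2 = aeval θ (h i) ∧ g s = s) := by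
  classical
  have hZ : algebraMap ℤ L = Int.castRingHom L := RingHom.ext_int _ _
  have hZQ : algebraMap ℤ (AlgebraicClosure ℚ) = Int.castRingHom (AlgebraicClosure ℚ) :=
    RingHom.ext_int _ _
  have hc0 : f.leadingCoeff ≠ 0 := leadingCoeff_ne_zero.2 hf
  set c : ℤ := f.leadingCoeff with hc
  have hcL : (c : L) ≠ 0 := Int.cast_ne_zero.2 hc0
  have hcQ : (c : AlgebraicClosure ℚ) ≠ 0 := Int.cast_ne_zero.2 hc0
  set Fh : (𝓞 L)[X] := (integralNormalization f).map (Int.castRingHom (𝓞 L)) with hFh
  have hFm : Fh.Monic := (monic_integralNormalization hf).map _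
  rcases Nat.eq_zero_or_pos f.natDegree with hd0 | hd1
  · -- constants
    refine ⟨c.natAbs, Int.natAbs_pos.2 hc0, fun p _ hp φ g _ => ?_⟩
    have hC : f = C c := by
      rw [hc, leadingCoeff, hd0]
      exact eq_C_of_natDegree_eq_zero hd0
    constructor
    · rintro ⟨θ, hθ, -⟩
      rw [hC, eval_C] at hθ
      exact absurd (Int.natCast_dvd.1 hθ) hp
    · rintro ⟨θ, hθ, -, -⟩
      rw [hC, aeval_C, hZ, eq_intCast] at hθ
      exact absurd hθ hcL
  · -- zeros of the normalisation
    have hFL : ∀ θ : L, eval₂ (algebraMap (𝓞 L) L) θ Fh = 0 → aeval (θ / c) f = 0 := by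
      intro θ hθ
      rw [hFh, eval₂_map] at hθ
      have e1 : (algebraMap (𝓞 L) L).comp (Int.castRingHom (𝓞 L)) = Int.castRingHom L :=
        RingHom.ext_int _ _
      rw [e1] at hθ
      have e2 := integralNormalization_eval₂_leadingCoeff_mul hd1 (Int.castRingHom L) (θ / c)
      rw [eq_intCast, ← hc, mul_div_cancel₀ _ hcL, hθ] at e2
      rw [aeval_def, hZ]
      exact (mul_eq_zero.1 e2.symm).resolve_left (pow_ne_zero _ hcL)
    have hFhs : (Fh.map (algebraMap (𝓞 L) L)).Splits := by
      have h6 : ((Fh.map (algebraMap (𝓞 L) L)).map j).Splits := IsAlgClosed.splits _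
      refine Splits.of_splits_map j h6 ?_
      intro θ hθ
      have h7 : ((Fh.map (algebraMap (𝓞 L) L)).map j).IsRoot θ := Polynomial.isRoot_of_mem_roots hθ
      rw [IsRoot.def, Polynomial.map_map, eval_map, hFh, eval₂_map] at h7
      have e1 : (j.comp (algebraMap (𝓞 L) L)).comp (Int.castRingHom (𝓞 L)) =
          Int.castRingHom (AlgebraicClosure ℚ) := RingHom.ext_int _ _
      rw [e1] at h7
      have e2 := integralNormalization_eval₂_leadingCoeff_mul hd1
        (Int.castRingHom (AlgebraicClosure ℚ)) (θ / c)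
      rw [eq_intCast, ← hc, mul_div_cancel₀ _ hcQ, h7] at e2
      obtain ⟨y, hy⟩ := hs (θ / c) (by
        rw [aeval_def, hZQ]
        exact (mul_eq_zero.1 e2.symm).resolve_left (pow_ne_zero _ hcQ))
      refine ⟨c * y, ?_⟩
      rw [map_mul, hy, map_intCast, mul_div_cancel₀ _ hcQ]
    -- square roots
    have hjev : ∀ (θ : L) (q : ℤ[X]), aeval (j θ) q = j (aeval θ q) := by
      intro θ q
      rw [aeval_def, aeval_def, hZQ, hZ, Polynomial.hom_eval₂]
      congr 1
      exact RingHom.ext_int _ _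
    have hsq : ∀ θ : L, aeval θ f = 0 → ∀ i, ∃ v : L, v ^ 2 = aeval θ (h i) := by
      intro θ hθ i
      obtain ⟨w, hw⟩ := IsAlgClosed.exists_pow_nat_eq (j (aeval θ (h i))) (n := 2) (by norm_num)
      obtain ⟨v, hv⟩ := hs2 (j θ) (by rw [hjev, hθ, map_zero]) i w (by rw [hw, hjev])
      refine ⟨v, j.injective ?_⟩
      rw [map_pow, hv, hw]
    -- the bad primes
    choose mx hmx hmx' using fun x : {x : 𝓞 L // x ≠ 0} => nz L _ x.2
    let ff : 𝓞 L → ℕ := fun x => if hx : x ≠ 0 then mx ⟨x, hx⟩ else 1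
    have hff : ∀ x, 0 < ff x := by
      intro x
      simp only [ff]
      split_ifs with h
      · exact hmx _
      · exact Nat.one_pos
    set T : Finset (𝓞 L) := (Fh.roots.toFinset ×ˢ (Finset.univ : Finset Gal(L/ℚ))).image
      (fun x => x.2 • x.1 - x.1) with hT
    set T2 : Finset (𝓞 L) := (Fh.roots.toFinset ×ˢ (Finset.univ : Finset I)).image
      (fun x => eval₂ (Int.castRingHom (𝓞 L)) x.1 (P c (h x.2))) with hT2
    refine ⟨2 * c.natAbs * ∏ x ∈ T ∪ T2, ff x, Nat.mul_pos (Nat.mul_pos (by norm_num)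
      (Int.natAbs_pos.2 hc0)) (Finset.prod_pos fun x _ => hff x), fun p hpF hp φ g hφ => ?_⟩
    have hcp : (c : ZMod p) ≠ 0 := by
      intro h1
      have h2 := Int.natCast_dvd.1 ((ZMod.intCast_zmod_eq_zero_iff_dvd _ p).1 h1)
      exact hp ((h2.mul_left 2).trans (Dvd.intro _ rfl))
    have hinj : ∀ x ∈ T ∪ T2, φ x = 0 → x = 0 := by
      intro x hx h0
      by_contra hne
      have h2 : ((ff x : ℕ) : AlgebraicClosure (ZMod p)) ≠ 0 := by
        intro h
        rw [CharP.cast_eq_zero_iff (AlgebraicClosure (ZMod p)) p] at h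
        exact hp (h.trans ((Finset.dvd_prod_of_mem ff hx).trans (Dvd.intro_left _ rfl)))
      have h3 : ff x = mx ⟨x, hne⟩ := dif_pos hne
      rw [h3] at h2
      exact hmx' ⟨x, hne⟩ _ φ h2 h0
    set k' := AlgebraicClosure (ZMod p) with hk'
    have h2k : (2 : k') ≠ 0 := by
      intro h
      have h' : ((2 : ℕ) : k') = 0 := by exact_mod_cast h
      rw [CharP.cast_eq_zero_iff k' p] at h'
      exact hp ((h'.mul_right c.natAbs).trans (Dvd.intro _ rfl))
    let ι : ZMod p →+* k' := algebraMap (ZMod p) k'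
    have hιinj : Function.Injective ι := ι.injective
    have e1 : φ.comp (Int.castRingHom (𝓞 L)) = ι.comp (Int.castRingHom (ZMod p)) :=
      RingHom.ext_int _ _
    have hFt : ∀ t : ZMod p, eval₂ φ (ι t) Fh =
        ι (eval₂ (Int.castRingHom (ZMod p)) t (integralNormalization f)) := by
      intro t
      rw [hFh, eval₂_map, e1, ← Polynomial.hom_eval₂]
    -- values of the polynomials `P c (h i)`
    have hPφ : ∀ (x : 𝓞 L) (t : ZMod p) (q : ℤ[X]), φ x = ι t →
        φ (eval₂ (Int.castRingHom (𝓞 L)) x q) = ι (eval₂ (Int.castRingHom (ZMod p)) t q) := by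
      intro x t q hx
      rw [Polynomial.hom_eval₂, hx, e1, ← Polynomial.hom_eval₂]
    have hPL : ∀ (x : 𝓞 L) (q : ℤ[X]), ((eval₂ (Int.castRingHom (𝓞 L)) x q : 𝓞 L) : L) =
        eval₂ (Int.castRingHom L) (x : L) q := by
      intro x q
      have h1 := Polynomial.hom_eval₂ q (Int.castRingHom (𝓞 L)) (algebraMap (𝓞 L) L) x
      have h2 : (algebraMap (𝓞 L) L).comp (Int.castRingHom (𝓞 L)) = Int.castRingHom L :=
        RingHom.ext_int _ _
      rw [h2] at h1
      exact h1
    -- the multiple of a square root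
    have hV : ∀ (x : 𝓞 L) (θ v : L) (i : I), (x : L) = c * θ → v ^ 2 = aeval θ (h i) →
        ∃ V : 𝓞 L, (V : L) = (c : L) ^ (h i).natDegree * v ∧
          V ^ 2 = eval₂ (Int.castRingHom (𝓞 L)) x (P c (h i)) := by
      intro x θ v i hx hv
      have h1 : ((c : L) ^ (h i).natDegree * v) ^ 2 =
          ((eval₂ (Int.castRingHom (𝓞 L)) x (P c (h i)) : 𝓞 L) : L) := by
        rw [hPL, hx]
        have h2 := P_eval (Int.castRingHom L) c (h i) θ
        rw [eq_intCast] at h2
        rw [h2, mul_pow, hv, aeval_def, hZ]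
      have h3 : IsIntegral ℤ ((c : L) ^ (h i).natDegree * v) := by
        apply IsIntegral.of_pow (n := 2) (by norm_num)
        rw [h1]
        exact RingOfIntegers.isIntegral_coe _
      obtain ⟨V, hVL⟩ : ∃ V : 𝓞 L, (V : L) = (c : L) ^ (h i).natDegree * v := ⟨⟨_, h3⟩, rfl⟩
      refine ⟨V, hVL, ?_⟩
      apply RingOfIntegers.coe_injective
      rw [map_pow]
      refine Eq.trans ?_ h1
      exact congrArg (fun z => z ^ 2) hVL
    constructor
    · rintro ⟨θ, hθ, hsθ⟩
      have hθ' : eval₂ (Int.castRingHom (ZMod p)) (θ : ZMod p) f = 0 := by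
        have h1 := eval₂_at_apply (p := f) (Int.castRingHom (ZMod p)) θ
        rw [eq_intCast, eq_intCast] at h1
        rw [h1]
        exact (ZMod.intCast_zmod_eq_zero_iff_dvd _ p).2 hθ
      have hr0 : eval₂ φ (ι ((c : ZMod p) * θ)) Fh = 0 := by
        rw [hFt]
        have e2 := integralNormalization_eval₂_leadingCoeff_mul hd1 (Int.castRingHom (ZMod p))
          (θ : ZMod p)
        rw [eq_intCast, hθ', mul_zero] at e2
        rw [e2, map_zero]
      obtain ⟨y, hy, hφy⟩ := lift_root L Fh hFm hFhs φ _ hr0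
      have hyR : y ∈ Fh.roots.toFinset := by
        rw [Multiset.mem_toFinset, mem_roots hFm.ne_zero]
        exact hy
      have hyT : g • y - y ∈ T := by
        rw [hT]
        exact Finset.mem_image.2 ⟨(y, g), Finset.mem_product.2 ⟨hyR, Finset.mem_univ _⟩, rfl⟩
      have hgy : g • y = y := by
        rw [← sub_eq_zero]
        refine hinj _ (Finset.mem_union_left _ hyT) ?_
        rw [map_sub, hφ y, hφy, algMap_pow, sub_self]
      have hyL : eval₂ (algebraMap (𝓞 L) L) ((y : 𝓞 L) : L) Fh = 0 := by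
        have h1 := congrArg (algebraMap (𝓞 L) L) hy
        rw [map_zero, ← eval₂_at_apply] at h1
        exact h1
      have h2 : g (y : L) = (y : L) := congrArg (fun z : 𝓞 L => (z : L)) hgy
      have hgθ : g ((y : L) / c) = (y : L) / c := by rw [map_div₀, h2, map_intCast]
      refine ⟨(y : L) / c, hFL _ hyL, hgθ, fun i => ?_⟩
      obtain ⟨v, hv⟩ := hsq _ (hFL _ hyL) i
      refine ⟨v, hv, ?_⟩
      obtain ⟨V, hV1, hV2⟩ := hV y _ v i (mul_div_cancel₀ _ hcL).symm hv
      have hgv2 : g v ^ 2 = v ^ 2 := by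
        rw [← map_pow, hv]
        have h3 : g (aeval ((y : L) / c) (h i)) = aeval (g ((y : L) / c)) (h i) := by
          have h4 := Polynomial.hom_eval₂ (h i) (Int.castRingHom L) (g : L →+* L) ((y : L) / c)
          rw [aeval_def, aeval_def, hZ]
          refine h4.trans ?_
          congr 1
          exact RingHom.ext_int _ _
        rw [h3, hgθ]
      rcases sq_eq_sq_iff_eq_or_eq_neg.mp hgv2 with h3 | h3
      · exact h3
      · -- then `V = 0`
        have hgV : g • V = -V := by
          apply RingOfIntegers.coe_injective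
          change g ((V : 𝓞 L) : L) = -((V : 𝓞 L) : L)
          rw [hV1, map_mul, map_pow, map_intCast, h3]
          ring
        obtain ⟨s, hsi⟩ := hsθ i
        have h4 : eval₂ (Int.castRingHom (ZMod p)) (θ : ZMod p) (h i) = (s : ZMod p) ^ 2 := by
          have h1 := eval₂_at_apply (p := h i) (Int.castRingHom (ZMod p)) θ
          rw [eq_intCast, eq_intCast] at h1
          rw [h1]
          have h5 := (ZMod.intCast_zmod_eq_zero_iff_dvd _ p).2 hsi
          push_cast at h5
          exact (sub_eq_zero.mp h5).symm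
        have h5 : φ V ^ 2 = (ι ((c : ZMod p) ^ (h i).natDegree * s)) ^ 2 := by
          rw [← map_pow, hV2, hPφ y _ _ hφy]
          have h6 := P_eval (Int.castRingHom (ZMod p)) c (h i) (θ : ZMod p)
          rw [eq_intCast] at h6
          rw [h6, h4, ← map_pow, mul_pow]
        have h6 : φ V ^ p = φ V := by
          rcases sq_eq_sq_iff_eq_or_eq_neg.mp h5 with h7 | h7
          · rw [h7]; exact algMap_pow _
          · rw [h7, ← map_neg]; exact algMap_pow _
        have h7 : φ V = - φ V := by
          have h70 : φ (g • V) = φ V ^ p := hφ V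
          rw [hgV, map_neg, h6] at h70
          exact h70.symm
        have h8 : φ V = 0 := by
          have h9 : (2 : k') * φ V = 0 := by
            rw [two_mul]
            nth_rewrite 2 [h7]
            rw [add_neg_cancel]
          exact (mul_eq_zero.1 h9).resolve_left h2k
        have h9 : eval₂ (Int.castRingHom (𝓞 L)) y (P c (h i)) = 0 := by
          refine hinj _ (Finset.mem_union_right _ ?_) ?_
          · rw [hT2]
            exact Finset.mem_image.2 ⟨(y, i), Finset.mem_product.2 ⟨hyR, Finset.mem_univ _⟩, rfl⟩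
          · rw [← hV2, map_pow, h8]; simp
        rw [h9] at hV2
        have h10 : V = 0 := pow_eq_zero_iff (two_ne_zero) |>.mp hV2
        have h12 : (c : L) ^ (h i).natDegree * v = 0 := by
          rw [← hV1, h10]
          rfl
        have h11 : v = 0 := (mul_eq_zero.1 h12).resolve_left (pow_ne_zero _ hcL)
        rw [h11, map_zero]
    · rintro ⟨θ, hθ, hgθ, hsθ⟩
      have hθ' : eval₂ (Int.castRingHom L) θ f = 0 := by
        rw [aeval_def, hZ] at hθ
        exact hθ
      have hint : eval₂ (Int.castRingHom L) (c * θ) (integralNormalization f) = 0 := by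
        have e2 := integralNormalization_eval₂_leadingCoeff_mul hd1 (Int.castRingHom L) θ
        rw [eq_intCast, hθ', mul_zero] at e2
        exact e2
      have hI : IsIntegral ℤ ((c : L) * θ) :=
        ⟨integralNormalization f, monic_integralNormalization hf, by rw [hZ]; exact hint⟩
      set x0 : 𝓞 L := ⟨(c : L) * θ, hI⟩ with hx0
      have hx0L : ((x0 : 𝓞 L) : L) = c * θ := rfl
      have hgx : g • x0 = x0 := by
        apply RingOfIntegers.coe_injective
        change g ((x0 : 𝓞 L) : L) = ((x0 : 𝓞 L) : L)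
        rw [hx0L, map_mul, map_intCast, hgθ]
      have hpow : φ x0 ^ p = φ x0 := by rw [← hφ x0, hgx]
      obtain ⟨t, ht⟩ := exists_zmod hpow
      have hx0F : Fh.eval x0 = 0 := by
        apply RingOfIntegers.coe_injective
        rw [← eval₂_at_apply, hFh, eval₂_map]
        have e3 : (algebraMap (𝓞 L) L).comp (Int.castRingHom (𝓞 L)) = Int.castRingHom L :=
          RingHom.ext_int _ _
        rw [e3, map_zero]
        exact hint
      have h1 := congrArg φ hx0F
      rw [map_zero, ← eval₂_at_apply, ← ht] at h1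
      have h2 := hFt t
      have h3 : eval₂ φ (ι t) Fh = 0 := h1
      rw [h3] at h2
      have h4 : eval₂ (Int.castRingHom (ZMod p)) t (integralNormalization f) = 0 := by
        apply hιinj
        rw [← h2, map_zero]
      have e2 := integralNormalization_eval₂_leadingCoeff_mul hd1 (Int.castRingHom (ZMod p))
        (t / c)
      rw [eq_intCast, ← hc, mul_div_cancel₀ _ hcp, h4] at e2
      have h5 := (mul_eq_zero.1 e2.symm).resolve_left (pow_ne_zero _ hcp)
      obtain ⟨θ', hθ''⟩ := ZMod.intCast_surjective (t / (c : ZMod p))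
      refine ⟨θ', ?_, fun i => ?_⟩
      · rw [← hθ''] at h5
        have h6 := eval₂_at_apply (p := f) (Int.castRingHom (ZMod p)) θ'
        rw [eq_intCast, eq_intCast, h5] at h6
        exact (ZMod.intCast_zmod_eq_zero_iff_dvd _ p).1 h6.symm
      · obtain ⟨v, hv, hgv⟩ := hsθ i
        obtain ⟨V, hV1, hV2⟩ := hV x0 θ v i hx0L hv
        have hgV : g • V = V := by
          apply RingOfIntegers.coe_injective
          change g ((V : 𝓞 L) : L) = ((V : 𝓞 L) : L)
          rw [hV1, map_mul, map_pow, map_intCast, hgv]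
        have hpowV : φ V ^ p = φ V := by rw [← hφ V, hgV]
        obtain ⟨u, hu⟩ := exists_zmod hpowV
        have h6 : ι (u ^ 2) = ι (((c : ZMod p) ^ (h i).natDegree) ^ 2 *
            eval₂ (Int.castRingHom (ZMod p)) (t / c) (h i)) := by
          rw [map_pow]
          have h7 : ι u = φ V := hu
          rw [h7, ← map_pow, hV2, hPφ x0 t _ ht.symm]
          congr 1
          have h8 := P_eval (Int.castRingHom (ZMod p)) c (h i) (t / (c : ZMod p))
          rw [eq_intCast, mul_div_cancel₀ _ hcp] at h8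
          exact h8
        have h7 := hιinj h6
        obtain ⟨s, hs'⟩ := ZMod.intCast_surjective (u / (c : ZMod p) ^ (h i).natDegree)
        refine ⟨s, ?_⟩
        apply (ZMod.intCast_zmod_eq_zero_iff_dvd _ p).1
        push_cast
        have h8 := eval₂_at_apply (p := h i) (Int.castRingHom (ZMod p)) θ'
        rw [eq_intCast, eq_intCast, hθ''] at h8
        rw [← h8, hs', div_pow, h7, mul_div_cancel_left₀ _ (pow_ne_zero _ (pow_ne_zero _ hcp)),
          sub_self]

end Pool.Agent.H11.EC.Mean
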