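import Mathlib
import Pool.Agent.H11.EC.Stm
import Pool.Agent.H11.V.H29_EM_M2
import Pool.Agent.H11.V.R_seed8_W975_TW_Loc3
import Pool.Agent.H11.V.R_pool_sql_team_seeded_3997aac3_Q91_EL_Small
import Pool.Agent.H11.V.R_pool_sql_team_seeded_3997aac3_Q247_EL_M1
import Pool.Agent.H11.V.R_seed8_W54_Cheb_Tor

/-! JOB EC-SPLIT (helper58): many primes split completely in all the `L k` and have `SR f h l ≠ ∅`. -/

set_option autoImplicit false

namespace Pool.Agent.H11.EC

open Polynomial NumberField IsDedekindDomain Finset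
open Pool.Agent.Q51.EL (N1 pr)
open Pool.Agent.H11.EM (dg NN Sys)
open Pool.Agent.W262.TW (hom)
open Pool.Agent.W975.TW (hom_map hom_smul hom_one)

namespace Split

/-- the residue map of a prime of degree one -/
lemma exists_hom {N : Type} [Field N] [NumberField N] {l : ℕ} (hl : l.Prime)
    (v : HeightOneSpectrum (𝓞 N)) (hv : Ideal.absNorm v.asIdeal = l) :
    Nonempty (𝓞 N →+* ZMod l) := by
  have hcard : Nat.card (𝓞 N ⧸ v.asIdeal) = l := by
    rw [← hv, Ideal.absNorm_apply, Submodule.cardQuot_apply]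
  have hfin : Finite (𝓞 N ⧸ v.asIdeal) := Nat.finite_of_card_ne_zero (by
    rw [hcard]; exact hl.ne_zero)
  letI := Fintype.ofFinite (𝓞 N ⧸ v.asIdeal)
  rw [Nat.card_eq_fintype_card] at hcard
  exact ⟨((ZMod.ringEquivOfPrime (𝓞 N ⧸ v.asIdeal) hl hcard).symm.toRingHom).comp
    (Ideal.Quotient.mk v.asIdeal)⟩

lemma key {I : Type} {N : Type} [Field N] [NumberField N] {θ : N} {f : ℤ[X]}
    (hθ : aeval θ f = 0) (h : I → ℤ[X]) (v : I → N) (hv : ∀ i, v i ^ 2 = aeval θ (h i))
    {l : ℕ} (hl : l.Prime) (ha : ¬ (l : ℤ) ∣ f.leadingCoeff) (φ : 𝓞 N →+* ZMod l) :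
    ∃ r : ℤ, (l : ℤ) ∣ f.eval r ∧ ∀ i, ∃ s : ℤ, (l : ℤ) ∣ s ^ 2 - (h i).eval r := by
  have : Fact l.Prime := ⟨hl⟩
  set a := f.leadingCoeff with hadef
  have hint : IsIntegral ℤ ((a : N) * θ) := by
    have := isIntegral_leadingCoeff_smul f θ hθ
    rwa [zsmul_eq_mul] at this
  set t : 𝓞 N := ⟨(a : N) * θ, hint⟩ with ht
  have htL : algebraMap (𝓞 N) N t = (a : N) * θ := rfl
  have hap : ((a : ℤ) : ZMod l) ≠ 0 := fun h => ha ((ZMod.intCast_zmod_eq_zero_iff_dvd _ l).1 h)
  have hev : ∀ q : ℤ[X], hom q θ 1 = aeval θ q := by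
    intro q
    rw [hom_one, aeval_def]
    rfl
  have hq : ∀ q : ℤ[X], algebraMap (𝓞 N) N (hom q t (a : 𝓞 N)) = (a : N) ^ q.natDegree * aeval θ q := by
    intro q
    rw [hom_map, htL, ← hev, ← hom_smul, mul_one, map_intCast]
  -- the zero modulo l
  set ρ : ZMod l := φ t / a with hρ
  have hφt : φ t = (a : ZMod l) * ρ := by rw [hρ]; field_simp
  have hφq : ∀ q : ℤ[X], φ (hom q t (a : 𝓞 N)) = (a : ZMod l) ^ q.natDegree * hom q ρ 1 := by
    intro q
    rw [hom_map, hφt, ← hom_smul, mul_one, map_intCast]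
  obtain ⟨r, hr⟩ := ZMod.intCast_surjective ρ
  have hre : ∀ q : ℤ[X], hom q ρ 1 = ((q.eval r : ℤ) : ZMod l) := by
    intro q
    rw [hom_one, ← hr]
    have := eval₂_at_apply (p := q) (Int.castRingHom (ZMod l)) r
    rw [eq_intCast, eq_intCast] at this
    exact this
  have hinj : Function.Injective (algebraMap (𝓞 N) N) := RingOfIntegers.coe_injective
  refine ⟨r, ?_, ?_⟩
  · rw [← ZMod.intCast_zmod_eq_zero_iff_dvd, ← hre]
    have h1 : hom f t (a : 𝓞 N) = 0 := by
      apply hinj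
      rw [hq, hθ, mul_zero, map_zero]
    have h2 := hφq f
    rw [h1, map_zero] at h2
    rcases mul_eq_zero.1 h2.symm with h3 | h3
    · exact absurd h3 (pow_ne_zero _ hap)
    · exact h3
  · intro i
    set d := (h i).natDegree with hd
    have h1 : ((a : N) ^ d * v i) ^ 2 =
        algebraMap (𝓞 N) N ((a : 𝓞 N) ^ d * hom (h i) t (a : 𝓞 N)) := by
      rw [map_mul, hq, ← hv, map_pow, map_intCast, hd]
      ring
    have h2 : IsIntegral ℤ ((a : N) ^ d * v i) := by
      refine IsIntegral.of_pow (n := 2) (by norm_num) ?_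
      rw [h1]
      exact RingOfIntegers.isIntegral_coe _
    set u : 𝓞 N := ⟨(a : N) ^ d * v i, h2⟩ with hu
    have h3 : u ^ 2 = (a : 𝓞 N) ^ d * hom (h i) t (a : 𝓞 N) := by
      apply hinj
      rw [map_pow]
      exact h1
    have h4 := congrArg φ h3
    rw [map_pow, map_mul, hφq, map_pow, map_intCast, hre] at h4
    obtain ⟨s, hs⟩ := ZMod.intCast_surjective (φ u / (a : ZMod l) ^ d)
    refine ⟨s, ?_⟩
    rw [← ZMod.intCast_zmod_eq_zero_iff_dvd, Int.cast_sub, Int.cast_pow, hs, div_pow, h4]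
    have h5 : ((a : ℤ) : ZMod l) ^ d ≠ 0 := pow_ne_zero _ hap
    rw [← hd]
    field_simp
    ring

/-- a number field with a zero of `f` and square roots of the `h i` at this zero -/
lemma exists_field {I : Type} [Fintype I] (f : ℤ[X]) (hf : 0 < f.natDegree) (h : I → ℤ[X]) :
    ∃ (N : Type) (_ : Field N) (_ : NumberField N) (θ : N) (v : I → N), aeval θ f = 0 ∧
      ∀ i, v i ^ 2 = aeval θ (h i) := by
  have hinj : Function.Injective (algebraMap ℤ ℂ) := by
    have : Function.Injective (Int.castRingHom ℂ) := RingHom.injective_int _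
    exact this
  have hdeg : f.degree ≠ 0 := (Polynomial.natDegree_pos_iff_degree_pos.1 hf).ne'
  obtain ⟨θ, hθ⟩ : ∃ θ : ℂ, aeval θ f = 0 := by
    obtain ⟨x, hx⟩ := IsAlgClosed.exists_eval₂_eq_zero_of_injective (algebraMap ℤ ℂ) hinj f hdeg
    exact ⟨x, hx⟩
  have hsq : ∀ i, ∃ w : ℂ, w ^ 2 = aeval θ (h i) := fun i =>
    IsAlgClosed.exists_pow_nat_eq _ (by norm_num)
  choose w hw using hsq
  have hθi : IsIntegral ℚ θ := by
    have h0 : IsAlgebraic ℤ θ := ⟨f, by rintro rfl; simp at hf, hθ⟩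
    exact (h0.extendScalars (R := ℤ) (S := ℚ) (RingHom.injective_int (algebraMap ℤ ℚ))).isIntegral
  have hwi : ∀ i, IsIntegral ℚ (w i) := by
    intro i
    refine IsIntegral.of_pow (n := 2) (by norm_num) ?_
    rw [hw i, ← aeval_map_algebraMap ℚ θ (h i), aeval_eq_sum_range]
    exact IsIntegral.sum _ fun j _ => (hθi.pow j).smul _
  set S : Set ℂ := insert θ (Set.range w) with hS
  have hSf : S.Finite := (Set.finite_range w).insert θ
  have : Finite S := hSf
  have hfd : FiniteDimensional ℚ (IntermediateField.adjoin ℚ S) :=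
    IntermediateField.finiteDimensional_adjoin fun x hx => by
      rcases hx with rfl | ⟨i, rfl⟩
      · exact hθi
      · exact hwi i
  have hnf : NumberField (IntermediateField.adjoin ℚ S) := { }
  have h1 : θ ∈ IntermediateField.adjoin ℚ S :=
    IntermediateField.subset_adjoin ℚ S (Set.mem_insert _ _)
  have h2 : ∀ i, w i ∈ IntermediateField.adjoin ℚ S := fun i =>
    IntermediateField.subset_adjoin ℚ S (Set.mem_insert_of_mem _ ⟨i, rfl⟩)
  have hcoe : ∀ (q : ℤ[X]), ((aeval (⟨θ, h1⟩ : IntermediateField.adjoin ℚ S) q :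
      IntermediateField.adjoin ℚ S) : ℂ) = aeval θ q := by
    intro q
    have := Polynomial.hom_eval₂ q (algebraMap ℤ (IntermediateField.adjoin ℚ S))
      (algebraMap (IntermediateField.adjoin ℚ S) ℂ) ⟨θ, h1⟩
    have e : (algebraMap (IntermediateField.adjoin ℚ S) ℂ).comp
        (algebraMap ℤ (IntermediateField.adjoin ℚ S)) = algebraMap ℤ ℂ :=
      RingHom.ext_int _ _
    rw [e] at this
    exact this
  refine ⟨IntermediateField.adjoin ℚ S, inferInstance, hnf, ⟨θ, h1⟩, fun i => ⟨w i, h2 i⟩, ?_, ?_⟩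
  · exact Subtype.ext ((hcoe f).trans hθ)
  · intro i
    exact Subtype.ext ((hw i).trans (hcoe (h i)).symm)

/-- the fields `N` and `L k` together -/
lemma opt {K : Type} [Fintype K] [Nonempty K] (L : K → Type) [iL : ∀ k, Field (L k)]
    [iNL : ∀ k, NumberField (L k)] (N : Type) [iF : Field N] [iN : NumberField N] :
    ∃ c C : ℝ, 0 < c ∧ ∀ Y : ℝ, 3 ≤ Y → c * Real.log (Real.log Y) - C ≤
      ∑ l ∈ (pr Y).filter (fun l => N1 N l + NN L l = Module.finrank ℚ N + dg L), (1 : ℝ) / l := by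
  classical
  let L' : Option K → Type := fun o => o.elim N L
  letI iF' : ∀ o, Field (L' o) := fun o => match o with
    | none => iF
    | some k => iL k
  haveI iN' : ∀ o, NumberField (L' o) := fun o => match o with
    | none => iN
    | some k => iNL k
  obtain ⟨c, C, hc, h⟩ := Pool.Agent.H29.EM.m2_of W54.ChTor.main
      Pool.Agent.Q247.EL.m1 Pool.Agent.Q91.EL.ram (Option K) L'
  refine ⟨c, C, hc, fun Y hY => (h Y hY).trans (le_of_eq ?_)⟩
  have e1 : ∀ l, NN L' l = N1 N l + NN L l := by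
    intro l
    unfold NN
    rw [Fintype.sum_option]
    rfl
  have e2 : dg L' = Module.finrank ℚ N + dg L := by
    unfold dg
    rw [Fintype.sum_option]
    rfl
  simp only [e1, e2]

end Split

open Split in
theorem split : S_SPLIT := by
  classical
  intro K I _ _ _ f h L _ _ θ hs
  obtain ⟨k0⟩ := ‹Nonempty K›
  have : Nonempty K := ⟨k0⟩
  have hirr := (hs.set k0).irr
  have hdeg : 0 < (f k0).natDegree := by
    have e1 : ((f k0).map (Int.castRingHom ℚ)).natDegree = (f k0).natDegree :=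
      natDegree_map_eq_of_injective (RingHom.injective_int (Int.castRingHom ℚ)) _
    rw [← e1]
    exact hirr.natDegree_pos
  obtain ⟨N, iF, iN, θ0, v, hθ0, hv⟩ := exists_field (f k0) hdeg h
  obtain ⟨c, C, hc, hsum⟩ := opt L N
  have hf0 : f k0 ≠ 0 := by
    intro h0
    rw [h0, natDegree_zero] at hdeg
    omega
  set a : ℕ := (f k0).leadingCoeff.natAbs with ha
  have ha0 : a ≠ 0 := Int.natAbs_ne_zero.2 (leadingCoeff_ne_zero.2 hf0)
  refine ⟨c, C + a.divisors.card, hc, fun Y hY => ?_⟩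
  have hsub : (pr Y).filter (fun l => N1 N l + NN L l = Module.finrank ℚ N + dg L) ⊆
      (pr Y).filter (fun l => NN L l = dg L ∧ (SR f h l).Nonempty) ∪ a.divisors := by
    intro l hl
    obtain ⟨hlp, hle⟩ := mem_filter.1 hl
    have hl' : l.Prime := (mem_filter.1 hlp).2
    have h1 : N1 N l ≤ Module.finrank ℚ N := (Pool.Agent.Q91.EL.ram N).2 l hl'
    have h2 : NN L l ≤ dg L := sum_le_sum fun k _ => (Pool.Agent.Q91.EL.ram (L k)).2 l hl'
    by_cases hla : l ∣ a
    · exact mem_union_right _ (Nat.mem_divisors.2 ⟨hla, ha0⟩)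
    · refine mem_union_left _ (mem_filter.2 ⟨hlp, by omega, ?_⟩)
      have h3 : N1 N l ≠ 0 := by
        have : 0 < Module.finrank ℚ N := Module.finrank_pos
        omega
      have h4 : Nonempty {v : HeightOneSpectrum (𝓞 N) // Ideal.absNorm v.asIdeal = l} :=
        (Nat.card_pos_iff.1 (Nat.pos_of_ne_zero h3)).1
      obtain ⟨w, hw⟩ := h4
      obtain ⟨φ⟩ := exists_hom hl' w hw
      obtain ⟨r, hr1, hr2⟩ := key hθ0 h v hv hl' (fun h => hla (Int.natCast_dvd.1 h)) φ
      exact ⟨k0, mem_filter.2 ⟨mem_univ _, r, hr1, hr2⟩⟩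
  have hb : ∑ l ∈ a.divisors, (1 : ℝ) / l ≤ a.divisors.card := by
    calc ∑ l ∈ a.divisors, (1 : ℝ) / l ≤ ∑ _l ∈ a.divisors, (1 : ℝ) := by
          refine sum_le_sum fun l hl => ?_
          have h1 : 1 ≤ l := Nat.pos_of_mem_divisors hl
          rw [div_le_one (by exact_mod_cast h1)]
          exact_mod_cast h1
      _ = a.divisors.card := by simp
  have hun : ∑ l ∈ (pr Y).filter (fun l => NN L l = dg L ∧ (SR f h l).Nonempty) ∪ a.divisors,
      (1 : ℝ) / l ≤ ∑ l ∈ (pr Y).filter (fun l => NN L l = dg L ∧ (SR f h l).Nonempty), (1 : ℝ) / l +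
        ∑ l ∈ a.divisors, (1 : ℝ) / l := by
    rw [← sum_union_inter]
    have : 0 ≤ ∑ l ∈ (pr Y).filter (fun l => NN L l = dg L ∧ (SR f h l).Nonempty) ∩ a.divisors,
        (1 : ℝ) / l := sum_nonneg fun _ _ => by positivity
    linarith
  have hmono := sum_le_sum_of_subset_of_nonneg (f := fun l : ℕ => (1 : ℝ) / l) hsub
    (fun _ _ _ => by positivity)
  have := hsum Y hY
  linarith

end Pool.Agent.H11.EC
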