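import Pool.Agent.H11.EC.Ap

/-! Project EC: parities of the valuations of `d(θ k)`. -/

set_option autoImplicit false
set_option linter.unusedSectionVars false

namespace Pool.Agent.H11.EC

open Polynomial NumberField IsDedekindDomain Pool.Agent.Q239.EL
open Pool.Agent.Q51.EL (Abv Par N1 pr Setup hom)
open Pool.Agent.H11.EM (PL In Ty1 Ty2 box cls dg NN tau Good Sys S_SIEVE S_CNT rootm nvm sum_padic resid)

variable {K I : Type} [Fintype K] [Fintype I] {f : K → ℤ[X]} {h : I → ℤ[X]} {L : K → Type}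
  [∀ k, Field (L k)] [∀ k, NumberField (L k)] {θ : ∀ k, L k}

lemma inv_mod {l : ℕ} [hl : Fact l.Prime] (x : ℤ) {w : ℤ} (hw : ¬ (l : ℤ) ∣ w) :
    ∃ r : ℤ, (l : ℤ) ∣ w * r - x := by
  have h1 : (w : ZMod l) ≠ 0 := by
    intro h0
    exact hw ((ZMod.intCast_zmod_eq_zero_iff_dvd w l).1 h0)
  refine ⟨(((w : ZMod l)⁻¹ * x).val : ℤ), ?_⟩
  rw [← ZMod.intCast_zmod_eq_zero_iff_dvd]
  push_cast
  rw [ZMod.natCast_zmod_val, ← mul_assoc, mul_inv_cancel₀ h1, one_mul, sub_self]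

lemma sq_resid {l : ℕ} [hl : Fact l.Prime] {x w r : ℤ} (hw : ¬ (l : ℤ) ∣ w)
    (hr : (l : ℤ) ∣ w * r - x) {p : ℤ[X]} (hp : Even p.natDegree)
    (hs : ∃ s : ℤ, (l : ℤ) ∣ s ^ 2 - hom p x w) : ∃ s : ℤ, (l : ℤ) ∣ s ^ 2 - p.eval r := by
  have h1 : (w : ZMod l) ≠ 0 := by
    intro h0
    exact hw ((ZMod.intCast_zmod_eq_zero_iff_dvd w l).1 h0)
  obtain ⟨s, hs⟩ := hs
  obtain ⟨m, hm⟩ := hp
  rw [← ZMod.intCast_zmod_eq_zero_iff_dvd] at hs hr
  push_cast at hs hr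
  refine ⟨(((s : ZMod l) * ((w : ZMod l)⁻¹) ^ m).val : ℤ), ?_⟩
  rw [← ZMod.intCast_zmod_eq_zero_iff_dvd]
  push_cast
  rw [ZMod.natCast_zmod_val]
  have h2 : ((hom p x w : ℤ) : ZMod l) = (w : ZMod l) ^ p.natDegree * ((p.eval r : ℤ) : ZMod l) := by
    have h3 : ((hom p x w : ℤ) : ZMod l) = hom p ((x : ℤ) : ZMod l) ((w : ℤ) : ZMod l) :=
      hom_map (Int.castRingHom (ZMod l)) p x w
    have h4 : (x : ZMod l) = w * r := by
      rw [sub_eq_zero] at hr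
      exact hr.symm
    rw [h3, h4]
    have h5 := hom_smul p (w : ZMod l) (r : ZMod l) 1
    rw [mul_one] at h5
    rw [h5, hom_one]
    congr 1
    have h6 := Polynomial.hom_eval₂ p (RingHom.id ℤ) (Int.castRingHom (ZMod l)) r
    rw [RingHomCompTriple.comp_eq] at h6
    exact h6.symm
  rw [h2, sub_eq_zero] at hs
  rw [mul_pow, hs, hm, sub_eq_zero]
  have h7 : (w : ZMod l) ^ (m + m) * (((w : ZMod l)⁻¹) ^ m) ^ 2 = 1 := by
    rw [← pow_mul, mul_two, ← mul_pow, mul_inv_cancel₀ h1, one_pow]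
  linear_combination (((p.eval r : ℤ) : ZMod l)) * h7

lemma sr_mem {l : ℕ} [hl : Fact l.Prime] {x w r : ℤ} (hw : ¬ (l : ℤ) ∣ w)
    (hr : (l : ℤ) ∣ w * r - x) (hev : ∀ i, Even (h i).natDegree)
    (hs : ∀ i, ∃ s : ℤ, (l : ℤ) ∣ s ^ 2 - hom (h i) x w) {k : K} (hf : (l : ℤ) ∣ (f k).eval r) :
    k ∈ SR f h l := by
  classical
  unfold SR
  rw [Finset.mem_filter]
  exact ⟨Finset.mem_univ _, r, hf, fun i => sq_resid hw hr (hev i) (hs i)⟩

theorem scm' (hs : Sys f L θ) (heven : Even (∏ k, f k).natDegree)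
    (hev : ∀ i, Even (h i).natDegree) : ∃ B : ℕ, B ≠ 0 ∧
    ∀ (l : ℕ) [Fact l.Prime], ¬ l ∣ B → ∀ (d : ℚ[X]) (D : ℤ), (∀ k, aeval (θ k) d ≠ 0) →
    Squarefree D → IsSquare (((D * (∏ k, f k).leadingCoeff : ℤ) : ℚ) *
      ∏ k, Algebra.norm ℚ (aeval (θ k) d)) → CovPt (∏ k, f k) h d ℚ_[l] →
    ∃ e : ℤ,
      (¬ (l : ℤ) ∣ D ∧ ∀ u : PL L l, Par u.2.1 (aeval (θ u.1) d) e) ∨
      ((l : ℤ) ∣ D ∧ ∃ u0 : PL L l, Ideal.absNorm u0.2.1.asIdeal = l ∧ u0.1 ∈ SR f h l ∧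
        Par u0.2.1 (aeval (θ u0.1) d) (e + 1) ∧
        ∀ u : PL L l, u ≠ u0 → Par u.2.1 (aeval (θ u.1) d) e) := by
  obtain ⟨B, hB, hBa, hBs, hB'⟩ := rootm hs
  refine ⟨B, hB, ?_⟩
  intro l hl hlB d D hd hD hsq hcov
  obtain ⟨hθ, hxw⟩ := hB' l hl.out hlB
  have hsqf := hBs l hl.out hlB
  have ha : ¬ (l : ℤ) ∣ (∏ k, f k).leadingCoeff := fun h1 => hlB (by exact_mod_cast h1.trans hBa)
  obtain ⟨x, w, e, G, he, hxw1, hsqs, hval⟩ := apm2 (∏ k, f k) h hev l ha d hcov 2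
  have hval' : ∀ u : PL L l, u.2.1.valuation (L u.1) ((l : L u.1) ^ e * ((x : L u.1) - w * θ u.1) -
      aeval (θ u.1) d * aeval (θ u.1) G ^ 2) ≤ WithZero.exp (-((2 : ℕ) : ℤ)) := fun u =>
    hval (L u.1) (θ u.1) (hs.root u.1) u.2.1 u.2.2
  have hnv' := nvm (x := fun k => aeval (θ k) d) (by rw [hs.deg]; exact heven) hl.out hsqf hd
  -- the valuation of `D`
  have hD0 : D ≠ 0 := hD.ne_zero
  have haQ : ((∏ k, f k).leadingCoeff : ℚ) ≠ 0 := by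
    exact_mod_cast leadingCoeff_ne_zero.2 hs.prod_ne
  have hDQ : (D : ℚ) ≠ 0 := by exact_mod_cast hD0
  have hNδ1 : ∀ k, Algebra.norm ℚ (aeval (θ k) d) ≠ 0 := fun k =>
    Algebra.norm_ne_zero_iff.mpr (hd k)
  have hNδ : ∏ k, Algebra.norm ℚ (aeval (θ k) d) ≠ 0 := Finset.prod_ne_zero_iff.2 fun k _ => hNδ1 k
  have hva : padicValRat l ((∏ k, f k).leadingCoeff : ℚ) = 0 := by
    rw [padicValRat.of_int]
    exact_mod_cast padicValInt.eq_zero_of_not_dvd ha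
  have hpar : Even (padicValRat l (D : ℚ) + ∑ k, padicValRat l (Algebra.norm ℚ (aeval (θ k) d))) := by
    obtain ⟨s, hs'⟩ := hsq
    have h1 := congrArg (padicValRat l) hs'
    have hs0 : s ≠ 0 := by
      rintro rfl
      rw [mul_zero] at hs'
      push_cast at hs'
      exact mul_ne_zero (mul_ne_zero hDQ haQ) hNδ hs'
    push_cast at h1
    rw [padicValRat.mul (mul_ne_zero hDQ haQ) hNδ, padicValRat.mul hDQ haQ, hva,
      padicValRat.mul hs0 hs0, add_zero, sum_padic hNδ1] at h1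
    exact ⟨_, h1⟩
  have hvD0 : ¬ (l : ℤ) ∣ D → padicValRat l (D : ℚ) = 0 := by
    intro h
    rw [padicValRat.of_int]
    exact_mod_cast padicValInt.eq_zero_of_not_dvd h
  have hvD1 : (l : ℤ) ∣ D → padicValRat l (D : ℚ) = 1 := by
    rintro ⟨z, rfl⟩
    have hz0 : z ≠ 0 := right_ne_zero_of_mul hD0
    have hzl : ¬ (l : ℤ) ∣ z := by
      intro h
      have h1 := hD l (mul_dvd_mul_left _ h)
      exact (Nat.prime_iff_prime_int.mp hl.out).not_isUnit h1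
    push_cast
    rw [padicValRat.mul (by exact_mod_cast hl.out.ne_zero) (by exact_mod_cast hz0)]
    have h1 : padicValRat l (l : ℚ) = 1 := padicValRat.self hl.out.one_lt
    have h2 : padicValRat l (z : ℚ) = 0 := by
      rw [padicValRat.of_int]
      exact_mod_cast padicValInt.eq_zero_of_not_dvd hzl
    rw [h1, h2, add_zero]
  have hun : ∀ u : PL L l, u.2.1.valuation (L u.1) ((x : L u.1) - w * θ u.1) = 1 →
      Par u.2.1 (aeval (θ u.1) d) e := by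
    intro u h1
    exact par_of_val (hd u.1) (at_unit he (hθ u).2 h1 (hval' u))
  rcases hxw x w hxw1 with h1 | ⟨u0, hN0, hw, hlt, hoth⟩
  · refine ⟨e, Or.inl ⟨?_, fun u => hun u (h1 u)⟩⟩
    intro hlD
    have h2 := hnv'.1 e (fun u => hun u (h1 u))
    rw [hvD1 hlD] at hpar
    obtain ⟨a, ha'⟩ := hpar
    obtain ⟨b, hb'⟩ := h2
    omega
  · obtain ⟨e0, he0⟩ := val_exp (v := u0.2.1) (hd u0.1)
    have hp0 : Par u0.2.1 (aeval (θ u0.1) d) e0 := ⟨0, by rw [he0]; congr 1; ring⟩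
    have h2 := hnv'.2 e0 e u0 hN0 hp0 (fun u hne => hun u (hoth u hne))
    by_cases hlD : (l : ℤ) ∣ D
    · obtain ⟨r, hr⟩ := inv_mod x hw
      have hsr : u0.1 ∈ SR f h l := sr_mem hw hr hev hsqs
        (resid (hs.set u0.1) hl.out u0.2.2 (hθ u0).1 hw hr hlt)
      refine ⟨e, Or.inr ⟨hlD, u0, hN0, hsr, ?_, fun u hne => hun u (hoth u hne)⟩⟩
      rw [hvD1 hlD] at hpar
      apply par_congr hp0
      obtain ⟨a, ha'⟩ := hpar
      obtain ⟨b, hb'⟩ := h2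
      exact ⟨b - a - e, by linarith⟩
    · refine ⟨e, Or.inl ⟨hlD, fun u => ?_⟩⟩
      by_cases hne : u = u0
      · subst hne
        rw [hvD0 hlD] at hpar
        apply par_congr hp0
        obtain ⟨a, ha'⟩ := hpar
        obtain ⟨b, hb'⟩ := h2
        exact ⟨b - a - e, by linarith⟩
      · exact hun u (hoth u hne)

end Pool.Agent.H11.EC
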